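import Mathlib
import Pool.Agent.Work.MP_787500_nt.OR.Defs
import Pool.Agent.Work.MP_787500_nt.EU.Defs

/-!
# The reference condition at a place with an isotropic submodule of `U × U`: definitions (fixed, do not change)

`P` is the local group, `U = F ^ n`, `B` the representation of `P` with values in the symplectic group, `ε` the quadratic
character. `Up`, `N` are subspaces of `U`, the orthogonal complements of each other; the elements with `ε = 0` preserve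
`Up` and `N`, the elements with `ε = 1` interchange them. `I = Up ∩ N`, `S = Up + N`, `S / I` is the orthogonal sum of `Up / I`
and `N / I`, both with coordinates in `F ^ r` (`Fl`): `pi1`, `pi2`.
-/

set_option autoImplicit false
set_option linter.unusedSectionVars false

namespace Pool.Agent.Work.MP_787500_nt.IU

open Matrix
open Pool.Agent.Work.MP_787500_nt.GP (A0 hf IsAct d0 d1 d2 tw cup11)
open Pool.Agent.Work.MP_787500_nt.KR (FSys Sm1 Sm2 IsChar Smooth Z1 Z2 B2 LocH Pair LDual zM)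
open Pool.Agent.Work.MP_787500_nt.KT hiding Str Rel Sel KH Ai IsP cc ff TT
open Pool.Agent.Work.MP_787500_nt.KS (hfT)
open Pool.Agent.Work.MP_787500_nt.OR (indW mem_indW fixV mem_fixV fixW mem_fixW k1)

variable {F : Type*} [Field F] {n : ℕ} [Sy F n] {P : Type*} [Group P]

/-- two subspaces that are interchanged by the group and orthogonal to each other -/
structure Or2 (B : P →* Matrix (Fin n) (Fin n) F) (ε : P → ZMod 2)
    (Up N : Submodule F (Fin n → F)) : Prop where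
  sp : ∀ g, IsSp (B g)
  pN : ∀ x, x ∈ N ↔ ∀ y ∈ Up, ee x y = 0
  pU : ∀ x, x ∈ Up ↔ ∀ y ∈ N, ee x y = 0
  st0 : ∀ g, ε g = 0 → ∀ x ∈ Up, B g *ᵥ x ∈ Up
  st1 : ∀ g, ε g = 0 → ∀ x ∈ N, B g *ᵥ x ∈ N
  sw0 : ∀ g, ε g = 1 → ∀ x ∈ Up, B g *ᵥ x ∈ N
  sw1 : ∀ g, ε g = 1 → ∀ x ∈ N, B g *ᵥ x ∈ Up

/-- One matrix `g`: `I ≤ S` orthogonal complements, coordinates of `S / I = F ^ r × F ^ r`, `g` acts on them by `g1`, `g2` and
interchanges the two summands if `sw = 1`; `w₀` is a vector with `qq x + ee w₀ x ^ 2 = qq (pi1 x) + qq (pi2 x)` on `S`. -/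
structure Fl [CharP F 2] {r : ℕ} [Sy F r] (I S : Submodule F (Fin n → F))
    (pi1 pi2 : (Fin n → F) →ₗ[F] (Fin r → F)) (w₀ : Fin n → F) : Prop where
  pS : ∀ x, x ∈ S ↔ ∀ y ∈ I, ee x y = 0
  pI : ∀ x, x ∈ I ↔ ∀ y ∈ S, ee x y = 0
  le : I ≤ S
  ker : ∀ x ∈ S, x ∈ I ↔ pi1 x = 0 ∧ pi2 x = 0
  surj : ∀ u v, ∃ x ∈ S, pi1 x = u ∧ pi2 x = v
  form : ∀ x ∈ S, ∀ y ∈ S, ee x y = ee (pi1 x) (pi1 y) + ee (pi2 x) (pi2 y)
  quad : ∀ x ∈ S, qq x + ee w₀ x ^ 2 = qq (pi1 x) + qq (pi2 x)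

/-- the matrix `g` in the coordinates of `Fl` -/
structure Ac {r : ℕ} [Sy F r] (I S : Submodule F (Fin n → F))
    (pi1 pi2 : (Fin n → F) →ₗ[F] (Fin r → F)) (g : Matrix (Fin n) (Fin n) F) (sw : ZMod 2)
    (g1 g2 : Matrix (Fin r) (Fin r) F) : Prop where
  sp : IsSp g
  st : ∀ x ∈ I, g *ᵥ x ∈ I
  a0 : sw = 0 → ∀ x ∈ S, pi1 (g *ᵥ x) = g1 *ᵥ pi1 x ∧ pi2 (g *ᵥ x) = g2 *ᵥ pi2 x
  a1 : sw = 1 → ∀ x ∈ S, pi1 (g *ᵥ x) = g1 *ᵥ pi2 x ∧ pi2 (g *ᵥ x) = g2 *ᵥ pi1 x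

/-- The representation in coordinates. -/
structure Co [CharP F 2] {r : ℕ} [Sy F r] (B : P →* Matrix (Fin n) (Fin n) F) (ε : P → ZMod 2)
    (I S : Submodule F (Fin n → F)) (pi1 pi2 : (Fin n → F) →ₗ[F] (Fin r → F)) (w₀ : Fin n → F)
    (g1 g2 : P → Matrix (Fin r) (Fin r) F) : Prop extends Fl I S pi1 pi2 w₀ where
  ac : ∀ g, Ac I S pi1 pi2 (B g) (ε g) (g1 g) (g2 g)

/-- `Up` and `N` in the coordinates of `Fl` -/
structure UN {r : ℕ} (Up N S : Submodule F (Fin n → F))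
    (pi1 pi2 : (Fin n → F) →ₗ[F] (Fin r → F)) : Prop where
  leU : Up ≤ S
  leN : N ≤ S
  mU : ∀ x ∈ S, x ∈ Up ↔ pi2 x = 0
  mN : ∀ x ∈ S, x ∈ N ↔ pi1 x = 0

/-- the linear map of `F ^ r × F ^ r` given by `g1`, `g2` -/
def gb {r : ℕ} (sw : ZMod 2) (g1 g2 : Matrix (Fin r) (Fin r) F) :
    ((Fin r → F) × (Fin r → F)) →ₗ[F] ((Fin r → F) × (Fin r → F)) :=
  if sw = 0 then (Matrix.mulVecLin g1).prodMap (Matrix.mulVecLin g2)
  else ((Matrix.mulVecLin g1).comp (LinearMap.snd F _ _)).prod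
    ((Matrix.mulVecLin g2).comp (LinearMap.fst F _ _))

theorem gb_zero {r : ℕ} {g1 g2 : Matrix (Fin r) (Fin r) F} (x : (Fin r → F) × (Fin r → F)) :
    gb 0 g1 g2 x = (g1 *ᵥ x.1, g2 *ᵥ x.2) := by
  unfold gb
  rw [if_pos rfl]
  rfl

theorem gb_one {r : ℕ} {g1 g2 : Matrix (Fin r) (Fin r) F} (x : (Fin r → F) × (Fin r → F)) :
    gb 1 g1 g2 x = (g1 *ᵥ x.2, g2 *ᵥ x.1) := by
  unfold gb
  rw [if_neg one_ne_zero]
  rfl

/-- its fixed vectors -/
def fixb {r : ℕ} (sw : ZMod 2) (g1 g2 : Matrix (Fin r) (Fin r) F) :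
    Submodule F ((Fin r → F) × (Fin r → F)) := LinearMap.ker (gb sw g1 g2 - LinearMap.id)

theorem mem_fixb {r : ℕ} {sw : ZMod 2} {g1 g2 : Matrix (Fin r) (Fin r) F}
    {x : (Fin r → F) × (Fin r → F)} : x ∈ fixb sw g1 g2 ↔ gb sw g1 g2 x = x := by
  unfold fixb
  rw [LinearMap.mem_ker, LinearMap.sub_apply, LinearMap.id_apply, sub_eq_zero]

variable [Finite F] [CharP F 2] [Algebra (ZMod 2) F]

/-- the consequence of local duality for `I` and `U / S` -/
def Od2 (T : FSys P) (iv : (P → P → A0) → A0) (B : P →* Matrix (Fin n) (Fin n) F)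
    (I S : Submodule F (Fin n → F)) : Prop :=
  ∀ f : P → P → (Fin n → F), Sm2 T f → (∀ s t, f s t ∈ I) →
    (∀ s t u, B s *ᵥ f t u + f (s * t) u + f s (t * u) + f s t = 0) →
    (∀ z, (∀ g, B g *ᵥ z + z ∈ S) → iv (fun s t => hfT (ee z (f s t))) = 0) →
    ∃ a : P → (Fin n → F), Sm1 T a ∧ (∀ g, a g ∈ I) ∧
      ∀ s t, f s t = a s + B s *ᵥ a t + a (s * t)

/-- the condition on a vector of `U × U` in the coordinates `(a, y)` -/
def InW (Up N : Submodule F (Fin n → F)) (a y : Fin n → F) : Prop := a ∈ Up ∧ a + y ∈ N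

theorem inW_iff {r : ℕ} {Up N S : Submodule F (Fin n → F)}
    {pi1 pi2 : (Fin n → F) →ₗ[F] (Fin r → F)} (h : UN Up N S pi1 pi2) {a y : Fin n → F} :
    InW Up N a y ↔ (a ∈ S ∧ y ∈ S) ∧ pi1 a = pi1 y ∧ pi2 a = 0 := by
  constructor
  · rintro ⟨h1, h2⟩
    have h3 := h.leU h1
    have h4 := h.leN h2
    have h5 : y ∈ S := by
      have e : y = (a + y) - a := by abel
      rw [e]
      exact S.sub_mem h4 h3
    have h6 := (h.mN _ h4).1 h2
    rw [map_add] at h6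
    refine ⟨⟨h3, h5⟩, ?_, (h.mU _ h3).1 h1⟩
    have h7 := congrArg (fun x => x + pi1 y) h6
    beta_reduce at h7
    have h8 : pi1 y + pi1 y = 0 := by
      ext i
      exact CharTwo.add_self_eq_zero _
    rwa [add_assoc, h8, add_zero, zero_add] at h7
  · rintro ⟨⟨h3, h5⟩, h6, h7⟩
    refine ⟨(h.mU _ h3).2 h7, (h.mN _ (S.add_mem h3 h5)).2 ?_⟩
    rw [map_add, h6]
    ext i
    exact CharTwo.add_self_eq_zero _

/-- the condition for pairs given by `Up`, `N` -/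
def LI2 (T : FSys P) (B : P →* Matrix (Fin n) (Fin n) F) (ε : P → ZMod 2)
    (Up N : Submodule F (Fin n → F)) (L : Submodule F ((P → Fin n → F) × (P → Fin n → F))) : Prop :=
  ∀ p, p ∈ L ↔ (Z1 T (KT.act B) p.2 ∧ Sm1 T p.1 ∧
    IsLift (B : P → Matrix (Fin n) (Fin n) F) ε p.1 p.2) ∧
    ∃ k m : Fin n → F, ∀ d, InW Up N (p.1 d + (B d *ᵥ (k + ε d • m) + k)) (p.2 d + (B d *ᵥ m + m))

/-- the pairs fixed modulo `InW` -/
def J2 (B : P →* Matrix (Fin n) (Fin n) F) (ε : P → ZMod 2) (Up N : Submodule F (Fin n → F)) :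
    Submodule F ((Fin n → F) × (Fin n → F)) where
  carrier := {v | ∀ d, InW Up N (B d *ᵥ (v.1 + ε d • v.2) + v.1) (B d *ᵥ v.2 + v.2)}
  add_mem' := by
    intro v w hv hw d
    have e1 : B d *ᵥ ((v + w).1 + ε d • (v + w).2) + (v + w).1 =
        (B d *ᵥ (v.1 + ε d • v.2) + v.1) + (B d *ᵥ (w.1 + ε d • w.2) + w.1) := by
      rw [Prod.fst_add, Prod.snd_add, smul_add, mulVec_add, mulVec_add, mulVec_add, mulVec_add,
        mulVec_add]
      abel
    have e2 : B d *ᵥ (v + w).2 + (v + w).2 = (B d *ᵥ v.2 + v.2) + (B d *ᵥ w.2 + w.2) := by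
      rw [Prod.snd_add, mulVec_add]
      abel
    have e3 : ∀ a b y z : Fin n → F, InW Up N a y → InW Up N b z → InW Up N (a + b) (y + z) :=
      fun a b y z h h' => ⟨Up.add_mem h.1 h'.1, by
        have e : a + b + (y + z) = (a + y) + (b + z) := by abel
        rw [e]
        exact N.add_mem h.2 h'.2⟩
    rw [e1, e2]
    exact e3 _ _ _ _ (hv d) (hw d)
  zero_mem' := fun d => by
    have e1 : B d *ᵥ ((0 : (Fin n → F) × (Fin n → F)).1 + ε d • (0 : (Fin n → F) × (Fin n → F)).2) +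
        (0 : (Fin n → F) × (Fin n → F)).1 = 0 := by
      rw [Prod.fst_zero, Prod.snd_zero, smul_zero, add_zero, add_zero, mulVec_zero]
    have e2 : B d *ᵥ (0 : (Fin n → F) × (Fin n → F)).2 + (0 : (Fin n → F) × (Fin n → F)).2 = 0 := by
      rw [Prod.snd_zero, mulVec_zero, add_zero]
    rw [e1, e2]
    exact ⟨Up.zero_mem, by rw [add_zero]; exact N.zero_mem⟩
  smul_mem' := by
    intro a v hv d
    have e1 : B d *ᵥ ((a • v).1 + ε d • (a • v).2) + (a • v).1 =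
        a • (B d *ᵥ (v.1 + ε d • v.2) + v.1) := by
      rw [Prod.smul_fst, Prod.smul_snd, smul_comm (ε d) a v.2, ← smul_add, mulVec_smul, smul_add]
    have e2 : B d *ᵥ (a • v).2 + (a • v).2 = a • (B d *ᵥ v.2 + v.2) := by
      rw [Prod.smul_snd, mulVec_smul, smul_add]
    rw [e1, e2]
    exact ⟨Up.smul_mem a (hv d).1, by rw [← smul_add]; exact N.smul_mem a (hv d).2⟩

theorem mem_J2 {B : P →* Matrix (Fin n) (Fin n) F} {ε : P → ZMod 2} {Up N : Submodule F (Fin n → F)}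
    {v : (Fin n → F) × (Fin n → F)} : v ∈ J2 B ε Up N ↔
      ∀ d, InW Up N (B d *ᵥ (v.1 + ε d • v.2) + v.1) (B d *ᵥ v.2 + v.2) := Iff.rfl

/-- `Up × N` in the coordinates of `U × U` -/
def W2 {Γ : Type*} [Group Γ] (A : Γ →* Matrix (Fin n) (Fin n) F) (c : Γ)
    (Up N : Submodule F (Fin n → F)) : Submodule F ((Fin n → F) × (Fin n → F)) :=
  Up.prod (N.comap (Matrix.mulVecLin (A c)))

theorem mem_W2 {Γ : Type*} [Group Γ] {A : Γ →* Matrix (Fin n) (Fin n) F} {c : Γ}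
    {Up N : Submodule F (Fin n → F)} {v : (Fin n → F) × (Fin n → F)} :
    v ∈ W2 A c Up N ↔ v.1 ∈ Up ∧ A c *ᵥ v.2 ∈ N := Iff.rfl

/-- smooth 2-cocycles with values in `F` -/
def CoF (F : Type*) [Field F] (T : FSys P) : Submodule F (P → P → F) where
  carrier := {c | Sm2 T c ∧ ∀ s t u, c t u - c (s * t) u + c s (t * u) - c s t = 0}
  add_mem' := by
    rintro c c' ⟨⟨W, hW, h1⟩, h2⟩ ⟨⟨W', hW', h1'⟩, h2'⟩
    refine ⟨⟨W ⊓ W', T.inf hW hW', fun g h w hw w' hw' => ?_⟩, fun s t u => ?_⟩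
    · rw [Pi.add_apply, Pi.add_apply, Pi.add_apply, Pi.add_apply, h1 g h w hw.1 w' hw'.1,
        h1' g h w hw.2 w' hw'.2]
    · simp only [Pi.add_apply]
      linear_combination h2 s t u + h2' s t u
  zero_mem' := by
    obtain ⟨W, hW⟩ := T.ex
    exact ⟨⟨W, hW, fun _ _ _ _ _ _ => rfl⟩, fun _ _ _ => by simp⟩
  smul_mem' := by
    rintro a c ⟨⟨W, hW, h1⟩, h2⟩
    refine ⟨⟨W, hW, fun g h w hw w' hw' => ?_⟩, fun s t u => ?_⟩
    · rw [Pi.smul_apply, Pi.smul_apply, Pi.smul_apply, Pi.smul_apply, h1 g h w hw w' hw']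
    · simp only [Pi.smul_apply, smul_eq_mul]
      linear_combination a * h2 s t u

theorem mem_CoF {T : FSys P} {c : P → P → F} :
    c ∈ CoF F T ↔ Sm2 T c ∧ ∀ s t u, c t u - c (s * t) u + c s (t * u) - c s t = 0 := Iff.rfl

/-- `iF` is the invariant with values in `F` -/
def IsInv (T : FSys P) (iv : (P → P → A0) → A0) (iF : CoF F T →ₗ[F] F) : Prop :=
  ∀ (α : F) (c : CoF F T), iv (fun s t => hfT (α * c.1 s t)) = hfT (α * iF c)

/-- the cocycle of a vector `z` fixed modulo `S` and a cocycle `y` with values in `S` -/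
def cS {r : ℕ} [Sy F r] (B : P →* Matrix (Fin n) (Fin n) F) (ε : P → ZMod 2)
    (pi1 : (Fin n → F) →ₗ[F] (Fin r → F)) (z : Fin n → F) (y : P → Fin n → F) : P → P → F :=
  fun s t => ee (pi1 (B s *ᵥ z + z)) (pi1 (B s *ᵥ y t)) + ε s • ee z (y t)

/-- the form on the vectors fixed modulo `S` and the functional of the correction class -/
structure FM2 {r : ℕ} [Sy F r] (T : FSys P) (B : P →* Matrix (Fin n) (Fin n) F) (ε : P → ZMod 2)
    (S : Submodule F (Fin n → F)) (pi1 : (Fin n → F) →ₗ[F] (Fin r → F)) (w₀ : Fin n → F)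
    (iF : CoF F T →ₗ[F] F) (M : fixW B Set.univ S →ₗ[F] fixW B Set.univ S →ₗ[F] F)
    (lm : fixW B Set.univ S →ₗ[F] F) : Prop where
  val : ∀ (m z : fixW B Set.univ S) (c : CoF F T),
    c.1 = cS B ε pi1 z.1 (fun t => B t *ᵥ m.1 + m.1) → iF c = M m z
  vlm : ∀ (z : fixW B Set.univ S) (c : CoF F T),
    c.1 = cS B ε pi1 z.1 (fun t => k1 w₀ (B t)) → iF c = lm z
  symm : ∀ x y, M x y = M y x
  diag : ∀ x, M x x = lm x ^ 2

/-- the cocycles that have values in `I` up to coboundaries -/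
def EW (T : FSys P) (B : P →* Matrix (Fin n) (Fin n) F) (I : Submodule F (Fin n → F)) :
    Submodule F (P → Fin n → F) where
  carrier := {x | Z1 T (KT.act B) x ∧ ∃ m : Fin n → F, ∀ g, x g + (B g *ᵥ m + m) ∈ I}
  add_mem' := by
    rintro x y ⟨h1, m, h2⟩ ⟨h1', m', h2'⟩
    refine ⟨(cocS T (B : P → Matrix (Fin n) (Fin n) F)).add_mem h1 h1', m + m', fun g => ?_⟩
    have e : (x + y) g + (B g *ᵥ (m + m') + (m + m')) =
        (x g + (B g *ᵥ m + m)) + (y g + (B g *ᵥ m' + m')) := by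
      rw [Pi.add_apply, mulVec_add]
      abel
    rw [e]
    exact I.add_mem (h2 g) (h2' g)
  zero_mem' := ⟨(cocS T (B : P → Matrix (Fin n) (Fin n) F)).zero_mem, 0, fun g => by
    rw [mulVec_zero, add_zero, add_zero]
    exact I.zero_mem⟩
  smul_mem' := by
    rintro a x ⟨h1, m, h2⟩
    refine ⟨(cocS T (B : P → Matrix (Fin n) (Fin n) F)).smul_mem a h1, a • m, fun g => ?_⟩
    have e : (a • x) g + (B g *ᵥ (a • m) + a • m) = a • (x g + (B g *ᵥ m + m)) := by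
      rw [Pi.smul_apply, mulVec_smul, smul_add, smul_add]
    rw [e]
    exact I.smul_mem a (h2 g)

theorem mem_EW {T : FSys P} {B : P →* Matrix (Fin n) (Fin n) F} {I : Submodule F (Fin n → F)}
    {x : P → Fin n → F} : x ∈ EW T B I ↔
    Z1 T (KT.act B) x ∧ ∃ m : Fin n → F, ∀ g, x g + (B g *ᵥ m + m) ∈ I := Iff.rfl

/-- the condition on the dimensions that follows from the local Euler characteristic -/
def EC (T : FSys P) (B : P →* Matrix (Fin n) (Fin n) F) (I S : Submodule F (Fin n → F)) : Prop :=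
  ∃ q : ℤ, 2 * ((Module.finrank F (EW T B I) : ℤ) + Module.finrank F (fixW B Set.univ I) +
    Module.finrank F (fixW B Set.univ S)) =
      Module.finrank F (cocS T (B : P → Matrix (Fin n) (Fin n) F)) +
      Module.finrank F (cobS (B : P → Matrix (Fin n) (Fin n) F)) + 4 * q

end Pool.Agent.Work.MP_787500_nt.IU

namespace Pool.Agent.Work.MP_787500_nt.IU

open Pool.Agent.Work.MP_787500_nt.GP (A0 IsAct)
open Pool.Agent.Work.MP_787500_nt.KR (FSys Z1 Smooth)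

universe v

/-- the local Euler characteristic of the modules killed by 2 (`k` the degree over `ℚ_2`) -/
def Eul {P : Type*} [Group P] (T : FSys P) (k : ℕ) : Prop :=
  ∀ {X : Type v} [AddCommGroup X] [Finite X] {υ : P → X → X}, IsAct υ → Smooth T υ →
    (∀ x : X, x + x = 0) →
    Nat.card {x : P → X // Z1 T υ x} = Nat.card X ^ (k + 1) * Nat.card (EU.invD υ)

end Pool.Agent.Work.MP_787500_nt.IU
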