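import Mathlib
import Pool.Agent.Work.MP_787500_nt.IU.Defs
import Pool.Agent.Work.MP_787500_nt.OR.Fin
/-!
# Module FinA (size M): the two subspaces given by an isotropic submodule of `M × M`

`W1` is a submodule of `M × M` with `b v.1 w.2 = 0` for `v w ∈ W1`, its own annihilator, stable under the action `ac2`.
* `v ∈ W1` implies `(v.1, 0) ∈ W1` and `(0, v.2) ∈ W1`: `hp`: `pB (be2 b) w (v.1, 0) = b w.1 0 + b v.1 w.2 = 0`.
* `Up = {x | (L.symm x, 0) ∈ W1}`, `N = {y | (0, L.symm (A c y)) ∈ W1}`: `F`-subspaces (`hc.iso`: `algebraMap O F` surjective, `SIso.symm_smul`). `v ∈ W1 ↔ L v.1 ∈ Up ∧ A c (L v.2) ∈ N` (`A_cc`).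
* `pN`, `pU`: `b m m1 = hfT (ee (L m) (A c (L m1)))` (`hc.fr`, `bC_apply`), `hb`, `hp`, `hfT_nondeg` with multiples.
* `st0`, `st1`, `sw0`, `sw1`: `X.cases (jp g)`: `ep e (e g) = 0`, `ep e (e g * c) = 1`, `X.ac_e`: `ac2 (e g) v = (ρ g v.1, ρ (κ g) v.2)`, `X.ac_ec`: `ac2 (e g * c) v = (ρ g v.2, ρ (κ g) v.1)`; `hc.ae`, `X.kap`.
-/

set_option autoImplicit false
set_option linter.unusedSectionVars false

namespace Pool.Agent.Work.MP_787500_nt.IU

open Matrix
open Pool.Agent.Work.MP_787500_nt.GP (A0 hf hf_add hf_zero hf_two hf_neg smul_hf IsAct d0 d1 d2 tw cup11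
  cup02 EvPow)
open Pool.Agent.Work.MP_787500_nt.KR (FSys Sm1 Sm2 IsChar Smooth Z1 Z2 B2 LocH Pair LDual LocD zM
  cup11_Z2 SDualF)
open Pool.Agent.Work.MP_787500_nt.KT hiding Str Rel Sel KH Ai IsP cc ff TT
open Pool.Agent.Work.MP_787500_nt.KS (hfT hfT_apply hfT_sq hfT_two hfT_neg smul_hfT hfT_nondeg hfT_smul
  inv_zero smul_F dF1 rt rt_sq sm_eps sm1_one sm1_two zmod2_cases hfT_eps_sq exists_mul hfT_eq
  trace_trick sym_rank ann mem_ann finrank_ann ep)
open Pool.Agent.Work.MP_787500_nt.OR (indW mem_indW fixV mem_fixV fixW mem_fixW k1)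


open Pool.Agent.Work.MP_787500_nt.KI
open Pool.Agent.Work.MP_787500_nt.QS (Two ac2 be2 la2 Lag QM pB Zq)
open Pool.Agent.Work.MP_787500_nt.QP (InvC)

universe v

variable {G Γ : Type*} [Group G] [Group Γ] {e : G →* Γ} {c : Γ} {κ : G →* G} {P : Type*} [Group P]
  {jp : P →* Γ} {F : Type v} [Field F] [Finite F] [CharP F 2]
  [Algebra (ZMod 2) F] {M : Type v} [AddCommGroup M] [Finite M] {O : Type*}
  [CommRing O] [Algebra O F] [Module O M] {ρ : G → M → M} {b : M →+ M →+ A0} {C : M → M} {n : ℕ}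
  [Sy F n] {L : M ≃+ (Fin n → F)} {A : Γ →* Matrix (Fin n) (Fin n) F}

private theorem left_mem {W1 : Submodule O (M × M)}
    (hb : ∀ v ∈ W1, ∀ w ∈ W1, b v.1 w.2 = 0)
    (hp : ∀ v, (∀ w ∈ W1, pB (be2 b) w v = 0) → v ∈ W1) {v : M × M} (hv : v ∈ W1) :
    (v.1, (0 : M)) ∈ W1 := by
  refine hp _ fun w hw => ?_
  rw [QS.pB_apply, QS.be2_apply, QS.be2_apply]
  show b w.1 0 - b v.1 w.2 = 0
  rw [hb v hv w hw, map_zero, sub_zero]

private theorem right_mem {W1 : Submodule O (M × M)}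
    (hb : ∀ v ∈ W1, ∀ w ∈ W1, b v.1 w.2 = 0)
    (hp : ∀ v, (∀ w ∈ W1, pB (be2 b) w v = 0) → v ∈ W1) {v : M × M} (hv : v ∈ W1) :
    ((0 : M), v.2) ∈ W1 := by
  refine hp _ fun w hw => ?_
  rw [QS.pB_apply, QS.be2_apply, QS.be2_apply]
  show b w.1 v.2 - b 0 w.2 = 0
  rw [hb w hw v hv, map_zero, AddMonoidHom.zero_apply, sub_zero]

/-- the first subspace -/
private def UpS (hL : SIso O F L) (W1 : Submodule O (M × M)) : Submodule F (Fin n → F) where
  carrier := {x | (L.symm x, (0 : M)) ∈ W1}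
  add_mem' := fun {x y} hx hy => by
    show (L.symm (x + y), (0 : M)) ∈ W1
    have h := W1.add_mem hx hy
    rw [Prod.mk_add_mk, add_zero, ← map_add] at h
    exact h
  zero_mem' := by
    show (L.symm 0, (0 : M)) ∈ W1
    rw [map_zero]
    exact W1.zero_mem
  smul_mem' := fun a x hx => by
    obtain ⟨a, rfl⟩ := hL.surj a
    show (L.symm (algebraMap O F a • x), (0 : M)) ∈ W1
    have h := W1.smul_mem a hx
    rw [Prod.smul_mk, smul_zero, ← hL.symm_smul] at h
    exact h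

private theorem mem_UpS {hL : SIso O F L} {W1 : Submodule O (M × M)} {m : M} :
    L m ∈ UpS hL W1 ↔ (m, (0 : M)) ∈ W1 := by
  show (L.symm (L m), (0 : M)) ∈ W1 ↔ _
  rw [L.symm_apply_apply]

/-- the second subspace -/
private def NS (hL : SIso O F L) (A : Γ →* Matrix (Fin n) (Fin n) F) (c : Γ)
    (W1 : Submodule O (M × M)) : Submodule F (Fin n → F) where
  carrier := {y | ((0 : M), L.symm (A c *ᵥ y)) ∈ W1}
  add_mem' := fun {x y} hx hy => by
    show ((0 : M), L.symm (A c *ᵥ (x + y))) ∈ W1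
    have h := W1.add_mem hx hy
    rw [Prod.mk_add_mk, add_zero, ← map_add, ← mulVec_add] at h
    exact h
  zero_mem' := by
    show ((0 : M), L.symm (A c *ᵥ 0)) ∈ W1
    rw [mulVec_zero, map_zero]
    exact W1.zero_mem
  smul_mem' := fun a x hx => by
    obtain ⟨a, rfl⟩ := hL.surj a
    show ((0 : M), L.symm (A c *ᵥ (algebraMap O F a • x))) ∈ W1
    have h := W1.smul_mem a hx
    rw [Prod.smul_mk, smul_zero, ← hL.symm_smul, ← mulVec_smul] at h
    exact h

private theorem mem_NS (hc : Crd e c O ρ b C L A) {W1 : Submodule O (M × M)} {m : M} :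
    L m ∈ NS hc.iso A c W1 ↔ ((0 : M), C m) ∈ W1 := by
  show ((0 : M), L.symm (A c *ᵥ L m)) ∈ W1 ↔ _
  rw [hc.ac, L.symm_apply_apply]

theorem exists_UN (X : Two e c κ) (hc : Crd e c O ρ b C L A) {W1 : Submodule O (M × M)}
    (hst : ∀ d, ∀ w ∈ W1, ac2 e c κ ρ (jp d) w ∈ W1) (hb : ∀ v ∈ W1, ∀ w ∈ W1, b v.1 w.2 = 0)
    (hp : ∀ v, (∀ w ∈ W1, pB (be2 b) w v = 0) → v ∈ W1) :
    ∃ Up N : Submodule F (Fin n → F), Or2 (A.comp jp) (fun d => ep e (jp d)) Up N ∧
      ∀ v : M × M, v ∈ W1 ↔ f2 L v ∈ W2 A c Up N := by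
  have hCC : ∀ m, C (C m) = m := fun m => by
    apply L.injective
    rw [← hc.ac, ← hc.ac]
    exact A_cc X _
  -- `A c` on `N`
  have hN' : ∀ m : M, A c *ᵥ L m ∈ NS hc.iso A c W1 ↔ ((0 : M), m) ∈ W1 := fun m => by
    rw [hc.ac, mem_NS hc, hCC]
  have hbC : ∀ m m1 : M, b m (C m1) = hfT (ee (L m) (L m1)) := fun m m1 => by
    rw [hc.fr, bC_apply, hc.ac, hCC]
  have hb2 : ∀ m m1 : M, b m m1 = hfT (ee (L m) (A c *ᵥ L m1)) := fun m m1 => by
    rw [hc.fr, bC_apply]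
  have hAe : ∀ g, A c * A (e g) = A (e (κ g)) * A c := fun g => by
    rw [← map_mul, ← map_mul, X.kap]
    congr 1
    calc c * e g = c * e g * (c * c) := by rw [X.cc, mul_one]
      _ = c * e g * c * c := by group
  have pN : ∀ x, x ∈ NS hc.iso A c W1 ↔ ∀ y ∈ UpS hc.iso W1, ee x y = 0 := by
    intro x
    obtain ⟨m, rfl⟩ := L.surjective x
    rw [mem_NS hc]
    constructor
    · intro hm y hy
      obtain ⟨u, rfl⟩ := L.surjective y
      rw [mem_UpS] at hy
      rw [ee_comm]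
      refine hfT_nondeg fun a => ?_
      obtain ⟨a, rfl⟩ := hc.iso.surj a
      rw [← ee_smul_left, ← hc.iso.smul, ← hbC]
      have h1 := W1.smul_mem a hy
      exact hb _ h1 _ hm
    · intro hm
      refine hp _ fun w hw => ?_
      rw [QS.pB_apply, QS.be2_apply, QS.be2_apply]
      show b w.1 (C m) - b 0 w.2 = 0
      rw [map_zero, AddMonoidHom.zero_apply, sub_zero, hbC, ee_comm,
        hm _ (mem_UpS.2 (left_mem hb hp hw)), map_zero]
  refine ⟨UpS hc.iso W1, NS hc.iso A c W1, ⟨fun g => hc.sp _, pN, ?_, ?_, ?_, ?_, ?_⟩, ?_⟩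
  · -- pU
    intro x
    obtain ⟨u, rfl⟩ := L.surjective x
    constructor
    · intro hu y hy
      rw [ee_comm]
      exact (pN y).1 hy _ hu
    · intro hu
      rw [mem_UpS]
      refine hp _ fun w hw => ?_
      rw [QS.pB_apply, QS.be2_apply, QS.be2_apply]
      show b w.1 0 - b u w.2 = 0
      rw [map_zero, zero_sub, neg_eq_zero, hb2, hu _ ((hN' _).2 (right_mem hb hp hw)), map_zero]
  · -- st0
    intro d hd x hx
    obtain ⟨u, rfl⟩ := L.surjective x
    rw [mem_UpS] at hx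
    rw [MonoidHom.comp_apply]
    rcases X.cases (jp d) with ⟨g, hg⟩ | ⟨g, hg⟩
    · have h1 := hst d _ hx
      rw [← hg, X.ac_e] at h1
      rw [← hg, hc.ae, mem_UpS]
      exact left_mem hb hp h1
    · exfalso
      have h1 : ep e (jp d) = 1 := by
        rw [← hg]
        exact if_neg fun ⟨g', h⟩ => X.out g g' h
      rw [hd] at h1
      exact zero_ne_one h1
  · -- st1
    intro d hd x hx
    obtain ⟨m, rfl⟩ := L.surjective x
    rw [mem_NS hc] at hx
    rw [MonoidHom.comp_apply]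
    rcases X.cases (jp d) with ⟨g, hg⟩ | ⟨g, hg⟩
    · have h1 := hst d _ hx
      rw [← hg, X.ac_e] at h1
      have h2 : C (ρ g m) = ρ (κ g) (C m) := by
        apply L.injective
        rw [← hc.ac, ← hc.ae, mulVec_mulVec, hAe, ← mulVec_mulVec, hc.ac, hc.ae]
      rw [← hg, hc.ae, mem_NS hc, h2]
      exact right_mem hb hp h1
    · exfalso
      have h1 : ep e (jp d) = 1 := by
        rw [← hg]
        exact if_neg fun ⟨g', h⟩ => X.out g g' h
      rw [hd] at h1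
      exact zero_ne_one h1
  · -- sw0
    intro d hd x hx
    obtain ⟨u, rfl⟩ := L.surjective x
    rw [mem_UpS] at hx
    rw [MonoidHom.comp_apply]
    rcases X.cases (jp d) with ⟨g, hg⟩ | ⟨g, hg⟩
    · exfalso
      have h1 : ep e (jp d) = 0 := by
        rw [← hg]
        exact if_pos ⟨g, rfl⟩
      rw [hd] at h1
      exact one_ne_zero h1
    · have h1 := hst d _ hx
      rw [← hg, X.ac_ec] at h1
      have h2 : C (ρ g (C u)) = ρ (κ g) u := by
        apply L.injective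
        rw [← hc.ac, ← hc.ae, mulVec_mulVec, hAe, ← mulVec_mulVec, hc.ac, hCC, hc.ae]
      rw [← hg, map_mul, ← mulVec_mulVec, hc.ac, hc.ae, mem_NS hc, h2]
      exact right_mem hb hp h1
  · -- sw1
    intro d hd x hx
    obtain ⟨m, rfl⟩ := L.surjective x
    rw [mem_NS hc] at hx
    rw [MonoidHom.comp_apply]
    rcases X.cases (jp d) with ⟨g, hg⟩ | ⟨g, hg⟩
    · exfalso
      have h1 : ep e (jp d) = 0 := by
        rw [← hg]
        exact if_pos ⟨g, rfl⟩
      rw [hd] at h1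
      exact one_ne_zero h1
    · have h1 := hst d _ hx
      rw [← hg, X.ac_ec] at h1
      rw [← hg, map_mul, ← mulVec_mulVec, hc.ac, hc.ae, mem_UpS]
      exact left_mem hb hp h1
  · intro v
    rw [mem_W2, f2_apply]
    show v ∈ W1 ↔ L v.1 ∈ UpS hc.iso W1 ∧ A c *ᵥ L v.2 ∈ NS hc.iso A c W1
    rw [mem_UpS, hN']
    constructor
    · intro hv
      exact ⟨left_mem hb hp hv, right_mem hb hp hv⟩
    · rintro ⟨h1, h2⟩
      have h3 := W1.add_mem h1 h2
      rw [Prod.mk_add_mk, add_zero, zero_add] at h3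
      exact h3

end Pool.Agent.Work.MP_787500_nt.IU
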