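import Mathlib
import Pool.Agent.Work.MP_787500_nt.IU.Defs
/-!
# Module AlgA (size M): one matrix in coordinates (PURE linear algebra in characteristic 2)

`hf : Fl I S pi1 pi2 w₀`, `h : Ac I S pi1 pi2 g sw g1 g2`; `sw = 0` or `sw = 1` (`zmod2_cases`). `q1 x = qq x + ee w₀ x ^ 2`: `q1 (x + y) = q1 x + q1 y + ee x y`, `q1 x = qq (pi1 x) + qq (pi2 x)` on `S`.
* `surjI`: `g : I → I` is injective (`sp_inj`), so surjective. `stS`: for `y ∈ I`, `y = g y1`: `ee (g x) y = ee x y1 = 0`. `surjS`: as `surjI`.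
* `sp1`, `sp2`: for `u v` choose `x y ∈ S` with `pi1 x = u, pi2 x = 0`, `pi1 y = v, pi2 y = 0` (`hf.surj`; the other components if `g` interchanges): `hf.form` for `x, y` and for `g x, g y`.
* `q1_g`: `q1 (g x) + q1 x = ee (k1 w₀ g) (g x) ^ 2` for all `x` (`qq_mulVec`, `ee w₀ x = ee (g w₀) (g x)`).
* `k1_coord`: for `x ∈ S`: `q1 (g x) + q1 x = qq (g1 u) + qq u + qq (g2 v) + qq v = (ee (kk g1) (pi1 (g x)) + ee (kk g2) (pi2 (g x))) ^ 2` (`qq_mulVec` for `g1`, `g2`), so by `surjS`: `ee (k1 w₀ g) y = ee (kk g1) (pi1 y) + ee (kk g2) (pi2 y)`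
  for all `y ∈ S`; for `y ∈ I` this is 0, so `k1 w₀ g ∈ S` (`hf.pS`); then `hf.form` and `hf.surj`, `ee_nondeg` give the components.
* `theta`: `sw = 0`: `ee (g1 u) (g1 u1) = ee u u1`; `sw = 1`: `ee (g1 v) (g1 v1) = ee v v1 = ee x y + ee u u1`.
* `qq_pi1`: `qq_mulVec` for `g1`. `diag_z`: `q1_g` for `z`, `g z = z + x`, `q1 (z + x) = q1 z + q1 x + ee z x`.
-/

set_option autoImplicit false
set_option linter.unusedSectionVars false

namespace Pool.Agent.Work.MP_787500_nt.IU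

open Matrix
open Pool.Agent.Work.MP_787500_nt.GP (A0 hf hf_add hf_zero hf_two hf_neg smul_hf IsAct d0 d1 d2 tw cup11
  cup02 EvPow)
open Pool.Agent.Work.MP_787500_nt.KR (FSys Sm1 Sm2 IsChar Smooth Z1 Z2 B2 LocH Pair LDual LocD zM
  cup11_Z2)
open Pool.Agent.Work.MP_787500_nt.KT hiding Str Rel Sel KH Ai IsP cc ff TT
open Pool.Agent.Work.MP_787500_nt.KS (hfT hfT_apply hfT_sq hfT_two hfT_neg smul_hfT hfT_nondeg hfT_smul
  inv_zero smul_F dF1 rt rt_sq sm_eps sm1_one sm1_two zmod2_cases hfT_eps_sq exists_mul hfT_eq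
  trace_trick sym_rank ann mem_ann finrank_ann)
open Pool.Agent.Work.MP_787500_nt.OR (indW mem_indW fixV mem_fixV fixW mem_fixW k1)


variable {F : Type*} [Field F] [CharP F 2] [PerfectRing F 2] {n r : ℕ} [Sy F n] [Sy F r]
  {I S : Submodule F (Fin n → F)} {pi1 pi2 : (Fin n → F) →ₗ[F] (Fin r → F)} {w₀ : Fin n → F}
  {g : Matrix (Fin n) (Fin n) F} {sw : ZMod 2} {g1 g2 : Matrix (Fin r) (Fin r) F}

theorem surjI (h : Ac I S pi1 pi2 g sw g1 g2) {y : Fin n → F} (hy : y ∈ I) :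
    ∃ x ∈ I, g *ᵥ x = y := by
  have hinj : Function.Injective ((Matrix.mulVecLin g).restrict (p := I) (q := I) h.st) := by
    rw [injective_iff_map_eq_zero]
    intro x hx
    have h1 : g *ᵥ x.1 = 0 := congrArg Subtype.val hx
    exact Subtype.ext (sp_inj h.sp h1)
  obtain ⟨x, hx⟩ := (LinearMap.injective_iff_surjective.1 hinj) ⟨y, hy⟩
  exact ⟨x.1, x.2, congrArg Subtype.val hx⟩

theorem stS (hf : Fl I S pi1 pi2 w₀) (h : Ac I S pi1 pi2 g sw g1 g2) {x : Fin n → F} (hx : x ∈ S) :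
    g *ᵥ x ∈ S := by
  rw [hf.pS]
  intro y hy
  obtain ⟨y1, hy1, rfl⟩ := surjI h hy
  rw [ee_mulVec h.sp]
  exact (hf.pS x).1 hx y1 hy1

theorem surjS (hf : Fl I S pi1 pi2 w₀) (h : Ac I S pi1 pi2 g sw g1 g2) {y : Fin n → F}
    (hy : y ∈ S) : ∃ x ∈ S, g *ᵥ x = y := by
  have hinj : Function.Injective ((Matrix.mulVecLin g).restrict (p := S) (q := S)
      (fun x hx => stS hf h hx)) := by
    rw [injective_iff_map_eq_zero]
    intro x hx
    have h1 : g *ᵥ x.1 = 0 := congrArg Subtype.val hx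
    exact Subtype.ext (sp_inj h.sp h1)
  obtain ⟨x, hx⟩ := (LinearMap.injective_iff_surjective.1 hinj) ⟨y, hy⟩
  exact ⟨x.1, x.2, congrArg Subtype.val hx⟩

theorem sp1 (hf : Fl I S pi1 pi2 w₀) (h : Ac I S pi1 pi2 g sw g1 g2) : IsSp g1 := by
  intro u v
  rcases zmod2_cases sw with hs | hs
  · obtain ⟨x, hx, hx1, hx2⟩ := hf.surj u 0
    obtain ⟨y, hy, hy1, hy2⟩ := hf.surj v 0
    have h1 := hf.form _ (stS hf h hx) _ (stS hf h hy)
    rw [(h.a0 hs x hx).1, (h.a0 hs x hx).2, (h.a0 hs y hy).1, (h.a0 hs y hy).2, hx1, hx2, hy1, hy2,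
      mulVec_zero, ee_zero_left, add_zero, ee_mulVec h.sp] at h1
    rw [← h1, hf.form x hx y hy, hx1, hx2, hy1, hy2, ee_zero_left, add_zero]
  · obtain ⟨x, hx, hx1, hx2⟩ := hf.surj 0 u
    obtain ⟨y, hy, hy1, hy2⟩ := hf.surj 0 v
    have h1 := hf.form _ (stS hf h hx) _ (stS hf h hy)
    rw [(h.a1 hs x hx).1, (h.a1 hs x hx).2, (h.a1 hs y hy).1, (h.a1 hs y hy).2, hx1, hx2, hy1, hy2,
      mulVec_zero, ee_zero_left, add_zero, ee_mulVec h.sp] at h1
    rw [← h1, hf.form x hx y hy, hx1, hx2, hy1, hy2, ee_zero_left, zero_add]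

theorem sp2 (hf : Fl I S pi1 pi2 w₀) (h : Ac I S pi1 pi2 g sw g1 g2) : IsSp g2 := by
  intro u v
  rcases zmod2_cases sw with hs | hs
  · obtain ⟨x, hx, hx1, hx2⟩ := hf.surj 0 u
    obtain ⟨y, hy, hy1, hy2⟩ := hf.surj 0 v
    have h1 := hf.form _ (stS hf h hx) _ (stS hf h hy)
    rw [(h.a0 hs x hx).1, (h.a0 hs x hx).2, (h.a0 hs y hy).1, (h.a0 hs y hy).2, hx1, hx2, hy1, hy2,
      mulVec_zero, ee_zero_left, zero_add, ee_mulVec h.sp] at h1
    rw [← h1, hf.form x hx y hy, hx1, hx2, hy1, hy2, ee_zero_left, zero_add]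
  · obtain ⟨x, hx, hx1, hx2⟩ := hf.surj u 0
    obtain ⟨y, hy, hy1, hy2⟩ := hf.surj v 0
    have h1 := hf.form _ (stS hf h hx) _ (stS hf h hy)
    rw [(h.a1 hs x hx).1, (h.a1 hs x hx).2, (h.a1 hs y hy).1, (h.a1 hs y hy).2, hx1, hx2, hy1, hy2,
      mulVec_zero, ee_zero_left, zero_add, ee_mulVec h.sp] at h1
    rw [← h1, hf.form x hx y hy, hx1, hx2, hy1, hy2, ee_zero_left, add_zero]

theorem q1_g (hg : IsSp g) (x : Fin n → F) :
    (qq (g *ᵥ x) + ee w₀ (g *ᵥ x) ^ 2) + (qq x + ee w₀ x ^ 2) = ee (k1 w₀ g) (g *ᵥ x) ^ 2 := by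
  have h1 := qq_mulVec hg x
  have h2 : ee (k1 w₀ g) (g *ᵥ x) = ee (kk g) (g *ᵥ x) + (ee w₀ x + ee w₀ (g *ᵥ x)) := by
    unfold k1
    rw [ee_add_left, ee_add_left, ee_mulVec hg]
  rw [h2, sq_add, sq_add, ← h1]
  ring

theorem k1_coord (hf : Fl I S pi1 pi2 w₀) (h : Ac I S pi1 pi2 g sw g1 g2) :
    k1 w₀ g ∈ S ∧ pi1 (k1 w₀ g) = kk g1 ∧ pi2 (k1 w₀ g) = kk g2 := by
  have key : ∀ y ∈ S, ee (k1 w₀ g) y = ee (kk g1) (pi1 y) + ee (kk g2) (pi2 y) := by
    intro y hy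
    obtain ⟨x, hx, rfl⟩ := surjS hf h hy
    apply KS.sq_inj
    rw [← q1_g h.sp x, hf.quad _ (stS hf h hx), hf.quad x hx, sq_add]
    rcases zmod2_cases sw with hs | hs
    · rw [(h.a0 hs x hx).1, (h.a0 hs x hx).2, ← qq_mulVec (sp1 hf h), ← qq_mulVec (sp2 hf h)]
      ring
    · rw [(h.a1 hs x hx).1, (h.a1 hs x hx).2, ← qq_mulVec (sp1 hf h), ← qq_mulVec (sp2 hf h)]
      ring
  have hS : k1 w₀ g ∈ S := by
    rw [hf.pS]
    intro y hy
    have h1 := (hf.ker y (hf.le hy)).1 hy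
    rw [key y (hf.le hy), h1.1, h1.2, ee_zero_right, ee_zero_right, add_zero]
  refine ⟨hS, ?_, ?_⟩
  · have h1 : pi1 (k1 w₀ g) + kk g1 = 0 := by
      refine ee_nondeg fun u => ?_
      obtain ⟨y, hy, hy1, hy2⟩ := hf.surj u 0
      have h2 := key y hy
      rw [hf.form _ hS y hy, hy1, hy2, ee_zero_right, ee_zero_right, add_zero, add_zero] at h2
      rw [ee_add_left, h2, add_self]
    have h3 := U_cancel h1
    rwa [add_zero] at h3
  · have h1 : pi2 (k1 w₀ g) + kk g2 = 0 := by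
      refine ee_nondeg fun u => ?_
      obtain ⟨y, hy, hy1, hy2⟩ := hf.surj 0 u
      have h2 := key y hy
      rw [hf.form _ hS y hy, hy1, hy2, ee_zero_right, ee_zero_right, zero_add, zero_add] at h2
      rw [ee_add_left, h2, add_self]
    have h3 := U_cancel h1
    rwa [add_zero] at h3

theorem theta (hf : Fl I S pi1 pi2 w₀) (h : Ac I S pi1 pi2 g sw g1 g2) {x y : Fin n → F}
    (hx : x ∈ S) (hy : y ∈ S) :
    ee (pi1 (g *ᵥ x)) (pi1 (g *ᵥ y)) = ee (pi1 x) (pi1 y) + (if sw = 0 then 0 else ee x y) := by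
  rcases zmod2_cases sw with hs | hs
  · rw [if_pos hs, add_zero, (h.a0 hs x hx).1, (h.a0 hs y hy).1, ee_mulVec (sp1 hf h)]
  · rw [if_neg (by rw [hs]; exact one_ne_zero), (h.a1 hs x hx).1, (h.a1 hs y hy).1,
      ee_mulVec (sp1 hf h), hf.form x hx y hy, ← add_assoc, add_self, zero_add]

theorem qq_pi1 (hf : Fl I S pi1 pi2 w₀) (h : Ac I S pi1 pi2 g sw g1 g2) {x : Fin n → F}
    (hx : x ∈ S) : qq (pi1 (g *ᵥ x)) = qq (pi1 x) + (if sw = 0 then 0 else qq x + ee w₀ x ^ 2) +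
      ee (pi1 (k1 w₀ g)) (pi1 (g *ᵥ x)) ^ 2 := by
  rw [(k1_coord hf h).2.1]
  rcases zmod2_cases sw with hs | hs
  · rw [if_pos hs, add_zero, (h.a0 hs x hx).1, ← qq_mulVec (sp1 hf h)]
    linear_combination -add_self (qq (pi1 x))
  · rw [if_neg (by rw [hs]; exact one_ne_zero), (h.a1 hs x hx).1, ← qq_mulVec (sp1 hf h),
      hf.quad x hx]
    linear_combination -add_self (qq (pi1 x)) - add_self (qq (pi2 x))

theorem diag_z (hg : IsSp g) (z : Fin n → F) :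
    (qq (g *ᵥ z + z) + ee w₀ (g *ᵥ z + z) ^ 2) + ee z (g *ᵥ z + z) =
      ee (k1 w₀ g) (z + (g *ᵥ z + z)) ^ 2 := by
  have h0 : z + (g *ᵥ z + z) = g *ᵥ z := by
    rw [add_comm (g *ᵥ z) z, ← add_assoc, U_add_self, zero_add]
  rw [h0, ← q1_g hg z, qq_add, ee_add_right, ee_add_right, sq_add, ee_self, ee_comm (g *ᵥ z) z]
  linear_combination add_self (ee z (g *ᵥ z))

section mul

variable {P : Type*} [Group P] {B : P →* Matrix (Fin n) (Fin n) F} {ε : P → ZMod 2}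
  {G1 G2 : P → Matrix (Fin r) (Fin r) F}

/-- the components of a product: apply both sides to `pi1 x`, `pi2 x`, `x ∈ S` (`surj`, `act`) -/
theorem co_mul (hc : Co B ε I S pi1 pi2 w₀ G1 G2) (headd : ∀ g h, ε (g * h) = ε g + ε h)
    (s t : P) :
    (ε s = 0 → G1 (s * t) = G1 s * G1 t ∧ G2 (s * t) = G2 s * G2 t) ∧
    (ε s = 1 → G1 (s * t) = G1 s * G2 t ∧ G2 (s * t) = G2 s * G1 t) := by
  have hS : ∀ (d : P) (x : Fin n → F), x ∈ S → B d *ᵥ x ∈ S :=
    fun d x hx => stS hc.toFl (hc.ac d) hx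
  have hB : ∀ x : Fin n → F, B (s * t) *ᵥ x = B s *ᵥ (B t *ᵥ x) := fun x => by
    rw [map_mul, mulVec_mulVec]
  have hext : ∀ M N : Matrix (Fin r) (Fin r) F, (∀ u, M *ᵥ u = N *ᵥ u) → M = N := fun M N hMN =>
    Matrix.mulVec_injective (funext hMN)
  constructor
  · intro hs
    rcases zmod2_cases (ε t) with ht | ht
    · have hst : ε (s * t) = 0 := by rw [headd, hs, ht, add_zero]
      constructor
      · refine hext _ _ fun u => ?_
        obtain ⟨x, hx, hx1, hx2⟩ := hc.surj u 0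
        have h1 := ((hc.ac (s * t)).a0 hst x hx).1
        rw [hB, ((hc.ac s).a0 hs _ (hS t x hx)).1, ((hc.ac t).a0 ht x hx).1, hx1, mulVec_mulVec] at h1
        exact h1.symm
      · refine hext _ _ fun u => ?_
        obtain ⟨x, hx, hx1, hx2⟩ := hc.surj 0 u
        have h1 := ((hc.ac (s * t)).a0 hst x hx).2
        rw [hB, ((hc.ac s).a0 hs _ (hS t x hx)).2, ((hc.ac t).a0 ht x hx).2, hx2, mulVec_mulVec] at h1
        exact h1.symm
    · have hst : ε (s * t) = 1 := by rw [headd, hs, ht, zero_add]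
      constructor
      · refine hext _ _ fun u => ?_
        obtain ⟨x, hx, hx1, hx2⟩ := hc.surj 0 u
        have h1 := ((hc.ac (s * t)).a1 hst x hx).1
        rw [hB, ((hc.ac s).a0 hs _ (hS t x hx)).1, ((hc.ac t).a1 ht x hx).1, hx2, mulVec_mulVec] at h1
        exact h1.symm
      · refine hext _ _ fun u => ?_
        obtain ⟨x, hx, hx1, hx2⟩ := hc.surj u 0
        have h1 := ((hc.ac (s * t)).a1 hst x hx).2
        rw [hB, ((hc.ac s).a0 hs _ (hS t x hx)).2, ((hc.ac t).a1 ht x hx).2, hx1, mulVec_mulVec] at h1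
        exact h1.symm
  · intro hs
    rcases zmod2_cases (ε t) with ht | ht
    · have hst : ε (s * t) = 1 := by rw [headd, hs, ht, add_zero]
      constructor
      · refine hext _ _ fun u => ?_
        obtain ⟨x, hx, hx1, hx2⟩ := hc.surj 0 u
        have h1 := ((hc.ac (s * t)).a1 hst x hx).1
        rw [hB, ((hc.ac s).a1 hs _ (hS t x hx)).1, ((hc.ac t).a0 ht x hx).2, hx2, mulVec_mulVec] at h1
        exact h1.symm
      · refine hext _ _ fun u => ?_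
        obtain ⟨x, hx, hx1, hx2⟩ := hc.surj u 0
        have h1 := ((hc.ac (s * t)).a1 hst x hx).2
        rw [hB, ((hc.ac s).a1 hs _ (hS t x hx)).2, ((hc.ac t).a0 ht x hx).1, hx1, mulVec_mulVec] at h1
        exact h1.symm
    · have hst : ε (s * t) = 0 := by rw [headd, hs, ht]; decide
      constructor
      · refine hext _ _ fun u => ?_
        obtain ⟨x, hx, hx1, hx2⟩ := hc.surj u 0
        have h1 := ((hc.ac (s * t)).a0 hst x hx).1
        rw [hB, ((hc.ac s).a1 hs _ (hS t x hx)).1, ((hc.ac t).a1 ht x hx).2, hx1, mulVec_mulVec] at h1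
        exact h1.symm
      · refine hext _ _ fun u => ?_
        obtain ⟨x, hx, hx1, hx2⟩ := hc.surj 0 u
        have h1 := ((hc.ac (s * t)).a0 hst x hx).2
        rw [hB, ((hc.ac s).a1 hs _ (hS t x hx)).2, ((hc.ac t).a1 ht x hx).1, hx2, mulVec_mulVec] at h1
        exact h1.symm

end mul

end Pool.Agent.Work.MP_787500_nt.IU
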