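import Mathlib
import Pool.Agent.Work.MP_787500_nt.IU.Defs
import Pool.Agent.Work.MP_787500_nt.KR.T03
/-!
# Module Inv (size M): the invariant of 2-cocycles with values in `F`

* `coF_Z2`: `d2 (tw χ)` of `hfT (α * c s t)` is `hfT` of `α` times the cocycle identity (`smul_hfT (hχ.odd s)`: `χ s` acts trivially on the values of `hfT`).
* `exists_inv`: for fixed `c` the map `α ↦ iv (hfT (α * c s t))` is additive (`Lc.add`, `coF_Z2`), so it is `hfT (α * b)` (`KS.exists_mul`); `iF c = b` is additive and linear in `c` by `KS.hfT_eq`.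
* `inv_cob`: `hfT (α * c s t)` is the coboundary of `hfT (α * b)` (`smul_hfT`, `hfT_neg`): `Lc.cob`, `hfT_nondeg`.
* `inv_sq`: `α = γ ^ 2` (`rt_sq`): `hfT (γ ^ 2 * c ^ 2) = hfT (γ * c)` (`hfT_sq`), so `hfT (γ ^ 2 * iF c1) = hfT (γ * iF c) = hfT (γ ^ 2 * iF c ^ 2)`.
* `cob_mem`: direct (characteristic 2). `inv_congr`: `c = c1 + coboundary`, `map_add`, `inv_cob`.
-/

set_option autoImplicit false
set_option linter.unusedSectionVars false

namespace Pool.Agent.Work.MP_787500_nt.IU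

open Matrix
open Pool.Agent.Work.MP_787500_nt.GP (A0 hf hf_add hf_zero hf_two hf_neg smul_hf IsAct d0 d1 d2 tw cup11
  cup02 EvPow)
open Pool.Agent.Work.MP_787500_nt.KR (FSys Sm1 Sm2 IsChar Smooth Z1 Z2 B2 LocH Pair LDual LocD zM
  cup11_Z2)
open Pool.Agent.Work.MP_787500_nt.KT hiding Str Rel Sel KH Ai IsP cc ff TT
open Pool.Agent.Work.MP_787500_nt.KS (hfT hfT_apply hfT_sq hfT_two hfT_neg smul_hfT hfT_nondeg hfT_smul
  inv_zero smul_F dF1 rt rt_sq sm_eps sm1_one sm1_two zmod2_cases hfT_eps_sq exists_mul hfT_eq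
  trace_trick sym_rank ann mem_ann finrank_ann)
open Pool.Agent.Work.MP_787500_nt.OR (indW mem_indW fixV mem_fixV fixW mem_fixW k1)


variable {F : Type*} [Field F] [Finite F] [CharP F 2] [Algebra (ZMod 2) F] {P : Type*} [Group P]
  {T : FSys P} {χ : P → ℤ_[2]} {iv : (P → P → A0) → A0}

theorem coF_Z2 (hχ : IsChar T χ) (α : F) (c : CoF F T) :
    Z2 T (tw χ) (fun s t => hfT (α * c.1 s t)) := by
  refine ⟨?_, fun x y z => ?_⟩
  · obtain ⟨W, hW, h⟩ := c.2.1
    refine ⟨W, hW, fun g h' w hw w' hw' => ?_⟩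
    beta_reduce
    rw [h g h' w hw w' hw']
  · have h := c.2.2 x y z
    have e : d2 (tw χ) (fun s t => hfT (α * c.1 s t)) x y z =
        hfT (α * (c.1 y z - c.1 (x * y) z + c.1 x (y * z) - c.1 x y)) := by
      show χ x • hfT (α * c.1 y z) - hfT (α * c.1 (x * y) z) + hfT (α * c.1 x (y * z)) -
        hfT (α * c.1 x y) = _
      rw [smul_hfT (hχ.odd x), mul_sub, mul_add, mul_sub, map_sub, map_add, map_sub]
    rw [e, h, mul_zero, map_zero]

theorem exists_inv (Lc : LocH T χ iv) : ∃ iF : CoF F T →ₗ[F] F, IsInv T iv iF := by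
  have hadd : ∀ (c c' : CoF F T) (α α' : F),
      iv (fun s t => hfT (α * c.1 s t) + hfT (α' * c'.1 s t)) =
        iv (fun s t => hfT (α * c.1 s t)) + iv (fun s t => hfT (α' * c'.1 s t)) :=
    fun c c' α α' => Lc.add _ _ (coF_Z2 Lc.char α c) (coF_Z2 Lc.char α' c')
  have h1 : ∀ c : CoF F T, ∃ b : F, ∀ α, hfT (α * b) = iv (fun s t => hfT (α * c.1 s t)) := by
    intro c
    exact exists_mul (AddMonoidHom.mk' (fun α : F => iv (fun s t => hfT (α * c.1 s t)))
      (fun α α' => by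
        rw [← hadd]
        congr 1
        funext s t
        rw [add_mul, map_add]))
  choose b hb using h1
  refine ⟨{ toFun := b, map_add' := fun c c' => ?_, map_smul' := fun k c => ?_ }, fun α c => ?_⟩
  · refine hfT_eq fun α => ?_
    rw [mul_add, map_add, hb, hb, hb, ← hadd]
    congr 1
    funext s t
    rw [← map_add, ← mul_add]
    rfl
  · refine hfT_eq fun α => ?_
    rw [hb, RingHom.id_apply, smul_eq_mul, ← mul_assoc, hb]
    congr 1
    funext s t
    rw [mul_assoc]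
    rfl
  · exact (hb c α).symm

theorem cob_mem {b : P → F} (hb : Sm1 T b) :
    (fun s t => b s + b t + b (s * t) : P → P → F) ∈ CoF F T := by
  refine ⟨?_, fun s t u => ?_⟩
  · obtain ⟨W, hW, h⟩ := hb
    refine ⟨W, hW, fun g k w hw w' hw' => ?_⟩
    beta_reduce
    have h1 : k⁻¹ * w * k * w' ∈ W := by
      refine W.mul_mem ?_ hw'
      have := (T.normal hW).conj_mem w hw k⁻¹
      rwa [inv_inv] at this
    have e : g * w * (k * w') = g * k * (k⁻¹ * w * k * w') := by group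
    rw [h g w hw, h k w' hw', e, h (g * k) _ h1]
  · have h2 : (2 : F) = 0 := CharTwo.two_eq_zero
    beta_reduce
    rw [mul_assoc s t u]
    linear_combination (b (t * u) - b (s * t)) * h2

theorem inv_cob (Lc : LocH T χ iv) {iF : CoF F T →ₗ[F] F} (hi : IsInv T iv iF) {c : CoF F T}
    {b : P → F} (hb : Sm1 T b) (h : ∀ s t, c.1 s t = b s + b t + b (s * t)) : iF c = 0 := by
  refine hfT_nondeg fun α => ?_
  rw [← hi α c]
  have h1 := Lc.cob (fun s => hfT (α * b s)) (sm1_one hb (fun x => hfT (α * x)))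
  rw [← h1]
  congr 1
  funext s t
  show hfT (α * c.1 s t) = hfT (α * b s) + χ s • hfT (α * b t) - hfT (α * b (s * t))
  rw [smul_hfT (Lc.char.odd s), h s t, mul_add, mul_add, map_add, map_add, sub_eq_add_neg, hfT_neg]

theorem inv_congr (Lc : LocH T χ iv) {iF : CoF F T →ₗ[F] F} (hi : IsInv T iv iF) {c c1 : CoF F T}
    {b : P → F} (hb : Sm1 T b) (h : ∀ s t, c.1 s t = c1.1 s t + (b s + b t + b (s * t))) :
    iF c = iF c1 := by
  have e : c = c1 + ⟨_, cob_mem hb⟩ := by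
    apply Subtype.ext
    funext s t
    exact h s t
  rw [e, map_add, inv_cob Lc hi hb (c := ⟨_, cob_mem hb⟩) (fun _ _ => rfl), add_zero]

theorem inv_sq {iF : CoF F T →ₗ[F] F} (hi : IsInv T iv iF) {c c1 : CoF F T}
    (h : ∀ s t, c1.1 s t = c.1 s t ^ 2) : iF c1 = iF c ^ 2 := by
  refine hfT_eq fun α => ?_
  obtain ⟨γ, rfl⟩ : ∃ γ : F, γ ^ 2 = α := ⟨rt α, rt_sq α⟩
  rw [← hi, ← mul_pow, hfT_sq, ← hi]
  congr 1
  funext s t
  rw [h, ← mul_pow, hfT_sq]

end Pool.Agent.Work.MP_787500_nt.IU
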