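import Mathlib
import Pool.Agent.Work.MP_787500_nt.IU.AlgA
import Pool.Agent.Work.MP_787500_nt.IU.Inv
/-!
# Module FormA (size M-L): the cocycles `cS`

Write `Θ x y = ee (pi1 x) (pi1 y)`. For `x y ∈ S`: `Θ (B s x) (B s y) = Θ x y + ε s • ee x y` (`theta_B`, from `theta`, `zmod2_cases`).
* `theta_cob`: `b (s t) = Θ (y1 s + B s y1 t, y2 s + B s y2 t)`, expand, `theta_B` for the last term.
* `cS_mem`: with `x = dz`, `x (s t) = x s + B s x t`: `d (Θ (x s) (B s y t)) = ε s • ee (x t) (B t y u)` (`theta_B` for `x t`, `B t y u`) and `d (ε s • ee z (y t)) = ε s • (ee z (y u) + ee z (B t y u))`; the sum vanishes because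
  `ee (x t) (B t y u) = ee (B t z) (B t y u) + ee z (B t y u)`. Smooth: `smooth_A hsm`, `hes`, `hy.1`.
* `cS_symm`: `theta_cob` for `dz`, `dm` and `ee z (dm t) + ee m (dz t) = ee (dz t) (dm t)` (`ee (B t z) (B t m) = ee z m`).
* `cS_diag`: `x = dz`, `k = k1 w₀ (B ·)`, `b s = qq (pi1 (x s))`: `b (s t) = b s + qq (pi1 (B s x t)) + Θ (x s) (B s x t)` (`qq_add`), `qq_pi1`, `diag_z` for `B t`, and `theta_cob` for `x`, `k`:
  `cS z x = db + (Θ (k s) (B s x t) + ε s • ee (k t) (z + x t)) ^ 2`, `cS z k = Θ (x s) (B s k t) + ε s • ee z (k t)` (the squares: `ε ^ 2 = ε`, `zmod2_cases`).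
* `cS_add_y`: additive in `y`.
-/

set_option autoImplicit false
set_option linter.unusedSectionVars false

namespace Pool.Agent.Work.MP_787500_nt.IU

open Matrix
open Pool.Agent.Work.MP_787500_nt.GP (A0 hf hf_add hf_zero hf_two hf_neg smul_hf IsAct d0 d1 d2 tw cup11
  cup02 EvPow)
open Pool.Agent.Work.MP_787500_nt.KR (FSys Sm1 Sm2 IsChar Smooth Z1 Z2 B2 LocH Pair LDual LocD zM
  cup11_Z2)
open Pool.Agent.Work.MP_787500_nt.KT hiding Str Rel Sel KH Ai IsP cc ff TT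
open Pool.Agent.Work.MP_787500_nt.KS (hfT hfT_apply hfT_sq hfT_two hfT_neg smul_hfT hfT_nondeg hfT_smul
  inv_zero smul_F dF1 rt rt_sq sm_eps sm1_one sm1_two zmod2_cases hfT_eps_sq exists_mul hfT_eq
  trace_trick sym_rank ann mem_ann finrank_ann)
open Pool.Agent.Work.MP_787500_nt.OR (indW mem_indW fixV mem_fixV fixW mem_fixW k1)


variable {F : Type*} [Field F] [Finite F] [CharP F 2] [Algebra (ZMod 2) F] {n r : ℕ} [Sy F n]
  [Sy F r] {P : Type*} [Group P] {T : FSys P} {B : P →* Matrix (Fin n) (Fin n) F} {ε : P → ZMod 2}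
  {I S : Submodule F (Fin n → F)} {pi1 pi2 : (Fin n → F) →ₗ[F] (Fin r → F)} {w₀ : Fin n → F}
  {g1 g2 : P → Matrix (Fin r) (Fin r) F}

theorem theta_B (hc : Co B ε I S pi1 pi2 w₀ g1 g2) (s : P) {x y : Fin n → F} (hx : x ∈ S)
    (hy : y ∈ S) :
    ee (pi1 (B s *ᵥ x)) (pi1 (B s *ᵥ y)) = ee (pi1 x) (pi1 y) + ε s • ee x y := by
  have h := theta hc.toFl (hc.ac s) hx hy
  rcases zmod2_cases (ε s) with h0 | h0
  · rw [h0, if_pos rfl] at h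
    rw [h, h0, zero_smul]
  · rw [h0, if_neg one_ne_zero] at h
    rw [h, h0, one_smul]

theorem coSp (hc : Co B ε I S pi1 pi2 w₀ g1 g2) (s : P) : IsSp (B s) := (hc.ac s).sp

theorem cob_Z1 (hsm : Smooth T (KT.act B)) (m : Fin n → F) :
    Z1 T (KT.act B) (fun g => B g *ᵥ m + m) := by
  obtain ⟨W, hW, h1⟩ := smooth_A hsm
  refine ⟨⟨W, hW, fun g w hw => ?_⟩, fun a b => ?_⟩
  · show B (g * w) *ᵥ m + m = B g *ᵥ m + m
    rw [map_mul, h1 w hw, mul_one]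
  · show B (a * b) *ᵥ m + m = (B a *ᵥ m + m) + B a *ᵥ (B b *ᵥ m + m)
    rw [map_mul, mulVec_add, ← mulVec_mulVec]
    have h2 : B a *ᵥ m + m + (B a *ᵥ B b *ᵥ m + B a *ᵥ m) =
        B a *ᵥ B b *ᵥ m + m + (B a *ᵥ m + B a *ᵥ m) := by abel
    rw [h2, U_add_self, add_zero]

theorem k1_Z1 (hsp : ∀ g, IsSp (B g)) (hsm : Smooth T (KT.act B)) :
    Z1 T (KT.act B) (fun g => k1 w₀ (B g)) := by
  obtain ⟨W, hW, h1⟩ := smooth_A hsm
  refine ⟨⟨W, hW, fun g w hw => ?_⟩, fun a b => ?_⟩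
  · show k1 w₀ (B (g * w)) = k1 w₀ (B g)
    rw [map_mul, h1 w hw, mul_one]
  · show kk (B (a * b)) + (B (a * b) *ᵥ w₀ + w₀) =
      (kk (B a) + (B a *ᵥ w₀ + w₀)) + B a *ᵥ (kk (B b) + (B b *ᵥ w₀ + w₀))
    have h2 := (cob_Z1 (T := T) hsm w₀).2 a b
    have h3 : B (a * b) *ᵥ w₀ + w₀ = (B a *ᵥ w₀ + w₀) + B a *ᵥ (B b *ᵥ w₀ + w₀) := h2
    rw [h3, map_mul, kk_mul (hsp a) (hsp b), mulVec_add (B a) (kk (B b))]
    abel

theorem theta_cob (hc : Co B ε I S pi1 pi2 w₀ g1 g2) {y1 y2 : P → Fin n → F}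
    (h1 : Z1 T (KT.act B) y1) (h2 : Z1 T (KT.act B) y2) (hS1 : ∀ g, y1 g ∈ S)
    (hS2 : ∀ g, y2 g ∈ S) (s t : P) :
    ee (pi1 (y1 s)) (pi1 (B s *ᵥ y2 t)) + ee (pi1 (y2 s)) (pi1 (B s *ᵥ y1 t)) +
      ε s • ee (y1 t) (y2 t) = ee (pi1 (y1 s)) (pi1 (y2 s)) + ee (pi1 (y1 t)) (pi1 (y2 t)) +
        ee (pi1 (y1 (s * t))) (pi1 (y2 (s * t))) := by
  have e1 : y1 (s * t) = y1 s + B s *ᵥ y1 t := h1.2 s t
  have e2 : y2 (s * t) = y2 s + B s *ᵥ y2 t := h2.2 s t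
  have h3 := theta_B hc s (hS1 t) (hS2 t)
  rw [e1, e2, map_add, map_add, ee_add_left, ee_add_right, ee_add_right, h3,
    ee_comm (pi1 (B s *ᵥ y1 t)) (pi1 (y2 s))]
  linear_combination (norm := (ring_nf; reduce_mod_char!))

theorem cS_mem (hc : Co B ε I S pi1 pi2 w₀ g1 g2) (headd : ∀ g h, ε (g * h) = ε g + ε h)
    (hes : Sm1 T ε) (hsm : Smooth T (KT.act B)) {z : Fin n → F} (hz : ∀ g, B g *ᵥ z + z ∈ S)
    {y : P → Fin n → F} (hy : Z1 T (KT.act B) y) (hyS : ∀ g, y g ∈ S) :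
    cS B ε pi1 z y ∈ CoF F T := by
  rw [mem_CoF]
  constructor
  · obtain ⟨W, hW, h1⟩ := smooth_A hsm
    obtain ⟨W1, hW1, h2⟩ := hes
    obtain ⟨W2, hW2, h3⟩ := hy.1
    refine ⟨W ⊓ (W1 ⊓ W2), T.inf hW (T.inf hW1 hW2), fun g h w hw w' hw' => ?_⟩
    unfold cS
    rw [map_mul, h1 w hw.1, mul_one, h3 h w' hw'.2.2, h2 g w hw.2.1]
  · intro s t u
    have e1 : y (t * u) = y t + B t *ᵥ y u := hy.2 t u
    have e2 : B (s * t) *ᵥ z + z = (B s *ᵥ z + z) + B s *ᵥ (B t *ᵥ z + z) :=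
      (cob_Z1 (T := T) hsm z).2 s t
    have h1 : B t *ᵥ y u ∈ S := stS hc.toFl (hc.ac t) (hyS u)
    have h2 := theta_B hc s (hz t) h1
    have h3 : ee (B t *ᵥ z + z) (B t *ᵥ y u) = ee z (y u) + ee z (B t *ᵥ y u) := by
      rw [ee_add_left, ee_mulVec (coSp hc t)]
    have h4 : B (s * t) *ᵥ y u = B s *ᵥ (B t *ᵥ y u) := by
      rw [map_mul, mulVec_mulVec]
    rw [h3] at h2
    unfold cS
    rw [e1, e2, h4, headd, mulVec_add (B s) (y t), map_add pi1 (B s *ᵥ z + z), map_add pi1 (B s *ᵥ y t),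
      ee_add_left, ee_add_right, ee_add_right, h2]
    simp only [smul_F, map_add]
    linear_combination (norm := (ring_nf; reduce_mod_char!))

theorem cS_symm (hc : Co B ε I S pi1 pi2 w₀ g1 g2) (hsm : Smooth T (KT.act B))
    {z m : Fin n → F} (hz : ∀ g, B g *ᵥ z + z ∈ S) (hm : ∀ g, B g *ᵥ m + m ∈ S) (s t : P) :
    cS B ε pi1 z (fun g => B g *ᵥ m + m) s t = cS B ε pi1 m (fun g => B g *ᵥ z + z) s t +
      (ee (pi1 (B s *ᵥ z + z)) (pi1 (B s *ᵥ m + m)) + ee (pi1 (B t *ᵥ z + z)) (pi1 (B t *ᵥ m + m)) +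
        ee (pi1 (B (s * t) *ᵥ z + z)) (pi1 (B (s * t) *ᵥ m + m))) := by
  have h1 := theta_cob hc (cob_Z1 (T := T) hsm z) (cob_Z1 (T := T) hsm m) hz hm s t
  beta_reduce at h1
  have h2 := loc_symm (coSp hc t) z m
  unfold cS
  beta_reduce
  simp only [smul_F] at h1 ⊢
  linear_combination (norm := (ring_nf; reduce_mod_char!)) h1 + algebraMap (ZMod 2) F (ε s) * h2

theorem cS_diag (hc : Co B ε I S pi1 pi2 w₀ g1 g2) (hsm : Smooth T (KT.act B))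
    {z : Fin n → F} (hz : ∀ g, B g *ᵥ z + z ∈ S) (s t : P) :
    cS B ε pi1 z (fun g => B g *ᵥ z + z) s t =
      (cS B ε pi1 z (fun g => k1 w₀ (B g)) s t +
        (ee (pi1 (B s *ᵥ z + z)) (pi1 (k1 w₀ (B s))) + ee (pi1 (B t *ᵥ z + z)) (pi1 (k1 w₀ (B t))) +
          ee (pi1 (B (s * t) *ᵥ z + z)) (pi1 (k1 w₀ (B (s * t)))))) ^ 2 +
      (qq (pi1 (B s *ᵥ z + z)) + qq (pi1 (B t *ᵥ z + z)) + qq (pi1 (B (s * t) *ᵥ z + z))) := by
  have hk : ∀ g, k1 w₀ (B g) ∈ S := fun g => (k1_coord hc.toFl (hc.ac g)).1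
  have h1 := theta_cob hc (cob_Z1 (T := T) hsm z) (k1_Z1 (T := T) (w₀ := w₀) (coSp hc) hsm) hz hk s t
  beta_reduce at h1
  have h2 := qq_pi1 hc.toFl (hc.ac s) (hz t)
  have h3 := diag_z (w₀ := w₀) (coSp hc t) z
  have e2 : B (s * t) *ᵥ z + z = (B s *ᵥ z + z) + B s *ᵥ (B t *ᵥ z + z) :=
    (cob_Z1 (T := T) hsm z).2 s t
  have h4 : qq (pi1 (B (s * t) *ᵥ z + z)) = qq (pi1 (B s *ᵥ z + z)) +
      qq (pi1 (B s *ᵥ (B t *ᵥ z + z))) + ee (pi1 (B s *ᵥ z + z)) (pi1 (B s *ᵥ (B t *ᵥ z + z))) := by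
    rw [e2, map_add pi1 (B s *ᵥ z + z), qq_add]
  have h5 : cS B ε pi1 z (fun g => k1 w₀ (B g)) s t +
        (ee (pi1 (B s *ᵥ z + z)) (pi1 (k1 w₀ (B s))) + ee (pi1 (B t *ᵥ z + z)) (pi1 (k1 w₀ (B t))) +
          ee (pi1 (B (s * t) *ᵥ z + z)) (pi1 (k1 w₀ (B (s * t))))) =
      ee (pi1 (k1 w₀ (B s))) (pi1 (B s *ᵥ (B t *ᵥ z + z))) +
        ε s • ee (k1 w₀ (B t)) (z + (B t *ᵥ z + z)) := by
    rw [← h1]
    unfold cS
    beta_reduce
    rw [ee_comm (k1 w₀ (B t)), ee_add_left z]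
    simp only [smul_F]
    generalize ee z (k1 w₀ (B t)) = a1
    generalize ee (B t *ᵥ z + z) (k1 w₀ (B t)) = a2
    generalize ee (pi1 (B s *ᵥ z + z)) (pi1 (B s *ᵥ k1 w₀ (B t))) = a3
    linear_combination (norm := (ring_nf; reduce_mod_char!))
  rw [h5, h4, h2, sq_add]
  unfold cS
  beta_reduce
  rcases zmod2_cases (ε s) with h0 | h0
  · rw [h0, if_pos rfl, zero_smul, zero_smul]
    linear_combination (norm := (ring_nf; reduce_mod_char!))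
  · rw [h0, if_neg one_ne_zero, one_smul, one_smul, ← h3]
    linear_combination (norm := (ring_nf; reduce_mod_char!))

theorem cS_add_y (z : Fin n → F) (y y1 : P → Fin n → F) (s t : P) :
    cS B ε pi1 z (fun g => y g + y1 g) s t = cS B ε pi1 z y s t + cS B ε pi1 z y1 s t := by
  unfold cS
  beta_reduce
  rw [mulVec_add, map_add pi1 (B s *ᵥ y t), ee_add_right, ee_add_right, smul_add]
  abel

end Pool.Agent.Work.MP_787500_nt.IU
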