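import Mathlib
import Pool.Agent.Work.MP_787500_nt.IU.FormA
/-!
# Module FormB (size M): the form `M` and the functional `lm`

`M m z = iF (cS z (dm))`, `lm z = iF (cS z k1)` (`cS_mem`; `k1 w₀ (B g) ∈ S` by `k1_coord`); bilinear: `cS` is additive and homogeneous in `z` and in `y`. `val`, `vlm`: `Subtype.ext`. `symm`: `cS_symm`, `inv_congr`.
`diag`: `cS_diag`: the square of `c = cS z k1 + coboundary` (in `CoF` by `cob_mem`) has the invariant `(iF c) ^ 2` (`inv_sq`), `iF c = lm z` (`inv_congr`), and `cS z (dz) = c ^ 2 + coboundary` (`inv_congr`). `char_vec2`: `KS.sym_rank`.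
-/

set_option autoImplicit false
set_option linter.unusedSectionVars false

namespace Pool.Agent.Work.MP_787500_nt.IU

open Matrix
open Pool.Agent.Work.MP_787500_nt.GP (A0 hf hf_add hf_zero hf_two hf_neg smul_hf IsAct d0 d1 d2 tw cup11
  cup02 EvPow)
open Pool.Agent.Work.MP_787500_nt.KR (FSys Sm1 Sm2 IsChar Smooth Z1 Z2 B2 LocH Pair LDual LocD zM
  cup11_Z2)
open Pool.Agent.Work.MP_787500_nt.KT hiding Str Rel Sel KH Ai IsP cc ff TT
open Pool.Agent.Work.MP_787500_nt.KS (hfT hfT_apply hfT_sq hfT_two hfT_neg smul_hfT hfT_nondeg hfT_smul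
  inv_zero smul_F dF1 rt rt_sq sm_eps sm1_one sm1_two zmod2_cases hfT_eps_sq exists_mul hfT_eq
  trace_trick sym_rank ann mem_ann finrank_ann)
open Pool.Agent.Work.MP_787500_nt.OR (indW mem_indW fixV mem_fixV fixW mem_fixW k1)


variable {F : Type*} [Field F] [Finite F] [CharP F 2] [Algebra (ZMod 2) F] {n r : ℕ} [Sy F n]
  [Sy F r] {P : Type*} [Group P] {T : FSys P} {χ : P → ℤ_[2]} {iv : (P → P → A0) → A0}
  {B : P →* Matrix (Fin n) (Fin n) F} {ε : P → ZMod 2}
  {I S : Submodule F (Fin n → F)} {pi1 pi2 : (Fin n → F) →ₗ[F] (Fin r → F)} {w₀ : Fin n → F}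
  {g1 g2 : P → Matrix (Fin r) (Fin r) F} {iF : CoF F T →ₗ[F] F}

private theorem cS_yadd (z : Fin n → F) (y y1 : P → Fin n → F) :
    cS B ε pi1 z (fun g => y g + y1 g) = cS B ε pi1 z y + cS B ε pi1 z y1 := by
  funext s t
  exact cS_add_y z y y1 s t

private theorem cS_ysmul (a : F) (z : Fin n → F) (y : P → Fin n → F) :
    cS B ε pi1 z (fun g => a • y g) = a • cS B ε pi1 z y := by
  funext s t
  show ee (pi1 (B s *ᵥ z + z)) (pi1 (B s *ᵥ (a • y t))) + ε s • ee z (a • y t) =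
    a * (ee (pi1 (B s *ᵥ z + z)) (pi1 (B s *ᵥ y t)) + ε s • ee z (y t))
  rw [mulVec_smul, map_smul, ee_smul_right, ee_smul_right, mul_add, mul_smul_comm]

private theorem cS_zadd (z z1 : Fin n → F) (y : P → Fin n → F) :
    cS B ε pi1 (z + z1) y = cS B ε pi1 z y + cS B ε pi1 z1 y := by
  funext s t
  show ee (pi1 (B s *ᵥ (z + z1) + (z + z1))) (pi1 (B s *ᵥ y t)) + ε s • ee (z + z1) (y t) =
    (ee (pi1 (B s *ᵥ z + z)) (pi1 (B s *ᵥ y t)) + ε s • ee z (y t)) +
      (ee (pi1 (B s *ᵥ z1 + z1)) (pi1 (B s *ᵥ y t)) + ε s • ee z1 (y t))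
  have e : B s *ᵥ (z + z1) + (z + z1) = (B s *ᵥ z + z) + (B s *ᵥ z1 + z1) := by
    rw [mulVec_add]
    abel
  rw [e, map_add, ee_add_left, ee_add_left, smul_add]
  abel

private theorem cS_zsmul (a : F) (z : Fin n → F) (y : P → Fin n → F) :
    cS B ε pi1 (a • z) y = a • cS B ε pi1 z y := by
  funext s t
  show ee (pi1 (B s *ᵥ (a • z) + a • z)) (pi1 (B s *ᵥ y t)) + ε s • ee (a • z) (y t) =
    a * (ee (pi1 (B s *ᵥ z + z)) (pi1 (B s *ᵥ y t)) + ε s • ee z (y t))
  rw [mulVec_smul, ← smul_add, map_smul, ee_smul_left, ee_smul_left, mul_add, mul_smul_comm]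

private theorem d_add (m m' : Fin n → F) : (fun t => B t *ᵥ (m + m') + (m + m')) =
    fun t => (B t *ᵥ m + m) + (B t *ᵥ m' + m') := by
  funext t
  rw [mulVec_add]
  abel

private theorem d_smul (a : F) (m : Fin n → F) : (fun t => B t *ᵥ (a • m) + a • m) =
    fun t => a • (B t *ᵥ m + m) := by
  funext t
  rw [mulVec_smul, smul_add]

theorem exists_FM2 (Lc : LocH T χ iv) (hi : IsInv T iv iF) (hc : Co B ε I S pi1 pi2 w₀ g1 g2)
    (headd : ∀ g h, ε (g * h) = ε g + ε h) (hes : Sm1 T ε) (hsm : Smooth T (KT.act B)) :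
    ∃ M lm, FM2 T B ε S pi1 w₀ iF M lm := by
  have hz' : ∀ z : fixW B Set.univ S, ∀ g, B g *ᵥ z.1 + z.1 ∈ S :=
    fun z g => z.2 g (Set.mem_univ g)
  have hM : ∀ m z : fixW B Set.univ S,
      cS B ε pi1 z.1 (fun t => B t *ᵥ m.1 + m.1) ∈ CoF F T :=
    fun m z => cS_mem hc headd hes hsm (hz' z) (cob_Z1 hsm m.1) (hz' m)
  have hL : ∀ z : fixW B Set.univ S, cS B ε pi1 z.1 (fun t => k1 w₀ (B t)) ∈ CoF F T :=
    fun z => cS_mem hc headd hes hsm (hz' z) (k1_Z1 (coSp hc) hsm)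
      (fun g => (k1_coord hc.toFl (hc.ac g)).1)
  let M : fixW B Set.univ S →ₗ[F] fixW B Set.univ S →ₗ[F] F :=
    LinearMap.mk₂ F (fun m z => iF ⟨_, hM m z⟩)
      (fun m m' z => by
        rw [← map_add]
        congr 1
        apply Subtype.ext
        show cS B ε pi1 z.1 (fun t => B t *ᵥ (m.1 + m'.1) + (m.1 + m'.1)) = _
        rw [d_add, cS_yadd]
        rfl)
      (fun a m z => by
        rw [← map_smul]
        congr 1
        apply Subtype.ext
        show cS B ε pi1 z.1 (fun t => B t *ᵥ (a • m.1) + a • m.1) = _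
        rw [d_smul, cS_ysmul]
        rfl)
      (fun m z z' => by
        rw [← map_add]
        congr 1
        apply Subtype.ext
        exact cS_zadd z.1 z'.1 _)
      (fun a m z => by
        rw [← map_smul]
        congr 1
        apply Subtype.ext
        exact cS_zsmul a z.1 _)
  let lm : fixW B Set.univ S →ₗ[F] F :=
    { toFun := fun z => iF ⟨_, hL z⟩
      map_add' := fun z z' => by
        rw [← map_add]
        congr 1
        apply Subtype.ext
        exact cS_zadd z.1 z'.1 _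
      map_smul' := fun a z => by
        rw [RingHom.id_apply, ← map_smul]
        congr 1
        apply Subtype.ext
        exact cS_zsmul a z.1 _ }
  have hMv : ∀ m z, M m z = iF ⟨_, hM m z⟩ := fun m z => rfl
  have hLv : ∀ z, lm z = iF ⟨_, hL z⟩ := fun z => rfl
  have sz : ∀ z : Fin n → F, Sm1 T (fun g => B g *ᵥ z + z) := fun z => (cob_Z1 hsm z).1
  have sk : Sm1 T (fun g => k1 w₀ (B g)) := (k1_Z1 (coSp hc) hsm).1
  refine ⟨M, lm, ⟨?_, ?_, ?_, ?_⟩⟩
  · intro m z c h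
    rw [hMv]
    congr 1
    exact Subtype.ext h
  · intro z c h
    rw [hLv]
    congr 1
    exact Subtype.ext h
  · intro x y
    rw [hMv, hMv]
    exact inv_congr Lc hi (sm1_two (sz y.1) (sz x.1) (fun a b => ee (pi1 a) (pi1 b)))
      (fun s t => cS_symm hc hsm (hz' y) (hz' x) s t)
  · intro x
    have sb := sm1_two (sz x.1) sk (fun a b => ee (pi1 a) (pi1 b))
    have sq := sm1_one (sz x.1) (fun a => qq (pi1 a))
    have key : ∀ s t, ((⟨_, hM x x⟩ : CoF F T) - ⟨_, cob_mem sq⟩ : CoF F T).1 s t =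
        ((⟨_, hL x⟩ : CoF F T) + ⟨_, cob_mem sb⟩ : CoF F T).1 s t ^ 2 := by
      intro s t
      show cS B ε pi1 x.1 (fun g => B g *ᵥ x.1 + x.1) s t - _ = _
      rw [cS_diag hc hsm (hz' x) s t]
      exact add_sub_cancel_right _ _
    have h1 := inv_sq hi key
    rw [map_sub, map_add, inv_cob Lc hi sq (c := ⟨_, cob_mem sq⟩) (fun _ _ => rfl),
      inv_cob Lc hi sb (c := ⟨_, cob_mem sb⟩) (fun _ _ => rfl), sub_zero, add_zero] at h1
    rw [hMv, hLv]
    exact h1

theorem char_vec2 {M : fixW B Set.univ S →ₗ[F] fixW B Set.univ S →ₗ[F] F}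
    {lm : fixW B Set.univ S →ₗ[F] F} (h : FM2 T B ε S pi1 w₀ iF M lm) {u : fixW B Set.univ S}
    (hu : ∀ z, M u z = lm z) : (Module.finrank F (fixW B Set.univ S) : F) +
      Module.finrank F (LinearMap.ker M) = lm u := by
  have h2 : (2 : F) = 0 := CharTwo.two_eq_zero
  have h1 := sym_rank M h.symm u (fun x => by rw [hu, h.diag])
  rw [← hu u]
  linear_combination h1 + (Module.finrank F (LinearMap.ker M) : F) * h2

end Pool.Agent.Work.MP_787500_nt.IU
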