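import Mathlib
import Pool.Agent.Work.MP_787500_nt.IU.FormB
/-!
# Module Lift (size M-L): the classes `ε ∪ y`

`y` is a smooth cocycle with values in `S`, `z` a vector fixed modulo `S`. `hU : UN Up N S pi1 pi2`; `inW_iff`.
* `of_lift2`: with `b s = ee z (a s)`: `b (s t) = b s + ee z (B s a t) + ε s • ee z (B s y t)`, `ee z (B s x) = ee z x + ee (dz s) (B s x)` (`ee z x = ee (B s z) (B s x)`), so `b s + b t + b (s t) = ee (dz s) (B s (a t + ε s • y t)) + ε s • ee z (y t)`,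
  and for `c = B s (a t + ε s • y t)`: `pi2 c = 0`, `pi1 c = pi1 (B s y t)` (`(hc.ac s).a0`, `a1`), so `ee (dz s) c = ee (pi1 (dz s)) (pi1 (B s y t))` (`hc.form`): the right side is `cS z y s t`: `inv_cob`.
* `lift_of2`: let `θ : U →ₗ U` be linear with `θ x ∈ S`, `pi1 (θ x) = pi1 x`, `pi2 (θ x) = 0` (a linear section of `(pi1, pi2)` on `S`: `hc.surj`, `Submodule`/`LinearMap.exists_rightInverse_of_surjective`), `a0 = θ ∘ y`,
  `f s t = a0 s + B s a0 t + ε s • B s y t + a0 (s t)`: in `S`, `pi1 f = 0`, `pi2 f = 0` (as above), so in `I` (`hc.ker`); cocycle (`headd`), smooth; `ee z (f s t) = b s + b t + b (s t) + cS z y s t` with `b = ee z (a0 ·)` (the computation of `of_lift2`), so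
  `od` applies (`hfT (α * ..)` with `α = 1`: `hi`, `inv_congr`; the hypothesis `hz`); `a = a0 + (the 1-cochain of f)`.
* `ker_lift2`: both directions with `y = dm`, `h.val`. `char_of2`: `y = k1 + du`: `of_lift2` and `cS_add_y`, `h.val`, `h.vlm` (characteristic 2).
-/

set_option autoImplicit false
set_option linter.unusedSectionVars false

namespace Pool.Agent.Work.MP_787500_nt.IU

open Matrix
open Pool.Agent.Work.MP_787500_nt.GP (A0 hf hf_add hf_zero hf_two hf_neg smul_hf IsAct d0 d1 d2 tw cup11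
  cup02 EvPow)
open Pool.Agent.Work.MP_787500_nt.KR (FSys Sm1 Sm2 IsChar Smooth Z1 Z2 B2 LocH Pair LDual LocD zM
  cup11_Z2)
open Pool.Agent.Work.MP_787500_nt.KT hiding Str Rel Sel KH Ai IsP cc ff TT
open Pool.Agent.Work.MP_787500_nt.KS (hfT hfT_apply hfT_sq hfT_two hfT_neg smul_hfT hfT_nondeg hfT_smul
  inv_zero smul_F dF1 rt rt_sq sm_eps sm1_one sm1_two zmod2_cases hfT_eps_sq exists_mul hfT_eq
  trace_trick sym_rank ann mem_ann finrank_ann)
open Pool.Agent.Work.MP_787500_nt.OR (indW mem_indW fixV mem_fixV fixW mem_fixW k1)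


variable {F : Type*} [Field F] [Finite F] [CharP F 2] [Algebra (ZMod 2) F] {n r : ℕ} [Sy F n]
  [Sy F r] {P : Type*} [Group P] {T : FSys P} {χ : P → ℤ_[2]} {iv : (P → P → A0) → A0}
  {B : P →* Matrix (Fin n) (Fin n) F} {ε : P → ZMod 2}
  {Up N I S : Submodule F (Fin n → F)} {pi1 pi2 : (Fin n → F) →ₗ[F] (Fin r → F)} {w₀ : Fin n → F}
  {g1 g2 : P → Matrix (Fin r) (Fin r) F} {iF : CoF F T →ₗ[F] F}


section aux

private theorem z2cancel {x y : Fin n → F} (h : x + y = 0) : x = y := by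
  have h1 := U_cancel h
  rwa [add_zero] at h1

private theorem ee_dz (hc : Co B ε I S pi1 pi2 w₀ g1 g2) (s : P) (z x : Fin n → F) :
    ee z (B s *ᵥ x) = ee z x + ee (B s *ᵥ z + z) (B s *ᵥ x) := by
  rw [ee_add_left, (hc.ac s).sp z x, ← add_assoc, add_self, zero_add]

private theorem pi_corr (hc : Co B ε I S pi1 pi2 w₀ g1 g2) (s : P) {x y : Fin n → F} (hx : x ∈ S)
    (hy : y ∈ S) (h1 : pi1 x = pi1 y) (h2 : pi2 x = 0) :
    (B s *ᵥ x + ε s • (B s *ᵥ y)) ∈ S ∧ pi1 (B s *ᵥ x + ε s • (B s *ᵥ y)) = pi1 (B s *ᵥ y) ∧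
      pi2 (B s *ᵥ x + ε s • (B s *ᵥ y)) = 0 := by
  have hxS := stS hc.toFl (hc.ac s) hx
  have hyS := stS hc.toFl (hc.ac s) hy
  rcases zmod2_cases (ε s) with h | h
  · have a1 := (hc.ac s).a0 h x hx
    have a2 := (hc.ac s).a0 h y hy
    rw [h, zero_smul, add_zero]
    refine ⟨hxS, ?_, ?_⟩
    · rw [a1.1, a2.1, h1]
    · rw [a1.2, h2, mulVec_zero]
  · have a1 := (hc.ac s).a1 h x hx
    have a2 := (hc.ac s).a1 h y hy
    rw [h, one_smul]
    refine ⟨S.add_mem hxS hyS, ?_, ?_⟩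
    · rw [map_add, a1.1, a2.1, h2, mulVec_zero, zero_add]
    · rw [map_add, a1.2, a2.2, h1, U_add_self]

/-- the computation of `of_lift2` -/
private theorem comp (hc : Co B ε I S pi1 pi2 w₀ g1 g2) (s : P) {z x y : Fin n → F}
    (hz : B s *ᵥ z + z ∈ S) (hx : x ∈ S) (hy : y ∈ S) (h1 : pi1 x = pi1 y) (h2 : pi2 x = 0) :
    ee z (B s *ᵥ x + ε s • (B s *ᵥ y)) =
      ee z x + (ee (pi1 (B s *ᵥ z + z)) (pi1 (B s *ᵥ y)) + ε s • ee z y) := by
  obtain ⟨c1, c2, c3⟩ := pi_corr hc s hx hy h1 h2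
  have e1 : ee z (B s *ᵥ x + ε s • (B s *ᵥ y)) = ee z x + ε s • ee z y +
      ee (B s *ᵥ z + z) (B s *ᵥ x + ε s • (B s *ᵥ y)) := by
    have e0 : B s *ᵥ x + ε s • (B s *ᵥ y) = B s *ᵥ (x + ε s • y) := by
      rw [mulVec_add, smul_U, smul_U, mulVec_smul]
    have e2 : ee z (ε s • y) = ε s • ee z y := by
      rw [smul_U, ee_smul_right, ← Algebra.smul_def]
    rw [e0, ee_dz hc s z (x + ε s • y), ee_add_right z x, e2]
  rw [e1, hc.form _ hz _ c1, c2, c3, ee_zero_right, add_zero]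
  ring

end aux

theorem of_lift2 (Lc : LocH T χ iv) (hi : IsInv T iv iF) (hc : Co B ε I S pi1 pi2 w₀ g1 g2)
    (hU : UN Up N S pi1 pi2) {a y : P → Fin n → F} (ha : Sm1 T a)
    (haW : ∀ g, InW Up N (a g) (y g))
    (hl : IsLift (B : P → Matrix (Fin n) (Fin n) F) ε a y) {z : Fin n → F}
    (hz : ∀ g, B g *ᵥ z + z ∈ S) {c : CoF F T} (hcc : c.1 = cS B ε pi1 z y) : iF c = 0 := by
  have e := fun g => (inW_iff hU).1 (haW g)
  refine inv_cob Lc hi (b := fun s => ee z (a s)) (sm1_one ha (fun x => ee z x)) fun s t => ?_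
  rw [hcc]
  show ee (pi1 (B s *ᵥ z + z)) (pi1 (B s *ᵥ y t)) + ε s • ee z (y t) = _
  have h1 := comp hc s (hz s) (e t).1.1 (e t).1.2 (e t).2.1 (e t).2.2
  have h2 := hl s t
  show _ = ee z (a s) + ee z (a t) + ee z (a (s * t))
  rw [h2, add_assoc (a s), ee_add_right z (a s), h1]
  ring_nf
  reduce_mod_char!

theorem lift_of2 (Lc : LocH T χ iv) (hi : IsInv T iv iF) (hc : Co B ε I S pi1 pi2 w₀ g1 g2)
    (hU : UN Up N S pi1 pi2) (headd : ∀ g h, ε (g * h) = ε g + ε h) (hes : Sm1 T ε)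
    (hsm : Smooth T (KT.act B)) (od : Od2 T iv B I S) {y : P → Fin n → F}
    (hy : Z1 T (KT.act B) y) (hyS : ∀ g, y g ∈ S)
    (hz : ∀ z, (∀ g, B g *ᵥ z + z ∈ S) → ∀ c : CoF F T, c.1 = cS B ε pi1 z y → iF c = 0) :
    ∃ a : P → Fin n → F, Sm1 T a ∧ (∀ g, InW Up N (a g) (y g)) ∧
      IsLift (B : P → Matrix (Fin n) (Fin n) F) ε a y := by
  -- a linear section
  obtain ⟨θ, hθ⟩ : ∃ θ : (Fin n → F) →ₗ[F] (Fin n → F), ∀ x, θ x ∈ S ∧ pi1 (θ x) = pi1 x ∧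
      pi2 (θ x) = 0 := by
    let S0 : Submodule F (Fin n → F) := S ⊓ LinearMap.ker pi2
    let p : S0 →ₗ[F] (Fin r → F) := pi1.comp S0.subtype
    have hp : LinearMap.range p = ⊤ := by
      rw [LinearMap.range_eq_top]
      intro u
      obtain ⟨x, hxS, hx1, hx2⟩ := hc.surj u 0
      exact ⟨⟨x, hxS, hx2⟩, hx1⟩
    obtain ⟨q, hq⟩ := LinearMap.exists_rightInverse_of_surjective p hp
    refine ⟨(S0.subtype.comp q).comp pi1, fun x => ?_⟩
    have h1 : (((S0.subtype.comp q).comp pi1) x) = (q (pi1 x) : Fin n → F) := rfl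
    rw [h1]
    refine ⟨(q (pi1 x)).2.1, ?_, (q (pi1 x)).2.2⟩
    exact LinearMap.congr_fun hq (pi1 x)
  obtain ⟨W1, hW1, hB1⟩ := smooth_A hsm
  obtain ⟨W2, hW2, he2⟩ := hes
  obtain ⟨W3, hW3, hy3⟩ := hy.1
  have hyc : ∀ s t, y (s * t) = y s + B s *ᵥ y t := hy.2
  let a0 : P → Fin n → F := fun g => θ (y g)
  have ha0 : Sm1 T a0 := sm1_one hy.1 (fun x => θ x)
  let f : P → P → Fin n → F := fun s t =>
    a0 s + (B s *ᵥ a0 t + ε s • (B s *ᵥ y t)) + a0 (s * t)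
  have hfd : ∀ s t, f s t = a0 s + (B s *ᵥ a0 t + ε s • (B s *ᵥ y t)) + a0 (s * t) :=
    fun _ _ => rfl
  have hfs : Sm2 T f := by
    refine ⟨W1 ⊓ (W2 ⊓ W3), T.inf hW1 (T.inf hW2 hW3), fun g h w hw w' hw' => ?_⟩
    have hn : (W1 ⊓ (W2 ⊓ W3)).Normal := T.normal (T.inf hW1 (T.inf hW2 hW3))
    have k1' : ∀ g, ∀ w ∈ W1 ⊓ (W2 ⊓ W3), y (g * w) = y g := fun g w hw => hy3 g w hw.2.2
    have k2 : a0 (g * w) = a0 g := congrArg θ (k1' g w hw)
    have k3 : a0 (h * w') = a0 h := congrArg θ (k1' h w' hw')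
    have k4 : B (g * w) = B g := by rw [map_mul, hB1 w hw.1, mul_one]
    have k5 : ε (g * w) = ε g := he2 g w hw.2.1
    have k6 : a0 (g * w * (h * w')) = a0 (g * h) := by
      have e : g * w * (h * w') = g * h * (h⁻¹ * w * h * w') := by group
      rw [e]
      refine congrArg θ (k1' _ _ (Subgroup.mul_mem _ ?_ hw'))
      have := hn.conj_mem w hw h⁻¹
      rwa [inv_inv] at this
    rw [hfd, hfd, k2, k3, k4, k5, k6, k1' h w' hw']
  have hcorr := fun s t => pi_corr hc s (hθ (y t)).1 (hyS t) (hθ (y t)).2.1 (hθ (y t)).2.2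
  have hfI : ∀ s t, f s t ∈ I := by
    intro s t
    have hS1 : f s t ∈ S := S.add_mem (S.add_mem (hθ _).1 (hcorr s t).1) (hθ _).1
    rw [hc.ker _ hS1, hfd]
    constructor
    · rw [map_add, map_add, (hcorr s t).2.1, (hθ (y s)).2.1, (hθ (y (s * t))).2.1, hyc s t, map_add]
      exact U_add_self _
    · rw [map_add, map_add, (hcorr s t).2.2, (hθ (y s)).2.2, (hθ (y (s * t))).2.2, add_zero,
        add_zero]
  have hfc : ∀ s t u, B s *ᵥ f t u + f (s * t) u + f s (t * u) + f s t = 0 := by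
    intro s t u
    simp only [hfd, mulVec_add, headd, map_mul, ← mulVec_mulVec, hyc, smul_U, mulVec_smul,
      add_smul, smul_add, ← mul_assoc]
    ext i
    simp only [Pi.add_apply, Pi.smul_apply, Pi.zero_apply, smul_eq_mul]
    ring_nf
    reduce_mod_char!
  have hfz : ∀ z, (∀ g, B g *ᵥ z + z ∈ S) → iv (fun s t => hfT (ee z (f s t))) = 0 := by
    intro z hz1
    let c1 : CoF F T := ⟨cS B ε pi1 z y, cS_mem hc headd ⟨W2, hW2, he2⟩ hsm hz1 hy hyS⟩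
    let c2 : CoF F T := ⟨_, cob_mem (sm1_one ha0 (fun x => ee z x))⟩
    have h0 : iF c1 = 0 := hz z hz1 c1 rfl
    have h1 : iF (c1 + c2) = 0 := by
      rw [inv_congr Lc hi (c := c1 + c2) (c1 := c1) (sm1_one ha0 (fun x => ee z x))
        (fun s t => rfl), h0]
    have h2 := hi 1 (c1 + c2)
    rw [h1, mul_zero, map_zero] at h2
    rw [← h2]
    congr 1
    funext s t
    rw [one_mul]
    congr 1
    show _ = (ee (pi1 (B s *ᵥ z + z)) (pi1 (B s *ᵥ y t)) + ε s • ee z (y t)) +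
      (ee z (a0 s) + ee z (a0 t) + ee z (a0 (s * t)))
    have h3 := comp hc s (hz1 s) (hθ (y t)).1 (hyS t) (hθ (y t)).2.1 (hθ (y t)).2.2
    rw [hfd, ee_add_right, ee_add_right]
    change ee z (a0 s) + ee z (B s *ᵥ a0 t + ε s • (B s *ᵥ y t)) + ee z (a0 (s * t)) = _
    change ee z (B s *ᵥ a0 t + ε s • (B s *ᵥ y t)) = _ at h3
    rw [h3]
    show _ + (ee z (a0 t) + _) + _ = _
    ring
  obtain ⟨a1, ha1, ha1I, ha1f⟩ := od f hfs hfI hfc hfz
  have ha1p : ∀ g, pi1 (a1 g) = 0 ∧ pi2 (a1 g) = 0 := fun g =>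
    (hc.ker _ (hc.le (ha1I g))).1 (ha1I g)
  refine ⟨fun g => a0 g + a1 g, sm1_two ha0 ha1 (fun x y => x + y), fun g => ?_, fun s t => ?_⟩
  · rw [inW_iff hU]
    refine ⟨⟨S.add_mem (hθ _).1 (hc.le (ha1I g)), hyS g⟩, ?_, ?_⟩
    · rw [map_add, (hθ (y g)).2.1, (ha1p g).1, add_zero]
    · rw [map_add, (hθ (y g)).2.2, (ha1p g).2, add_zero]
  · have h1 := ha1f s t
    rw [hfd] at h1
    beta_reduce
    rw [mulVec_add]
    have h2 : a0 (s * t) = a0 s + (B s *ᵥ a0 t + ε s • (B s *ᵥ y t)) +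
        (a1 s + B s *ᵥ a1 t + a1 (s * t)) := by
      rw [← h1, ← add_assoc, U_add_self, zero_add]
    rw [h2]
    have h3 := U_add_self (a1 (s * t))
    have e : a0 s + (B s *ᵥ a0 t + ε s • (B s *ᵥ y t)) + (a1 s + B s *ᵥ a1 t + a1 (s * t)) +
        a1 (s * t) = a0 s + a1 s + (B s *ᵥ a0 t + B s *ᵥ a1 t) + ε s • (B s *ᵥ y t) +
          (a1 (s * t) + a1 (s * t)) := by abel
    rw [e, h3, add_zero]

theorem ker_lift2 (Lc : LocH T χ iv) (hi : IsInv T iv iF) (hc : Co B ε I S pi1 pi2 w₀ g1 g2)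
    (hU : UN Up N S pi1 pi2) (headd : ∀ g h, ε (g * h) = ε g + ε h) (hes : Sm1 T ε)
    (hsm : Smooth T (KT.act B)) (od : Od2 T iv B I S)
    {M : fixW B Set.univ S →ₗ[F] fixW B Set.univ S →ₗ[F] F} {lm : fixW B Set.univ S →ₗ[F] F}
    (h : FM2 T B ε S pi1 w₀ iF M lm) (m : fixW B Set.univ S) :
    m ∈ LinearMap.ker M ↔ ∃ a : P → Fin n → F, Sm1 T a ∧
      (∀ g, InW Up N (a g) (B g *ᵥ m.1 + m.1)) ∧
      IsLift (B : P → Matrix (Fin n) (Fin n) F) ε a (fun g => B g *ᵥ m.1 + m.1) := by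
  have hmS : ∀ g, B g *ᵥ m.1 + m.1 ∈ S := fun g => m.2 g (Set.mem_univ g)
  have hy := cob_Z1 hsm m.1 (T := T) (B := B)
  constructor
  · intro hm
    rw [LinearMap.mem_ker] at hm
    refine lift_of2 Lc hi hc hU headd hes hsm od hy hmS fun z hz c hcc => ?_
    have h1 := h.val m ⟨z, fun g _ => hz g⟩ c hcc
    rw [h1, hm, LinearMap.zero_apply]
  · rintro ⟨a, ha, haW, hl⟩
    rw [LinearMap.mem_ker]
    refine LinearMap.ext fun z => ?_
    have hzS : ∀ g, B g *ᵥ z.1 + z.1 ∈ S := fun g => z.2 g (Set.mem_univ g)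
    have h1 := h.val m z ⟨_, cS_mem hc headd hes hsm hzS hy hmS⟩ rfl
    rw [← h1, LinearMap.zero_apply]
    exact of_lift2 Lc hi hc hU ha haW hl hzS rfl

theorem char_of2 (Lc : LocH T χ iv) (hi : IsInv T iv iF) (hc : Co B ε I S pi1 pi2 w₀ g1 g2)
    (hU : UN Up N S pi1 pi2) (headd : ∀ g h, ε (g * h) = ε g + ε h) (hes : Sm1 T ε)
    (hsm : Smooth T (KT.act B))
    {M : fixW B Set.univ S →ₗ[F] fixW B Set.univ S →ₗ[F] F} {lm : fixW B Set.univ S →ₗ[F] F}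
    (h : FM2 T B ε S pi1 w₀ iF M lm) {u : fixW B Set.univ S} {a : P → Fin n → F} (ha : Sm1 T a)
    (haW : ∀ g, InW Up N (a g) (k1 w₀ (B g) + (B g *ᵥ u.1 + u.1)))
    (hl : IsLift (B : P → Matrix (Fin n) (Fin n) F) ε a
      (fun g => k1 w₀ (B g) + (B g *ᵥ u.1 + u.1))) (z : fixW B Set.univ S) : M u z = lm z := by
  have hmS : ∀ g, B g *ᵥ u.1 + u.1 ∈ S := fun g => u.2 g (Set.mem_univ g)
  have hzS : ∀ g, B g *ᵥ z.1 + z.1 ∈ S := fun g => z.2 g (Set.mem_univ g)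
  have hkS : ∀ g, k1 w₀ (B g) ∈ S := fun g => (k1_coord hc.toFl (hc.ac g)).1
  have hy := cob_Z1 hsm u.1 (T := T) (B := B)
  have hk := k1_Z1 (w₀ := w₀) (coSp hc) hsm
  let c1 : CoF F T := ⟨_, cS_mem hc headd hes hsm hzS hk hkS⟩
  let c2 : CoF F T := ⟨_, cS_mem hc headd hes hsm hzS hy hmS⟩
  have e1 := h.vlm z c1 rfl
  have e2 := h.val u z c2 rfl
  have e3 : iF (c1 + c2) = 0 := by
    refine of_lift2 Lc hi hc hU ha haW hl hzS ?_
    funext s t
    exact (cS_add_y z.1 (fun g => k1 w₀ (B g)) (fun g => B g *ᵥ u.1 + u.1) s t).symm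
  rw [map_add, e1, e2] at e3
  have e4 := add_self (lm z)
  linear_combination e3 - e4

end Pool.Agent.Work.MP_787500_nt.IU
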