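import Mathlib
import Pool.Agent.Work.MP_787500_nt.IU.Defs
import Pool.Agent.Work.MP_787500_nt.OR.Od
/-!
# Module EulC (size M-L): the condition `EC` from the local Euler characteristic; duality for `I` and `U / S`

* `od2_of`: `KR.LocD.ld` for the pair (`U ⧸ S`, `I`) with `gam (mk z) x = BU z x` (`x ∈ I`; well defined and nondegenerate by `pS`, `pI`; compare OR/Od): `LDual.two` for the 2-cocycle `f` with values in `I`; a fixed vector of `U ⧸ S` is `mk z` with
  `B g z + z ∈ S` for all `g`; signs: characteristic 2.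
* `card_inv`: the invariant homomorphisms `I → ZMod 2` are the maps `x ↦ tr (ee z x)`, `z ∈ fixW B univ S` modulo `S`: every homomorphism `I →+ ZMod 2` is `x ↦ tr (l x)` for a linear `l : I →ₗ F` (trace form: `hfT`, `GP.exists_rep` or a count), `l = ee z ·` (extend to `U`, `KT.exists_ee`),
  `z` is unique modulo `S` (`pS`), invariant iff `ee (B g z + z) x = 0` on `I` for all `g`, iff `B g z + z ∈ S`. So `Nat.card (EU.invD υ) = q ^ (finrank S0 - finrank S)`, `υ` the action on `I`, `q = card F`.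
* `ec_of_eul`: (1) `Eul` for `X = I`: `finrank {Z1 with values in I} = (k + 1) i + finrank S0 - finrank S`, `i = finrank I`, `finrank S = n - i` (`KS.finrank_ann`). (2) `Eul` for `X = U` (the invariant homomorphisms are the fixed vectors, as (1) with `I = U`, `S = 0`):
  `finrank cocS = (k + 1) n + u`, `u = finrank {v : B g v = v}`, `finrank cobS = n - u` (`QP.finrank_cobS`). (3) `EW = Z1(I) + cobS` and `Z1(I) ⊓ cobS` is the image of `I0 = fixW B univ I` under `m ↦ (B · m + m)` with kernel the fixed vectors: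
  `finrank EW = (k + 1) i + finrank S0 - (n - i) + (n - u) - (finrank I0 - u) = (k + 2) i + finrank S0 - finrank I0`. So `2 (finrank EW + finrank I0 + finrank S0) = 2 (k + 2) i + 4 finrank S0` and `finrank cocS + finrank cobS = (k + 2) n`;
  with `n = 2 i + 2 r` (`hn`) the difference is `- 2 (k + 2) r` plus a multiple of 4, and `r` is even.
-/

set_option autoImplicit false
set_option linter.unusedSectionVars false

namespace Pool.Agent.Work.MP_787500_nt.IU

open Matrix
open Pool.Agent.Work.MP_787500_nt.GP (A0 hf hf_add hf_zero hf_two hf_neg smul_hf IsAct d0 d1 d2 tw cup11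
  cup02 EvPow)
open Pool.Agent.Work.MP_787500_nt.KR (FSys Sm1 Sm2 IsChar Smooth Z1 Z2 B2 LocH Pair LDual LocD zM
  cup11_Z2)
open Pool.Agent.Work.MP_787500_nt.KT hiding Str Rel Sel KH Ai IsP cc ff TT
open Pool.Agent.Work.MP_787500_nt.KS (hfT hfT_apply hfT_sq hfT_two hfT_neg smul_hfT hfT_nondeg hfT_smul
  inv_zero smul_F dF1 rt rt_sq sm_eps sm1_one sm1_two zmod2_cases hfT_eps_sq exists_mul hfT_eq
  trace_trick sym_rank ann mem_ann finrank_ann)
open Pool.Agent.Work.MP_787500_nt.OR (indW mem_indW fixV mem_fixV fixW mem_fixW k1)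


universe v

section pairs

variable {P : Type*} [Group P] {T : FSys P} {χ : P → ℤ_[2]} {iv : (P → P → A0) → A0}
  {V : Type v} [AddCommGroup V] {σ : P → V → V} {B₀ : V →+ V →+ A0} {I S : AddSubgroup V}

/-- the action on the subgroup -/
private def subA (hst : ∀ g, ∀ w ∈ I, σ g w ∈ I) : P → I → I := fun g w => ⟨σ g w, hst g w w.2⟩

private theorem subA_act (act : IsAct σ) (hst : ∀ g, ∀ w ∈ I, σ g w ∈ I) : IsAct (subA hst) where
  one := fun _ => Subtype.ext (act.one _)
  mul := fun g h _ => Subtype.ext (act.mul g h _)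
  add := fun g _ _ => Subtype.ext (act.add g _ _)

private theorem subA_sm (hsm : Smooth T σ) (hst : ∀ g, ∀ w ∈ I, σ g w ∈ I) :
    Smooth T (subA hst) := by
  obtain ⟨U, hU, h1⟩ := hsm
  exact ⟨U, hU, fun w hw m => Subtype.ext (h1 w hw m)⟩

/-- the action on the quotient -/
private def quoA (act : IsAct σ) (hst : ∀ g, ∀ w ∈ S, σ g w ∈ S) : P → V ⧸ S → V ⧸ S :=
  fun g => QuotientAddGroup.map S S (AddMonoidHom.mk' (σ g) (act.add g)) (fun w hw => hst g w hw)

private theorem quoA_mk (act : IsAct σ) (hst : ∀ g, ∀ w ∈ S, σ g w ∈ S) (g : P) (v : V) :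
    quoA act hst g (QuotientAddGroup.mk' S v) = QuotientAddGroup.mk' S (σ g v) := rfl

/-- the pairing of the subgroup and the quotient -/
private noncomputable def gam (hi : ∀ v ∈ I, ∀ w ∈ S, B₀ v w = 0) : I →+ (V ⧸ S) →+ A0 :=
  AddMonoidHom.mk' (fun w => QuotientAddGroup.lift S (B₀ w) (fun v hv => hi w w.2 v hv))
    (fun w w' => by
      ext v
      show B₀ ((w + w' : I) : V) v = B₀ w v + B₀ w' v
      rw [AddSubgroup.coe_add, map_add]
      rfl)

private theorem gam_mk (hi : ∀ v ∈ I, ∀ w ∈ S, B₀ v w = 0) (w : I) (v : V) :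
    gam hi w (QuotientAddGroup.mk' S v) = B₀ w v := rfl

private theorem pair_sq (act : IsAct σ) (hst : ∀ g, ∀ w ∈ I, σ g w ∈ I)
    (hst' : ∀ g, ∀ w ∈ S, σ g w ∈ S)
    (hi : ∀ v ∈ I, ∀ w ∈ S, B₀ v w = 0) (hsm : Smooth T σ)
    (heq : ∀ g v w, B₀ (σ g v) (σ g w) = χ g • B₀ v w)
    (hp : ∀ v, (∀ w ∈ I, B₀ w v = 0) → v ∈ S) (hnd : ∀ w, (∀ v, B₀ w v = 0) → w = 0) :
    Pair T χ (subA hst) (quoA act hst') (gam hi) where
  act := subA_act act hst
  act' := {
    one := fun m => by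
      obtain ⟨m, rfl⟩ := QuotientAddGroup.mk'_surjective S m
      rw [quoA_mk, act.one]
    mul := fun g h m => by
      obtain ⟨m, rfl⟩ := QuotientAddGroup.mk'_surjective S m
      rw [quoA_mk, quoA_mk, quoA_mk, act.mul]
    add := fun g m m' => map_add _ m m' }
  sm := subA_sm hsm hst
  sm' := by
    obtain ⟨U, hU, h1⟩ := hsm
    refine ⟨U, hU, fun w hw m => ?_⟩
    obtain ⟨m, rfl⟩ := QuotientAddGroup.mk'_surjective S m
    rw [quoA_mk, h1 w hw]
  eqv g m m' := by
    obtain ⟨m', rfl⟩ := QuotientAddGroup.mk'_surjective S m'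
    rw [quoA_mk, gam_mk, gam_mk]
    exact heq g m m'
  nd m h := Subtype.ext (hnd m fun v => h (QuotientAddGroup.mk' S v))
  nd' m' h := by
    obtain ⟨m', rfl⟩ := QuotientAddGroup.mk'_surjective S m'
    have h1 : m' ∈ S := hp m' fun w hw => h ⟨w, hw⟩
    exact (QuotientAddGroup.eq_zero_iff m').2 h1

private theorem od_two [Finite V] (p : LocD.{v} T χ iv) (act : IsAct σ)
    (hst : ∀ g, ∀ w ∈ I, σ g w ∈ I) (hst' : ∀ g, ∀ w ∈ S, σ g w ∈ S)
    (hi : ∀ v ∈ I, ∀ w ∈ S, B₀ v w = 0) (hsm : Smooth T σ)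
    (heq : ∀ g v w, B₀ (σ g v) (σ g w) = χ g • B₀ v w)
    (hp : ∀ v, (∀ w ∈ I, B₀ w v = 0) → v ∈ S) (hnd : ∀ w, (∀ v, B₀ w v = 0) → w = 0)
    (f : P → P → V) (hf : Z2 T σ f) (hfW : ∀ s t, f s t ∈ I)
    (h : ∀ z, (∀ g, σ g z - z ∈ S) → iv (fun s t => B₀ (f s t) z) = 0) :
    ∃ a : P → V, Sm1 T a ∧ (∀ g, a g ∈ I) ∧ f = d1 σ a := by
  have hL := p.ld (pair_sq act hst hst' hi hsm heq hp hnd).flip
  have hF : Z2 T (subA hst) (fun s t => (⟨f s t, hfW s t⟩ : I)) := by
    refine ⟨?_, fun a b c => Subtype.ext (hf.2 a b c)⟩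
    obtain ⟨U, hU, h1⟩ := hf.1
    exact ⟨U, hU, fun g k w hw w' hw' => Subtype.ext (h1 g k w hw w' hw')⟩
  obtain ⟨a, ha, hfa⟩ := hL.two _ hF fun z hz => by
    obtain ⟨z, rfl⟩ := QuotientAddGroup.mk'_surjective S z
    refine h z fun g => (QuotientAddGroup.eq_zero_iff (σ g z - z)).1 ?_
    have h1 := hz g
    rw [quoA_mk] at h1
    have h2 : QuotientAddGroup.mk' S (σ g z - z) = 0 := by
      rw [map_sub, h1, sub_self]
    exact h2
  refine ⟨fun g => (a g : V), ?_, fun g => (a g).2, ?_⟩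
  · obtain ⟨U, hU, h1⟩ := ha
    exact ⟨U, hU, fun g w hw => congrArg _ (h1 g w hw)⟩
  · funext s t
    have h1 := congrFun (congrFun hfa s) t
    exact congrArg Subtype.val h1

end pairs

private theorem neg_vec {F : Type*} [Field F] [CharP F 2] {n : ℕ} (v : Fin n → F) : -v = v := by
  ext i
  rw [Pi.neg_apply, CharTwo.neg_eq]

/-- `S` is stable -/
private theorem stable_S {F : Type*} [Field F] {n : ℕ} [Sy F n] {P : Type*} [Group P]
    {B : P →* Matrix (Fin n) (Fin n) F} {I S : Submodule F (Fin n → F)} (hsp : ∀ g, IsSp (B g))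
    (hst : ∀ g, ∀ x ∈ I, B g *ᵥ x ∈ I) (pS : ∀ x, x ∈ S ↔ ∀ y ∈ I, ee x y = 0) (g : P)
    {x : Fin n → F} (hx : x ∈ S) : B g *ᵥ x ∈ S := by
  refine (pS _).2 fun y hy => ?_
  have h1 : B g *ᵥ (B g⁻¹ *ᵥ y) = y := by
    rw [mulVec_mulVec, ← map_mul, mul_inv_cancel, map_one, one_mulVec]
  rw [← h1, hsp g]
  exact (pS x).1 hx _ (hst _ _ hy)

theorem od2_of {F : Type v} [Field F] [Finite F] [CharP F 2] [Algebra (ZMod 2) F] {n : ℕ} [Sy F n]
    {P : Type*} [Group P] {T : FSys P} {χ : P → ℤ_[2]} {iv : (P → P → A0) → A0}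
    {B : P →* Matrix (Fin n) (Fin n) F} {I S : Submodule F (Fin n → F)} (p : LocD.{v} T χ iv)
    (hsp : ∀ g, IsSp (B g)) (hsm : Smooth T (KT.act B)) (hst : ∀ g, ∀ x ∈ I, B g *ᵥ x ∈ I)
    (pS : ∀ x, x ∈ S ↔ ∀ y ∈ I, ee x y = 0) : Od2 T iv B I S := by
  have hact : IsAct (KT.act B) := KT.isAct_act B
  have hP := KT.pair_BU p.char hsp hsm
  have hi : ∀ v ∈ I.toAddSubgroup, ∀ w ∈ S.toAddSubgroup, (BU v w : A0) = 0 := fun v hv w hw => by
    rw [KT.BU_apply, KT.ee_comm, (pS w).1 hw v hv, map_zero]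
  have hp : ∀ v, (∀ w ∈ I.toAddSubgroup, (BU w v : A0) = 0) → v ∈ S.toAddSubgroup := fun v hv => by
    refine (pS v).2 fun y hy => hfT_nondeg fun a => ?_
    rw [← KT.ee_smul_right, KT.ee_comm]
    exact hv (a • y) (I.smul_mem a hy)
  intro f hf1 hf2 hf3 h
  have hf : Z2 T (KT.act B) f := by
    refine ⟨hf1, fun a b c => ?_⟩
    have h1 := hf3 a b c
    show B a *ᵥ f b c - f (a * b) c + f a (b * c) - f a b = 0
    rw [sub_eq_add_neg, sub_eq_add_neg, neg_vec, neg_vec]
    exact h1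
  obtain ⟨a, ha1, ha2, ha3⟩ := od_two (I := I.toAddSubgroup) (S := S.toAddSubgroup) p hact
    (fun g w hw => hst g w hw) (fun g w hw => stable_S hsp hst pS g hw) hi hsm hP.eqv hp hP.nd f hf
    hf2 fun z hz => by
      have h1 := h z fun g => by
        have h2 := hz g
        have e : B g *ᵥ z + z = KT.act B g z - z := by
          show B g *ᵥ z + z = B g *ᵥ z - z
          rw [sub_eq_add_neg, neg_vec]
        rw [e]
        exact h2
      have e2 : (fun s t => (BU (f s t) z : A0)) = fun s t => hfT (ee z (f s t)) := by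
        funext s t
        rw [KT.BU_apply, KT.ee_comm]
      rw [e2]
      exact h1
  refine ⟨a, ha1, ha2, fun s t => ?_⟩
  rw [ha3]
  show a s + B s *ᵥ a t - a (s * t) = _
  rw [sub_eq_add_neg, neg_vec]

section euler

variable {F : Type v} [Field F] [Finite F] [CharP F 2] [Algebra (ZMod 2) F] {n : ℕ} [Sy F n]
  {P : Type*} [Group P] {T : FSys P} {B : P →* Matrix (Fin n) (Fin n) F}
  {I S : Submodule F (Fin n → F)}

/-- cocycles with values in `I` -/
private def ZI (T : FSys P) (B : P →* Matrix (Fin n) (Fin n) F) (I : Submodule F (Fin n → F)) :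
    Submodule F (P → Fin n → F) where
  carrier := {x | Z1 T (KT.act B) x ∧ ∀ g, x g ∈ I}
  add_mem' := fun {x y} hx hy =>
    ⟨(cocS T (B : P → Matrix (Fin n) (Fin n) F)).add_mem hx.1 hy.1,
      fun g => I.add_mem (hx.2 g) (hy.2 g)⟩
  zero_mem' := ⟨(cocS T (B : P → Matrix (Fin n) (Fin n) F)).zero_mem, fun _ => I.zero_mem⟩
  smul_mem' := fun a {x} hx =>
    ⟨(cocS T (B : P → Matrix (Fin n) (Fin n) F)).smul_mem a hx.1, fun g => I.smul_mem a (hx.2 g)⟩

private theorem mem_ZI {x : P → Fin n → F} :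
    x ∈ ZI T B I ↔ Z1 T (KT.act B) x ∧ ∀ g, x g ∈ I := Iff.rfl

/-- the invariant homomorphisms -/
private theorem card_inv (hsp : ∀ g, IsSp (B g)) (hst : ∀ g, ∀ x ∈ I, B g *ᵥ x ∈ I)
    (pS : ∀ x, x ∈ S ↔ ∀ y ∈ I, ee x y = 0) :
    Nat.card (fixW B Set.univ S) = Nat.card (EU.invD (subA (σ := KT.act B) (I := I.toAddSubgroup)
      (fun g w hw => hst g w hw))) * Nat.card S := by
  have hst' : ∀ g, ∀ w ∈ I.toAddSubgroup, KT.act B g w ∈ I.toAddSubgroup :=
    fun g w hw => hst g w hw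
  let ψ : fixW B Set.univ S →+ (I.toAddSubgroup →+ ZMod 2) := AddMonoidHom.mk' (fun z =>
    AddMonoidHom.mk' (fun x => Algebra.trace (ZMod 2) F (ee z.1 x.1)) (fun x y => by
      show Algebra.trace (ZMod 2) F (ee z.1 (x.1 + y.1)) = _
      rw [KT.ee_add_right, map_add])) (fun z w => by
      ext x
      show Algebra.trace (ZMod 2) F (ee (z.1 + w.1) x.1) = _
      rw [KT.ee_add_left, map_add]
      rfl)
  have hψ : ∀ z x, hf (ψ z x) = hfT (ee z.1 x.1) := fun z x => rfl
  have hker : ∀ z : fixW B Set.univ S, z ∈ ψ.ker ↔ z.1 ∈ S := by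
    intro z
    rw [AddMonoidHom.mem_ker]
    constructor
    · intro hz
      refine (pS _).2 fun y hy => hfT_nondeg fun a => ?_
      rw [← KT.ee_smul_right]
      have h1 := hψ z ⟨a • y, I.smul_mem a hy⟩
      rw [hz] at h1
      exact h1.symm.trans hf_zero
    · intro hz
      ext x
      refine GP.hf_inj ?_
      rw [hψ, (pS _).1 hz _ x.2, map_zero]
      exact hf_zero.symm
  have hrange : ψ.range = EU.invD (subA hst') := by
    ext l
    constructor
    · rintro ⟨z, rfl⟩ g x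
      refine GP.hf_inj ?_
      rw [hψ, hψ]
      show hfT (ee z.1 (B g *ᵥ x.1)) = hfT (ee z.1 x.1)
      have h1 : ee (B g *ᵥ z.1 + z.1) (B g *ᵥ x.1) = 0 :=
        (pS _).1 (z.2 g (Set.mem_univ g)) _ (hst g _ x.2)
      rw [KT.ee_add_left, hsp g] at h1
      rw [CharTwo.add_eq_zero.1 h1]
    · intro hl
      obtain ⟨z, hz⟩ := GP.exists_rep ((BU : (Fin n → F) →+ (Fin n → F) →+ A0).comp
        I.toAddSubgroup.subtype) ((AddMonoidHom.mk' hf hf_add : ZMod 2 →+ A0).comp l)
        (fun x hx => by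
          have h1 : x = 0 := by
            refine Subtype.ext ?_
            refine KT.ee_nondeg fun y => hfT_nondeg fun a => ?_
            rw [← KT.ee_smul_right]
            exact hx (a • y)
          rw [h1, map_zero])
      have hz' : ∀ x : I.toAddSubgroup, hfT (ee z x.1) = hf (l x) := fun x => by
        rw [KT.ee_comm]
        exact hz x
      refine ⟨⟨z, fun g _ => (pS _).2 fun y hy => hfT_nondeg fun a => ?_⟩, ?_⟩
      · rw [← KT.ee_smul_right]
        have hy' : a • y ∈ I := I.smul_mem a hy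
        have h1 : B g *ᵥ (B g⁻¹ *ᵥ (a • y)) = a • y := by
          rw [mulVec_mulVec, ← map_mul, mul_inv_cancel, map_one, one_mulVec]
        have e1 : ee (B g *ᵥ z) (a • y) = ee z (B g⁻¹ *ᵥ (a • y)) := by
          calc ee (B g *ᵥ z) (a • y) = ee (B g *ᵥ z) (B g *ᵥ (B g⁻¹ *ᵥ (a • y))) := by rw [h1]
            _ = _ := hsp g _ _
        have h2 : l (⟨a • y, hy'⟩ : I.toAddSubgroup) = l ⟨B g⁻¹ *ᵥ (a • y), hst _ _ hy'⟩ := by
          have h3 := hl g ⟨B g⁻¹ *ᵥ (a • y), hst _ _ hy'⟩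
          have h4 : subA hst' g ⟨B g⁻¹ *ᵥ (a • y), hst _ _ hy'⟩ = ⟨a • y, hy'⟩ := Subtype.ext h1
          rwa [h4] at h3
        rw [KT.ee_add_left, map_add, e1, hz' ⟨a • y, hy'⟩, h2,
          hz' ⟨B g⁻¹ *ᵥ (a • y), hst _ _ hy'⟩, ← hf_add, CharTwo.add_self_eq_zero, hf_zero]
      · ext x
        refine GP.hf_inj ?_
        rw [hψ, hz']
  have h1 := AddSubgroup.card_eq_card_quotient_mul_card_addSubgroup ψ.ker
  rw [Nat.card_congr (QuotientAddGroup.quotientKerEquivRange ψ).toEquiv, hrange] at h1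
  rw [h1]
  congr 1
  refine Nat.card_congr ⟨fun z => ⟨z.1.1, (hker z.1).1 z.2⟩, fun z => ⟨⟨z.1, fun g _ =>
    S.add_mem (stable_S hsp hst pS g z.2) z.2⟩, (hker _).2 z.2⟩, fun z => rfl, fun z => rfl⟩

private theorem finrank_ZI {k : ℕ} (hE : Eul.{v} T k) (hsp : ∀ g, IsSp (B g))
    (hsm : Smooth T (KT.act B)) (hst : ∀ g, ∀ x ∈ I, B g *ᵥ x ∈ I)
    (pS : ∀ x, x ∈ S ↔ ∀ y ∈ I, ee x y = 0)
    (hfin : Finite {x : P → Fin n → F // Z1 T (KT.act B) x}) :
    Module.finrank F (ZI T B I) + Module.finrank F S =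
      (k + 1) * Module.finrank F I + Module.finrank F (fixW B Set.univ S) := by
  have hst' : ∀ g, ∀ w ∈ I.toAddSubgroup, KT.act B g w ∈ I.toAddSubgroup :=
    fun g w hw => hst g w hw
  have h1 := hE (X := I.toAddSubgroup) (υ := subA hst') (subA_act (KT.isAct_act B) hst')
    (subA_sm hsm hst') (fun x => Subtype.ext (funext fun i => CharTwo.add_self_eq_zero _))
  have h2 : Nat.card {x : P → I.toAddSubgroup // Z1 T (subA hst') x} = Nat.card (ZI T B I) := by
    refine Nat.card_congr ⟨fun x => ⟨fun g => (x.1 g).1, ⟨?_, fun g => (x.1 g).2⟩⟩,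
      fun x => ⟨fun g => ⟨x.1 g, x.2.2 g⟩, ?_⟩, fun x => rfl, fun x => rfl⟩
    · obtain ⟨⟨U, hU, h⟩, h'⟩ := x.2
      exact ⟨⟨U, hU, fun g w hw => congrArg Subtype.val (h g w hw)⟩,
        fun a b => congrArg Subtype.val (h' a b)⟩
    · obtain ⟨⟨⟨U, hU, h⟩, h'⟩, _⟩ := x.2
      exact ⟨⟨U, hU, fun g w hw => Subtype.ext (h g w hw)⟩, fun a b => Subtype.ext (h' a b)⟩
  have hfin' : Finite (ZI T B I) := Finite.of_injective
    (fun x : ZI T B I => (⟨x.1, x.2.1⟩ : {x : P → Fin n → F // Z1 T (KT.act B) x}))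
    (fun x y h => Subtype.ext (by
      have h1 := congrArg Subtype.val h
      exact h1))
  have h3 := card_inv hsp hst pS
  rw [h2] at h1
  have hq : 1 < Nat.card F := Finite.one_lt_card
  have e1 : Nat.card I.toAddSubgroup = Nat.card F ^ Module.finrank F I :=
    Module.natCard_eq_pow_finrank (K := F) (V := I)
  have e2 : Nat.card S = Nat.card F ^ Module.finrank F S := Module.natCard_eq_pow_finrank
  have e3 : Nat.card (ZI T B I) = Nat.card F ^ Module.finrank F (ZI T B I) :=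
    Module.natCard_eq_pow_finrank
  have e4 : Nat.card (fixW B Set.univ S) = Nat.card F ^ Module.finrank F (fixW B Set.univ S) :=
    Module.natCard_eq_pow_finrank
  refine Nat.pow_right_injective hq ?_
  show Nat.card F ^ _ = Nat.card F ^ _
  rw [pow_add, pow_add, mul_comm (k + 1), pow_mul, ← e1, ← e2, ← e3, ← e4, h1, h3]
  ring

end euler

theorem ec_of_eul {F : Type v} [Field F] [Finite F] [CharP F 2] [Algebra (ZMod 2) F] {n : ℕ}
    [Sy F n] {P : Type*} [Group P] {T : FSys P}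
    {B : P →* Matrix (Fin n) (Fin n) F} {I S : Submodule F (Fin n → F)} {k r : ℕ}
    (hE : Eul.{v} T k) (hsp : ∀ g, IsSp (B g)) (hsm : Smooth T (KT.act B))
    (hst : ∀ g, ∀ x ∈ I, B g *ᵥ x ∈ I)
    (pS : ∀ x, x ∈ S ↔ ∀ y ∈ I, ee x y = 0) (hfin : Finite {x : P → Fin n → F // Z1 T (KT.act B) x})
    (hn : n = 2 * Module.finrank F I + 2 * r) (hr : Even r) : EC T B I S := by
  have hfc : Finite (cocS T (B : P → Matrix (Fin n) (Fin n) F)) := hfin
  have a1 := finrank_ZI hE hsp hsm hst pS hfin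
  have a2 := finrank_ZI (B := B) (I := ⊤) (S := ⊥) hE hsp hsm (fun _ _ _ => trivial) (fun x => by
    rw [Submodule.mem_bot]
    constructor
    · rintro rfl y -
      exact KT.ee_zero_left y
    · intro h
      exact KT.ee_nondeg fun y => h y trivial) hfin
  have b1 : ZI T B ⊤ = cocS T (B : P → Matrix (Fin n) (Fin n) F) := by
    ext x
    exact ⟨fun h => h.1, fun h => ⟨h, fun _ => trivial⟩⟩
  have hself : ∀ v : Fin n → F, v + v = 0 := fun v => funext fun i => CharTwo.add_self_eq_zero _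
  have b2 : fixW (B : P → Matrix (Fin n) (Fin n) F) Set.univ ⊥ = QP.fixG B := by
    ext v
    rw [mem_fixW, QP.mem_fixG]
    constructor
    · intro h g
      have h1 := (Submodule.mem_bot F).1 (h g (Set.mem_univ g))
      rw [← sub_eq_zero, sub_eq_add_neg, neg_vec]
      exact h1
    · intro h g _
      rw [Submodule.mem_bot, h g]
      exact hself v
  rw [b1, b2, finrank_bot, finrank_top, Module.finrank_fin_fun] at a2
  have a3 := QP.finrank_cobS B
  have a4 : Module.finrank F I + Module.finrank F S = n := by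
    have h1 := KS.finrank_ann' (F := F) (b := (Sy.e : (Fin n → F) →ₗ[F] (Fin n → F) →ₗ[F] F))
      (fun x y => KT.ee_comm x y) I
    have h2 : ann (Sy.e : (Fin n → F) →ₗ[F] (Fin n → F) →ₗ[F] F) I = S := by
      ext x
      rw [mem_ann]
      exact (pS x).symm
    rw [h2, KT.ker_e, inf_bot_eq, finrank_bot, add_zero, Module.finrank_fin_fun] at h1
    exact h1
  have hcob : cobS (B : P → Matrix (Fin n) (Fin n) F) ≤ cocS T (B : P → Matrix (Fin n) (Fin n) F) := by
    rintro x ⟨m, hm⟩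
    have h1 := KR.d0_Z1 (KT.isAct_act B) hsm m
    have h2 : x = d0 (KT.act B) m := funext fun g => by
      rw [KT.d0_act]
      exact hm g
    rw [h2]
    exact h1
  have b3 : EW T B I = ZI T B I ⊔ cobS (B : P → Matrix (Fin n) (Fin n) F) := by
    refine le_antisymm ?_ (sup_le ?_ ?_)
    · rintro x ⟨hx, m, hm⟩
      have h1 : (fun g => B g *ᵥ m + m) ∈ cobS (B : P → Matrix (Fin n) (Fin n) F) := ⟨m, fun _ => rfl⟩
      have e : x = (x + fun g => B g *ᵥ m + m) + fun g => B g *ᵥ m + m := by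
        rw [add_assoc]
        have h2 : (fun g => B g *ᵥ m + m) + (fun g => B g *ᵥ m + m) = (0 : P → Fin n → F) :=
          funext fun g => hself _
        rw [h2, add_zero]
      rw [e]
      exact Submodule.add_mem_sup ⟨(cocS T (B : P → Matrix (Fin n) (Fin n) F)).add_mem hx (hcob h1),
        hm⟩ h1
    · intro x hx
      exact ⟨hx.1, 0, fun g => by
        rw [mulVec_zero, add_zero, add_zero]
        exact hx.2 g⟩
    · intro x hx
      obtain ⟨m, hm⟩ := hx
      exact ⟨hcob ⟨m, hm⟩, m, fun g => by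
        rw [hm g, hself]
        exact I.zero_mem⟩
  have hf1 : Module.Finite F (cocS T (B : P → Matrix (Fin n) (Fin n) F)) := Module.Finite.of_finite
  have hle1 : ZI T B I ≤ cocS T (B : P → Matrix (Fin n) (Fin n) F) := fun x hx => hx.1
  have hf2 : Module.Finite F (ZI T B I) := Submodule.finiteDimensional_of_le hle1
  have hf3 : Module.Finite F (cobS (B : P → Matrix (Fin n) (Fin n) F)) :=
    Submodule.finiteDimensional_of_le hcob
  have a5 := Submodule.finrank_sup_add_finrank_inf_eq (ZI T B I)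
    (cobS (B : P → Matrix (Fin n) (Fin n) F))
  rw [← b3] at a5
  have a6 : Module.finrank F ↥(ZI T B I ⊓ cobS (B : P → Matrix (Fin n) (Fin n) F)) +
      Module.finrank F (QP.fixG B) = Module.finrank F (fixW B Set.univ I) := by
    have h1 := LinearMap.finrank_range_add_finrank_ker
      ((QP.cobL B).domRestrict (fixW (B : P → Matrix (Fin n) (Fin n) F) Set.univ I))
    have h2 : LinearMap.range ((QP.cobL B).domRestrict
        (fixW (B : P → Matrix (Fin n) (Fin n) F) Set.univ I)) =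
        ZI T B I ⊓ cobS (B : P → Matrix (Fin n) (Fin n) F) := by
      ext x
      constructor
      · rintro ⟨m, rfl⟩
        refine ⟨⟨hcob ⟨m.1, fun _ => rfl⟩, fun g => m.2 g (Set.mem_univ g)⟩, ⟨m.1, fun _ => rfl⟩⟩
      · rintro ⟨⟨_, h3⟩, m, hm⟩
        exact ⟨⟨m, fun g _ => by rw [← hm g]; exact h3 g⟩, (funext hm).symm⟩
    have h3 : LinearMap.ker ((QP.cobL B).domRestrict
        (fixW (B : P → Matrix (Fin n) (Fin n) F) Set.univ I)) =
        (QP.fixG B).comap (fixW (B : P → Matrix (Fin n) (Fin n) F) Set.univ I).subtype := by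
      rw [← QP.ker_cobL]
      rfl
    have h4 : QP.fixG B ≤ fixW (B : P → Matrix (Fin n) (Fin n) F) Set.univ I := by
      intro v hv g _
      rw [(QP.mem_fixG B).1 hv g, hself]
      exact I.zero_mem
    rw [h2, h3, (Submodule.comapSubtypeEquivOfLe h4).finrank_eq] at h1
    exact h1
  obtain ⟨r', hr'⟩ := hr
  refine ⟨Module.finrank F (fixW B Set.univ S) - (k + 2) * r', ?_⟩
  zify at a1 a2 a3 a4 a5 a6 hn hr'
  linear_combination 2 * a5 - 2 * a6 + 2 * a1 - 2 * a4 + a3 - a2 - (k + 2) * hn - 2 * (k + 2) * hr'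

end Pool.Agent.Work.MP_787500_nt.IU
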