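import Mathlib
import Pool.Agent.Work.MP_787500_nt.IU.AlgA
/-!
# Module Str (size L): the coordinates exist (linear algebra)

`I = Up ⊓ N`, `S = Up ⊔ N`, `h : Or2 B ε Up N`, `τ` with `ε τ = 1`.
* `I` is the annihilator of `S` (`pN`, `pU`) and `S` the annihilator of `I` (double annihilator, `KS.ann_ann`, or dimensions); `B g` preserves `I` and `S`.
* The form `ee` on `Up` has the radical `Up ⊓ N = I` (`pN`). Choose `r` and a surjective linear `l : Up →ₗ F ^ r` with kernel `I` (a basis of `Up ⧸ I`); the form on `F ^ r` with `ee (l x) (l y) = ee x y` is alternating and nondegenerate: the instance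
  `Sy F r` (direct, or `QP.syOf`). `r` even: `n_even`. `n = 2 * finrank I + 2 * r`: `finrank Up + finrank N = n` (`finrank_ann`), `finrank N = finrank Up` (`B τ` is injective and interchanges them), `finrank Up = finrank I + r`.
* `pi1`: on `S` the map `x + y ↦ l x` (`x ∈ Up`, `y ∈ N`; well defined because `Up ⊓ N = I`), extended to `U` linearly (`LinearMap.exists_extend`); `pi2`: `x + y ↦ l (B τ⁻¹ y)` (`B τ⁻¹ N = Up`; `ε τ⁻¹ = 1`). `ker`, `surj`, `UN` clear. `form`: `ee (x + y) (x1 + y1) = ee x x1 + ee y y1`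
  (`Up ⊥ N`), `ee y y1 = ee (B τ⁻¹ y) (B τ⁻¹ y1)`.
* `w₀`: `φ x = rt (qq x + qq (pi1 x) + qq (pi2 x))` is additive on `S` (`qq_add`, `form`) and homogeneous: a linear functional on `S`, extend it, `KT.exists_ee`.
* `g1`, `g2`: let `σ : (F ^ r) ^ 2 →ₗ S` be a linear section of `(pi1, pi2)`; `g1 d u = pi1 (B d (σ (u, 0)))` if `ε d = 0`, `pi1 (B d (σ (0, u)))` if `ε d = 1`, `g2` similarly (`LinearMap.toMatrix`, mulVec). For `x ∈ S` with `pi1 x = 0` (`x ∈ N`) and `ε d = 0`: `B d x ∈ N`, so `pi1 (B d x) = 0`, etc.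
-/

set_option autoImplicit false
set_option linter.unusedSectionVars false

namespace Pool.Agent.Work.MP_787500_nt.IU

open Matrix
open Pool.Agent.Work.MP_787500_nt.GP (A0 hf hf_add hf_zero hf_two hf_neg smul_hf IsAct d0 d1 d2 tw cup11
  cup02 EvPow)
open Pool.Agent.Work.MP_787500_nt.KR (FSys Sm1 Sm2 IsChar Smooth Z1 Z2 B2 LocH Pair LDual LocD zM
  cup11_Z2)
open Pool.Agent.Work.MP_787500_nt.KT hiding Str Rel Sel KH Ai IsP cc ff TT
open Pool.Agent.Work.MP_787500_nt.KS (hfT hfT_apply hfT_sq hfT_two hfT_neg smul_hfT hfT_nondeg hfT_smul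
  inv_zero smul_F dF1 rt rt_sq sm_eps sm1_one sm1_two zmod2_cases hfT_eps_sq exists_mul hfT_eq
  trace_trick sym_rank ann mem_ann finrank_ann)
open Pool.Agent.Work.MP_787500_nt.OR (indW mem_indW fixV mem_fixV fixW mem_fixW k1)


variable {F : Type*} [Field F] [Finite F] [CharP F 2] [Algebra (ZMod 2) F] {n : ℕ} [Sy F n]
  {P : Type*} [Group P] {B : P →* Matrix (Fin n) (Fin n) F} {ε : P → ZMod 2}
  {Up N : Submodule F (Fin n → F)}


private theorem memS {x : Fin n → F} (hx : x ∈ Up ⊔ N) : ∃ a ∈ Up, ∃ b ∈ N, a + b = x :=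
  Submodule.mem_sup.1 hx

private theorem exists_pi (Up N : Submodule F (Fin n → F)) :
    ∃ (r : ℕ) (pi1 : (Fin n → F) →ₗ[F] (Fin r → F)) (s : (Fin r → F) →ₗ[F] (Fin n → F)),
      (∀ x ∈ N, pi1 x = 0) ∧ (∀ x ∈ Up ⊔ N, pi1 x = 0 → x ∈ N) ∧ (∀ u, s u ∈ Up) ∧
      (∀ u, pi1 (s u) = u) ∧ Module.finrank F Up = Module.finrank F ↥(Up ⊓ N) + r := by
  let K : Submodule F ((Fin n → F) ⧸ N) := Up.map N.mkQ
  let e : K ≃ₗ[F] (Fin (Module.finrank F K) → F) := (Module.finBasis F K).equivFun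
  obtain ⟨p, hp⟩ := K.subtype.exists_leftInverse_of_injective (Submodule.ker_subtype K)
  let pi1 : (Fin n → F) →ₗ[F] (Fin (Module.finrank F K) → F) :=
    (e : K →ₗ[F] _).comp (p.comp N.mkQ)
  have hpi : ∀ x, pi1 x = e (p (N.mkQ x)) := fun x => rfl
  have hK : ∀ y (hy : y ∈ K), p y = ⟨y, hy⟩ := fun y hy => LinearMap.congr_fun hp ⟨y, hy⟩
  have h1 : ∀ x ∈ N, pi1 x = 0 := by
    intro x hx
    rw [hpi, (Submodule.Quotient.mk_eq_zero N).2 hx |> (fun h => (h : N.mkQ x = 0)), map_zero,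
      map_zero]
  have h2 : ∀ x ∈ Up ⊔ N, pi1 x = 0 → x ∈ N := by
    intro x hx h0
    obtain ⟨a, ha, b, hb, rfl⟩ := memS hx
    rw [map_add, h1 b hb, add_zero, hpi, hK _ ⟨a, ha, rfl⟩] at h0
    have h3 := e.map_eq_zero_iff.1 h0
    have h4 : N.mkQ a = 0 := congrArg Subtype.val h3
    exact N.add_mem ((Submodule.Quotient.mk_eq_zero N).1 h4) hb
  have h3 : Function.Surjective (pi1.comp Up.subtype) := by
    intro u
    obtain ⟨x, hx, hx'⟩ := (e.symm u).2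
    refine ⟨⟨x, hx⟩, ?_⟩
    show pi1 x = u
    rw [hpi, hK _ ⟨x, hx, rfl⟩]
    have h4 : (⟨N.mkQ x, ⟨x, hx, rfl⟩⟩ : K) = e.symm u := Subtype.ext hx'
    rw [h4, LinearEquiv.apply_symm_apply]
  obtain ⟨s, hs⟩ := (pi1.comp Up.subtype).exists_rightInverse_of_surjective
    (LinearMap.range_eq_top.2 h3)
  refine ⟨_, pi1, Up.subtype.comp s, h1, h2, fun u => (s u).2, fun u => LinearMap.congr_fun hs u, ?_⟩
  have h5 := LinearMap.finrank_range_add_finrank_ker (pi1.comp Up.subtype)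
  rw [LinearMap.range_eq_top.2 h3, finrank_top, Module.finrank_fin_fun] at h5
  have h6 : (LinearMap.ker (pi1.comp Up.subtype)).map Up.subtype = Up ⊓ N := by
    ext x
    constructor
    · rintro ⟨y, hy, rfl⟩
      exact ⟨y.2, h2 _ (Submodule.mem_sup_left y.2) hy⟩
    · rintro ⟨hx, hx'⟩
      exact ⟨⟨x, hx⟩, h1 x hx', rfl⟩
  have h7 := Submodule.finrank_map_subtype_eq Up (LinearMap.ker (pi1.comp Up.subtype))
  rw [h6] at h7
  omega

theorem exists_co (h : Or2 B ε Up N) (headd : ∀ g h, ε (g * h) = ε g + ε h) {τ : P}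
    (hτ : ε τ = 1) : ∃ (r : ℕ) (_ : Sy F r) (pi1 pi2 : (Fin n → F) →ₗ[F] (Fin r → F))
      (w₀ : Fin n → F) (g1 g2 : P → Matrix (Fin r) (Fin r) F),
      Co B ε (Up ⊓ N) (Up ⊔ N) pi1 pi2 w₀ g1 g2 ∧ UN Up N (Up ⊔ N) pi1 pi2 ∧ Even r ∧
      n = 2 * Module.finrank F ↥(Up ⊓ N) + 2 * r := by
  obtain ⟨r, pi1, s, hN, hker, hs, hps, hdim⟩ := exists_pi Up N
  -- orthogonality
  have oUN : ∀ x ∈ Up, ∀ y ∈ N, ee x y = 0 := fun x hx y hy => (h.pU x).1 hx y hy
  have oNU : ∀ x ∈ N, ∀ y ∈ Up, ee x y = 0 := fun x hx y hy => (h.pN x).1 hx y hy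
  have red : ∀ x ∈ Up, x - s (pi1 x) ∈ N := by
    intro x hx
    refine hker _ (Submodule.mem_sup_left (Up.sub_mem hx (hs _))) ?_
    rw [map_sub, hps, sub_self]
  have ee_sub_left : ∀ x y z : Fin n → F, ee (x - y) z = ee x z - ee y z := by
    intro x y z
    show Sy.e (x - y) z = _
    rw [map_sub]; rfl
  have ee_sub_right : ∀ x y z : Fin n → F, ee x (y - z) = ee x y - ee x z := by
    intro x y z
    show Sy.e x (y - z) = _
    rw [map_sub]; rfl
  have eeS : ∀ x ∈ Up, ∀ y ∈ Up, ee x y = ee (s (pi1 x)) (s (pi1 y)) := by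
    intro x hx y hy
    have e1 := oNU _ (red x hx) y hy
    have e2 := oUN _ (hs (pi1 x)) _ (red y hy)
    rw [ee_sub_left] at e1
    rw [ee_sub_right] at e2
    linear_combination e1 + e2
  let I1 : Sy F r :=
    { e := (Sy.e : (Fin n → F) →ₗ[F] (Fin n → F) →ₗ[F] F).compl₁₂ s s
      alt := fun x => ee_self (s x)
      nd := by
        intro x hx
        have e1 : s x ∈ N := by
          rw [h.pN]
          intro y hy
          rw [eeS _ (hs x) y hy, hps]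
          exact hx (pi1 y)
        rw [← hps x]
        exact hN _ e1 }
  have eeI : ∀ u v : Fin r → F, ee u v = ee (s u) (s v) := fun u v => rfl
  have eeU : ∀ x ∈ Up, ∀ y ∈ Up, ee x y = ee (pi1 x) (pi1 y) := fun x hx y hy => by
    rw [eeI, ← eeS x hx y hy]
  -- the element `τ`
  have ε1 : ε 1 = 0 := by
    have e := headd 1 1
    rw [mul_one] at e
    have e2 := congrArg (fun z => z - ε 1) e
    beta_reduce at e2
    rw [sub_self, add_sub_cancel_right] at e2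
    exact e2.symm
  have hτ' : ε τ⁻¹ = 1 := by
    have e := headd τ τ⁻¹
    rw [mul_inv_cancel, ε1, hτ] at e
    rcases zmod2_cases (ε τ⁻¹) with h0 | h0
    · rw [h0, add_zero] at e
      exact absurd e (by decide)
    · exact h0
  have bb : ∀ x, B τ *ᵥ (B τ⁻¹ *ᵥ x) = x := by
    intro x
    rw [mulVec_mulVec, ← map_mul, mul_inv_cancel, map_one, one_mulVec]
  have bb' : ∀ x, B τ⁻¹ *ᵥ (B τ *ᵥ x) = x := by
    intro x
    rw [mulVec_mulVec, ← map_mul, inv_mul_cancel, map_one, one_mulVec]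
  let pi2 : (Fin n → F) →ₗ[F] (Fin r → F) := pi1.comp (Matrix.mulVecLin (B τ⁻¹))
  have hpi2 : ∀ x, pi2 x = pi1 (B τ⁻¹ *ᵥ x) := fun x => rfl
  have hU2 : ∀ x ∈ Up, pi2 x = 0 := fun x hx => hN _ (h.sw0 _ hτ' x hx)
  have swS : ∀ g, ∀ x ∈ Up ⊔ N, B g *ᵥ x ∈ Up ⊔ N := by
    intro g x hx
    obtain ⟨a, ha, b, hb, rfl⟩ := memS hx
    rw [mulVec_add]
    rcases zmod2_cases (ε g) with h0 | h0
    · exact Submodule.add_mem_sup (h.st0 g h0 a ha) (h.st1 g h0 b hb)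
    · rw [add_comm]
      exact Submodule.add_mem_sup (h.sw1 g h0 b hb) (h.sw0 g h0 a ha)
  have hker2 : ∀ x ∈ Up ⊔ N, pi2 x = 0 → x ∈ Up := by
    intro x hx h0
    have e1 := hker _ (swS τ⁻¹ x hx) h0
    rw [← bb x]
    exact h.sw1 _ hτ _ e1
  have mU : ∀ x ∈ Up ⊔ N, x ∈ Up ↔ pi2 x = 0 := fun x hx => ⟨hU2 x, hker2 x hx⟩
  have mN : ∀ x ∈ Up ⊔ N, x ∈ N ↔ pi1 x = 0 := fun x hx => ⟨hN x, hker x hx⟩
  -- the section of `pi2`
  have t2 : ∀ v, B τ *ᵥ s v ∈ N := fun v => h.sw0 _ hτ _ (hs v)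
  have p2t : ∀ v, pi2 (B τ *ᵥ s v) = v := fun v => by rw [hpi2, bb', hps]
  have form : ∀ x ∈ Up ⊔ N, ∀ y ∈ Up ⊔ N,
      ee x y = ee (pi1 x) (pi1 y) + ee (pi2 x) (pi2 y) := by
    intro x hx y hy
    obtain ⟨a, ha, b, hb, rfl⟩ := memS hx
    obtain ⟨a', ha', b', hb', rfl⟩ := memS hy
    rw [map_add, map_add, map_add, map_add, hN b hb, hN b' hb', hU2 a ha, hU2 a' ha', add_zero,
      add_zero, zero_add, zero_add, ee_add_left, ee_add_right, ee_add_right, oUN a ha b' hb',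
      oNU b hb a' ha', add_zero, zero_add, ← eeU a ha a' ha', hpi2, hpi2,
      ← eeU _ (h.sw1 _ hτ' b hb) _ (h.sw1 _ hτ' b' hb'), ee_mulVec (h.sp _)]
  have hsym : ∀ x y : Fin n → F, (Sy.e x y : F) = Sy.e y x := e_symm
  have hkb : LinearMap.ker (Sy.e : (Fin n → F) →ₗ[F] (Fin n → F) →ₗ[F] F) = ⊥ := ker_e
  have annS : ann (Sy.e : (Fin n → F) →ₗ[F] (Fin n → F) →ₗ[F] F) (Up ⊔ N) = Up ⊓ N := by
    ext x
    rw [mem_ann]
    constructor
    · intro hx
      refine ⟨(h.pU x).2 fun y hy => hx y (Submodule.mem_sup_right hy),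
        (h.pN x).2 fun y hy => hx y (Submodule.mem_sup_left hy)⟩
    · rintro ⟨hx, hx'⟩ y hy
      obtain ⟨a, ha, b, hb, rfl⟩ := memS hy
      show ee x (a + b) = 0
      rw [ee_add_right, oNU x hx' a ha, oUN x hx b hb, add_zero]
  have annI : ann (Sy.e : (Fin n → F) →ₗ[F] (Fin n → F) →ₗ[F] F) (Up ⊓ N) = Up ⊔ N := by
    rw [← annS]
    exact KS.ann_ann hsym (by rw [hkb]; exact bot_le)
  have pI : ∀ x, x ∈ Up ⊓ N ↔ ∀ y ∈ Up ⊔ N, ee x y = 0 := by
    intro x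
    rw [← annS, mem_ann]
    rfl
  have pS : ∀ x, x ∈ Up ⊔ N ↔ ∀ y ∈ Up ⊓ N, ee x y = 0 := by
    intro x
    rw [← annI, mem_ann]
    rfl
  -- the vector `w₀`
  obtain ⟨w₀, hw₀⟩ : ∃ w₀ : Fin n → F, ∀ x ∈ Up ⊔ N,
      qq x + ee w₀ x ^ 2 = qq (pi1 x) + qq (pi2 x) := by
    let φ : ↥(Up ⊔ N) →ₗ[F] F :=
      { toFun := fun x => rt (qq x.1 + qq (pi1 x.1) + qq (pi2 x.1))
        map_add' := by
          intro x y
          rw [← map_add]
          congr 1
          show qq (x.1 + y.1) + qq (pi1 (x.1 + y.1)) + qq (pi2 (x.1 + y.1)) = _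
          rw [map_add, map_add, qq_add, qq_add, qq_add, form x.1 x.2 y.1 y.2]
          linear_combination add_self (ee (pi1 x.1) (pi1 y.1)) + add_self (ee (pi2 x.1) (pi2 y.1))
        map_smul' := by
          intro a x
          show rt (qq (a • x.1) + qq (pi1 (a • x.1)) + qq (pi2 (a • x.1))) =
            a * rt (qq x.1 + qq (pi1 x.1) + qq (pi2 x.1))
          rw [map_smul, map_smul, qq_smul, qq_smul, qq_smul, ← mul_add, ← mul_add, map_mul,
            KS.rt_of_sq] }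
    obtain ⟨ψ, hψ⟩ := φ.exists_extend
    obtain ⟨k, hk⟩ := exists_ee ψ
    refine ⟨k, fun x hx => ?_⟩
    have e1 : ψ x = rt (qq x + qq (pi1 x) + qq (pi2 x)) := LinearMap.congr_fun hψ ⟨x, hx⟩
    rw [hk, e1, rt_sq]
    linear_combination add_self (qq x)
  -- the matrices
  let T2 : (Fin r → F) →ₗ[F] (Fin n → F) := (Matrix.mulVecLin (B τ)).comp s
  let g1 : P → Matrix (Fin r) (Fin r) F := fun d =>
    if ε d = 0 then LinearMap.toMatrix' ((pi1.comp (Matrix.mulVecLin (B d))).comp s)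
    else LinearMap.toMatrix' ((pi1.comp (Matrix.mulVecLin (B d))).comp T2)
  let g2 : P → Matrix (Fin r) (Fin r) F := fun d =>
    if ε d = 0 then LinearMap.toMatrix' ((pi2.comp (Matrix.mulVecLin (B d))).comp T2)
    else LinearMap.toMatrix' ((pi2.comp (Matrix.mulVecLin (B d))).comp s)
  have g10 : ∀ d, ε d = 0 → ∀ u, g1 d *ᵥ u = pi1 (B d *ᵥ s u) := by
    intro d h0 u
    show (if ε d = 0 then _ else _) *ᵥ u = _
    rw [if_pos h0, LinearMap.toMatrix'_mulVec]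
    rfl
  have g11 : ∀ d, ε d = 1 → ∀ u, g1 d *ᵥ u = pi1 (B d *ᵥ (B τ *ᵥ s u)) := by
    intro d h0 u
    show (if ε d = 0 then _ else _) *ᵥ u = _
    rw [if_neg (by rw [h0]; decide), LinearMap.toMatrix'_mulVec]
    rfl
  have g20 : ∀ d, ε d = 0 → ∀ u, g2 d *ᵥ u = pi2 (B d *ᵥ (B τ *ᵥ s u)) := by
    intro d h0 u
    show (if ε d = 0 then _ else _) *ᵥ u = _
    rw [if_pos h0, LinearMap.toMatrix'_mulVec]
    rfl
  have g21 : ∀ d, ε d = 1 → ∀ u, g2 d *ᵥ u = pi2 (B d *ᵥ s u) := by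
    intro d h0 u
    show (if ε d = 0 then _ else _) *ᵥ u = _
    rw [if_neg (by rw [h0]; decide), LinearMap.toMatrix'_mulVec]
    rfl
  have dN : ∀ x ∈ Up ⊔ N, ∃ y ∈ N, x = s (pi1 x) + y := by
    intro x hx
    refine ⟨x - s (pi1 x), hker _ (Submodule.sub_mem _ hx (Submodule.mem_sup_left (hs _))) ?_,
      by abel⟩
    rw [map_sub, hps, sub_self]
  have dU : ∀ x ∈ Up ⊔ N, ∃ y ∈ Up, x = B τ *ᵥ s (pi2 x) + y := by
    intro x hx
    refine ⟨x - B τ *ᵥ s (pi2 x), hker2 _ (Submodule.sub_mem _ hx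
      (Submodule.mem_sup_right (t2 _))) ?_, by abel⟩
    rw [map_sub, p2t, sub_self]
  refine ⟨r, I1, pi1, pi2, w₀, g1, g2, ⟨⟨pS, pI, inf_le_left.trans le_sup_left, ?_, ?_, form, hw₀⟩,
    ?_⟩, ⟨le_sup_left, le_sup_right, mU, mN⟩, @n_even F _ _ r I1, ?_⟩
  · intro x hx
    rw [← mU x hx, ← mN x hx]
    exact and_comm
  · intro u v
    refine ⟨s u + B τ *ᵥ s v, Submodule.add_mem_sup (hs u) (t2 v), ?_, ?_⟩
    · rw [map_add, hps, hN _ (t2 v), add_zero]
    · rw [map_add, hU2 _ (hs u), p2t, zero_add]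
  · intro d
    refine ⟨h.sp d, ?_, ?_, ?_⟩
    · rintro x ⟨hx, hx'⟩
      rcases zmod2_cases (ε d) with h0 | h0
      · exact ⟨h.st0 d h0 x hx, h.st1 d h0 x hx'⟩
      · exact ⟨h.sw1 d h0 x hx', h.sw0 d h0 x hx⟩
    · intro h0 x hx
      obtain ⟨y, hy, e1⟩ := dN x hx
      obtain ⟨z, hz, e2⟩ := dU x hx
      refine ⟨?_, ?_⟩
      · rw [g10 d h0]
        conv_lhs => rw [e1]
        rw [mulVec_add, map_add, hN _ (h.st1 d h0 y hy), add_zero]
      · rw [g20 d h0]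
        conv_lhs => rw [e2]
        rw [mulVec_add, map_add, hU2 _ (h.st0 d h0 z hz), add_zero]
    · intro h0 x hx
      obtain ⟨y, hy, e1⟩ := dN x hx
      obtain ⟨z, hz, e2⟩ := dU x hx
      refine ⟨?_, ?_⟩
      · rw [g11 d h0]
        conv_lhs => rw [e2]
        rw [mulVec_add, map_add, hN _ (h.sw0 d h0 z hz), add_zero]
      · rw [g21 d h0]
        conv_lhs => rw [e1]
        rw [mulVec_add, map_add, hU2 _ (h.sw1 d h0 y hy), add_zero]
  · have annU : ann (Sy.e : (Fin n → F) →ₗ[F] (Fin n → F) →ₗ[F] F) Up = N := by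
      ext x
      rw [mem_ann, h.pN]
      rfl
    have e1 := finrank_ann (b := (Sy.e : (Fin n → F) →ₗ[F] (Fin n → F) →ₗ[F] F)) hsym
      (N := Up) (by rw [hkb]; exact bot_le)
    rw [annU, hkb, finrank_bot, Module.finrank_fin_fun] at e1
    have inj : ∀ g, Function.Injective (Matrix.mulVecLin (B g)) := by
      intro g
      rw [injective_iff_map_eq_zero]
      intro x hx
      exact sp_inj (h.sp g) hx
    have e2 : Module.finrank F Up ≤ Module.finrank F N := by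
      rw [(Submodule.equivMapOfInjective _ (inj τ) Up).finrank_eq]
      refine Submodule.finrank_mono ?_
      rintro _ ⟨x, hx, rfl⟩
      exact h.sw0 τ hτ x hx
    have e3 : Module.finrank F N ≤ Module.finrank F Up := by
      rw [(Submodule.equivMapOfInjective _ (inj τ) N).finrank_eq]
      refine Submodule.finrank_mono ?_
      rintro _ ⟨x, hx, rfl⟩
      exact h.sw1 τ hτ x hx
    omega

end Pool.Agent.Work.MP_787500_nt.IU
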