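import Mathlib
import Pool.Agent.Work.MP_787500_nt.IU.AlgA
/-!
# Module Red1 (size L): the parity of the number of fixed vectors (PURE linear algebra in characteristic 2)

Let `X = {(w, x) ∈ U × (F ^ r) ^ 2 : g w + w ∈ S, (pi1 (g w + w), pi2 (g w + w)) = gb x + x}` and
`Φ ((w, x), (w1, x1)) = ee w1 (g w + w) + ee x1.1 (gb x + x).1 + ee x1.2 (gb x + x).2`, a bilinear form on `X`.
* SYMMETRIC: `ee w1 (g w + w) + ee w (g w1 + w1) = ee (g w + w) (g w1 + w1)` (`ee (g w) (g w1) = ee w w1`) and the same for `gb` (it preserves the form `ee .1 .1 + ee .2 .2`: `sp1`, `sp2`); the two right sides are equal by `hf.form`.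
* DIAGONAL: `q1 x = qq x + ee w₀ x ^ 2`, `d = g w + w`: `q1 d + ee w d = ee (k1 w₀ g) (w + d) ^ 2` (`diag_z`), and with `Q x = qq x.1 + qq x.2`, `db = gb x + x = (pi1 d, pi2 d)`: `Q db + ee (x, db) = ee ((kk g1, kk g2), x + db) ^ 2`; `q1 d = Q db` (`hf.quad`),
  `ee (k1 w₀ g) d = ee ((kk g1, kk g2), db)` (`k1_coord`, `hf.form`). So `Φ ((w, x), (w, x)) = (ee (k1 w₀ g) w + ee (kk g1) x.1 + ee (kk g2) x.2) ^ 2 = Φ ((v, x0), (w, x)) ^ 2` with the given `v`, `x0 = x` (`(v, x0) ∈ X` by `k1_coord`).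
* `KS.sym_rank`: `finrank X = finrank (ker Φ) + Φ ((v, x0), (v, x0))`, and the last number is `ee v (k1 w₀ g) + ee x0.1 (kk g1) + ee x0.2 (kk g2)`.
* DIMENSIONS. Let `σ : (F ^ r) ^ 2 → S` be a linear section of `(pi1, pi2)`. `(w, x) ∈ X` iff `w1 := w - σ x` satisfies `g w1 + w1 ∈ I`. So `finrank X = finrank {w1 : g w1 + w1 ∈ I} + 2 r`. `ker Φ = {(w, x) ∈ X : g w + w ∈ (g + 1) S}`, because
  `Φ ((w, x), (w1 + σ x1, x1)) = ee w1 (g w + w)` (the other terms cancel by `hf.form`), and the annihilator of `{w1 : g w1 + w1 ∈ I}` is `(g + 1) S` (`{w1 ..}` is the annihilator of `(g + 1) S`: `hf.pI`, `ee (g w1 + w1) (g s) = ee w1 (g s + s)`, `surjS`; double annihilator `KS.ann_ann`).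
  `(w, x) ∈ ker Φ` iff `w = s + f`, `s ∈ S`, `g f = f`, and `x - (pi1 s, pi2 s)` is fixed by `gb`: `finrank (ker Φ) = finrank (S ⊔ fixv g) + finrank (fixb ..)`.
  `finrank {w1 : g w1 + w1 ∈ I} = n - finrank ((g + 1) S) = n - (finrank S - finrank (S ⊓ fixv g))`, `finrank (S ⊔ fixv g) = finrank S + finrank (fixv g) - finrank (S ⊓ fixv g)`. The sum `finrank X + finrank (ker Φ)` is
  `n + 2 r + finrank (fixv g) + finrank (fixb ..)`, and `n` is even (`n_even`).
-/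

set_option autoImplicit false
set_option linter.unusedSectionVars false

namespace Pool.Agent.Work.MP_787500_nt.IU

open Matrix
open Pool.Agent.Work.MP_787500_nt.GP (A0 hf hf_add hf_zero hf_two hf_neg smul_hf IsAct d0 d1 d2 tw cup11
  cup02 EvPow)
open Pool.Agent.Work.MP_787500_nt.KR (FSys Sm1 Sm2 IsChar Smooth Z1 Z2 B2 LocH Pair LDual LocD zM
  cup11_Z2)
open Pool.Agent.Work.MP_787500_nt.KT hiding Str Rel Sel KH Ai IsP cc ff TT
open Pool.Agent.Work.MP_787500_nt.KS (hfT hfT_apply hfT_sq hfT_two hfT_neg smul_hfT hfT_nondeg hfT_smul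
  inv_zero smul_F dF1 rt rt_sq sm_eps sm1_one sm1_two zmod2_cases hfT_eps_sq exists_mul hfT_eq
  trace_trick sym_rank ann mem_ann finrank_ann)
open Pool.Agent.Work.MP_787500_nt.OR (indW mem_indW fixV mem_fixV fixW mem_fixW k1)


variable {F : Type*} [Field F] [CharP F 2] [PerfectRing F 2] {n r : ℕ} [Sy F n] [Sy F r]
  {I S : Submodule F (Fin n → F)} {pi1 pi2 : (Fin n → F) →ₗ[F] (Fin r → F)} {w₀ : Fin n → F}
  {g : Matrix (Fin n) (Fin n) F} {sw : ZMod 2} {g1 g2 : Matrix (Fin r) (Fin r) F}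

namespace Red1

/-- the form on pairs -/
def EE (x y : (Fin r → F) × (Fin r → F)) : F := ee x.1 y.1 + ee x.2 y.2

theorem EE_add_left (x y z : (Fin r → F) × (Fin r → F)) : EE (x + y) z = EE x z + EE y z := by
  simp only [EE, Prod.fst_add, Prod.snd_add, ee_add_left]
  ring

theorem EE_add_right (x y z : (Fin r → F) × (Fin r → F)) : EE x (y + z) = EE x y + EE x z := by
  simp only [EE, Prod.fst_add, Prod.snd_add, ee_add_right]
  ring

theorem EE_smul_left (a : F) (x y : (Fin r → F) × (Fin r → F)) : EE (a • x) y = a * EE x y := by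
  simp only [EE, Prod.smul_fst, Prod.smul_snd, ee_smul_left]
  ring

theorem EE_smul_right (a : F) (x y : (Fin r → F) × (Fin r → F)) : EE x (a • y) = a * EE x y := by
  simp only [EE, Prod.smul_fst, Prod.smul_snd, ee_smul_right]
  ring

theorem EE_comm (x y : (Fin r → F) × (Fin r → F)) : EE x y = EE y x := by
  simp only [EE]
  rw [ee_comm x.1, ee_comm x.2]

theorem EE_self (x : (Fin r → F) × (Fin r → F)) : EE x x = 0 := by
  simp only [EE, ee_self, add_zero]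

/-- both coordinates -/
def Pi (pi1 pi2 : (Fin n → F) →ₗ[F] (Fin r → F)) : (Fin n → F) →ₗ[F] ((Fin r → F) × (Fin r → F)) :=
  pi1.prod pi2

theorem Pi_apply (x : Fin n → F) : Pi pi1 pi2 x = (pi1 x, pi2 x) := rfl

theorem pi_g (h : Ac I S pi1 pi2 g sw g1 g2) {x : Fin n → F} (hx : x ∈ S) :
    Pi pi1 pi2 (g *ᵥ x) = gb sw g1 g2 (Pi pi1 pi2 x) := by
  rcases zmod2_cases sw with h0 | h0
  · obtain ⟨h1, h2⟩ := h.a0 h0 x hx
    rw [Pi_apply, Pi_apply, h0, gb_zero, h1, h2]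
  · obtain ⟨h1, h2⟩ := h.a1 h0 x hx
    rw [Pi_apply, Pi_apply, h0, gb_one, h1, h2]

theorem EE_gb (hf : Fl I S pi1 pi2 w₀) (h : Ac I S pi1 pi2 g sw g1 g2)
    (x y : (Fin r → F) × (Fin r → F)) : EE (gb sw g1 g2 x) (gb sw g1 g2 y) = EE x y := by
  have e1 := sp1 hf h
  have e2 := sp2 hf h
  rcases zmod2_cases sw with h0 | h0
  · rw [h0, gb_zero, gb_zero]
    simp only [EE, ee_mulVec e1, ee_mulVec e2]
  · rw [h0, gb_one, gb_one]
    simp only [EE, ee_mulVec e1, ee_mulVec e2]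
    ring

/-- `gb + 1` -/
def db (sw : ZMod 2) (g1 g2 : Matrix (Fin r) (Fin r) F) :
    ((Fin r → F) × (Fin r → F)) →ₗ[F] ((Fin r → F) × (Fin r → F)) := gb sw g1 g2 + LinearMap.id

theorem db_apply (x : (Fin r → F) × (Fin r → F)) : db sw g1 g2 x = gb sw g1 g2 x + x := rfl

theorem V_add_self (x : (Fin r → F) × (Fin r → F)) : x + x = 0 :=
  Prod.ext (U_add_self _) (U_add_self _)

theorem Q_gb (hf : Fl I S pi1 pi2 w₀) (h : Ac I S pi1 pi2 g sw g1 g2)
    (x : (Fin r → F) × (Fin r → F)) :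
    (qq (db sw g1 g2 x).1 + qq (db sw g1 g2 x).2) + EE x (db sw g1 g2 x) =
      EE (kk g1, kk g2) (gb sw g1 g2 x) ^ 2 := by
  have e1 := sp1 hf h
  have e2 := sp2 hf h
  rcases zmod2_cases sw with h0 | h0
  · rw [db_apply, h0, gb_zero]
    simp only [EE, Prod.fst_add, Prod.snd_add, qq_add, ee_add_right, ee_self]
    have h1 := qq_mulVec e1 x.1
    have h2 := qq_mulVec e2 x.2
    rw [sq_add, ← h1, ← h2, ee_comm x.1, ee_comm x.2]
    linear_combination (norm := (ring_nf; reduce_mod_char!))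
  · rw [db_apply, h0, gb_one]
    simp only [EE, Prod.fst_add, Prod.snd_add, qq_add, ee_add_right, ee_self]
    have h1 := qq_mulVec e1 x.2
    have h2 := qq_mulVec e2 x.1
    rw [sq_add, ← h1, ← h2, ee_comm x.1, ee_comm x.2]
    linear_combination (norm := (ring_nf; reduce_mod_char!))

/-- the space of pairs -/
def XX (S : Submodule F (Fin n → F)) (pi1 pi2 : (Fin n → F) →ₗ[F] (Fin r → F))
    (g : Matrix (Fin n) (Fin n) F) (sw : ZMod 2) (g1 g2 : Matrix (Fin r) (Fin r) F) :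
    Submodule F ((Fin n → F) × ((Fin r → F) × (Fin r → F))) :=
  S.comap ((sb g).comp (LinearMap.fst F _ _)) ⊓
    LinearMap.ker ((Pi pi1 pi2).comp ((sb g).comp (LinearMap.fst F _ _)) -
      (db sw g1 g2).comp (LinearMap.snd F _ _))

theorem mem_XX {p : (Fin n → F) × ((Fin r → F) × (Fin r → F))} :
    p ∈ XX S pi1 pi2 g sw g1 g2 ↔ sb g p.1 ∈ S ∧ Pi pi1 pi2 (sb g p.1) = db sw g1 g2 p.2 := by
  unfold XX
  rw [Submodule.mem_inf, LinearMap.mem_ker, LinearMap.sub_apply, sub_eq_zero]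
  rfl

/-- the form on the space of pairs -/
noncomputable def Ph (S : Submodule F (Fin n → F)) (pi1 pi2 : (Fin n → F) →ₗ[F] (Fin r → F))
    (g : Matrix (Fin n) (Fin n) F) (sw : ZMod 2) (g1 g2 : Matrix (Fin r) (Fin r) F) :
    XX S pi1 pi2 g sw g1 g2 →ₗ[F] XX S pi1 pi2 g sw g1 g2 →ₗ[F] F :=
  LinearMap.mk₂ F (fun a b => ee b.1.1 (sb g a.1.1) + EE b.1.2 (db sw g1 g2 a.1.2))
    (fun a a' b => by
      show ee b.1.1 (sb g (a.1.1 + a'.1.1)) + EE b.1.2 (db sw g1 g2 (a.1.2 + a'.1.2)) = _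
      rw [map_add, map_add, ee_add_right, EE_add_right]
      ring)
    (fun c a b => by
      show ee b.1.1 (sb g (c • a.1.1)) + EE b.1.2 (db sw g1 g2 (c • a.1.2)) = _
      rw [map_smul, map_smul, ee_smul_right, EE_smul_right, smul_eq_mul]
      ring)
    (fun a b b' => by
      show ee (b.1.1 + b'.1.1) (sb g a.1.1) + EE (b.1.2 + b'.1.2) (db sw g1 g2 a.1.2) = _
      rw [ee_add_left, EE_add_left]
      ring)
    (fun c a b => by
      show ee (c • b.1.1) (sb g a.1.1) + EE (c • b.1.2) (db sw g1 g2 a.1.2) = _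
      rw [ee_smul_left, EE_smul_left, smul_eq_mul]
      ring)

theorem Ph_apply (a b : XX S pi1 pi2 g sw g1 g2) :
    Ph S pi1 pi2 g sw g1 g2 a b = ee b.1.1 (sb g a.1.1) + EE b.1.2 (db sw g1 g2 a.1.2) := rfl

theorem Ph_symm (hf : Fl I S pi1 pi2 w₀) (h : Ac I S pi1 pi2 g sw g1 g2)
    (a b : XX S pi1 pi2 g sw g1 g2) :
    Ph S pi1 pi2 g sw g1 g2 a b = Ph S pi1 pi2 g sw g1 g2 b a := by
  obtain ⟨⟨w, x⟩, ha⟩ := a
  obtain ⟨⟨w', x'⟩, hb⟩ := b
  rw [mem_XX] at ha hb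
  rw [Ph_apply, Ph_apply]
  dsimp only at ha hb ⊢
  have h1 : ee (sb g w) (sb g w') = EE (db sw g1 g2 x) (db sw g1 g2 x') := by
    rw [← ha.2, ← hb.2]
    exact hf.form _ ha.1 _ hb.1
  have h2 := EE_gb hf h x x'
  have h3 := ee_mulVec h.sp w w'
  rw [sb_apply, sb_apply] at h1 ⊢
  rw [db_apply, db_apply] at h1 ⊢
  simp only [ee_add_left, ee_add_right, EE_add_left, EE_add_right, h2, h3] at h1 ⊢
  rw [ee_comm w' (g *ᵥ w), ee_comm w' w, EE_comm x' (gb sw g1 g2 x), EE_comm x' x]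
  linear_combination (norm := (ring_nf; reduce_mod_char!)) h1

theorem Ph_diag (hf : Fl I S pi1 pi2 w₀) (h : Ac I S pi1 pi2 g sw g1 g2)
    (a k : XX S pi1 pi2 g sw g1 g2) (hk1 : sb g k.1.1 = k1 w₀ g)
    (hk2 : db sw g1 g2 k.1.2 = (kk g1, kk g2)) :
    Ph S pi1 pi2 g sw g1 g2 a a = Ph S pi1 pi2 g sw g1 g2 k a ^ 2 := by
  obtain ⟨⟨w, x⟩, ha⟩ := a
  rw [mem_XX] at ha
  rw [Ph_apply, Ph_apply, hk1, hk2]
  dsimp only at ha ⊢
  obtain ⟨hkS, hp1, hp2⟩ := k1_coord hf h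
  have h1 := diag_z (w₀ := w₀) h.sp w
  have h2 := Q_gb hf h x
  have h3 := hf.quad _ ha.1
  have h4 := hf.form _ hkS _ ha.1
  have ha1 : pi1 (sb g w) = (db sw g1 g2 x).1 := congrArg Prod.fst ha.2
  have ha2 : pi2 (sb g w) = (db sw g1 g2 x).2 := congrArg Prod.snd ha.2
  rw [ha1, ha2] at h3 h4
  rw [hp1, hp2] at h4
  rw [← sb_apply, h3] at h1
  have h5 : ee (k1 w₀ g) (w + sb g w) = ee w (k1 w₀ g) + EE (kk g1, kk g2) (db sw g1 g2 x) := by
    rw [ee_add_right, ee_comm, h4]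
    rfl
  have h6 : EE (kk g1, kk g2) (gb sw g1 g2 x) = EE x (kk g1, kk g2) +
      EE (kk g1, kk g2) (db sw g1 g2 x) := by
    rw [db_apply, EE_add_right, EE_comm x]
    linear_combination (norm := (ring_nf; reduce_mod_char!))
  rw [h5] at h1
  rw [h6] at h2
  rw [sq_add] at h1 h2 ⊢
  linear_combination (norm := (ring_nf; reduce_mod_char!)) h1 + h2

/-! ### Dimensions -/

theorem ann_map (hf : Fl I S pi1 pi2 w₀) (h : Ac I S pi1 pi2 g sw g1 g2) :
    ann (Sy.e : (Fin n → F) →ₗ[F] (Fin n → F) →ₗ[F] F) (S.map (sb g)) = I.comap (sb g) := by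
  ext y
  rw [mem_ann, Submodule.mem_comap, hf.pI]
  constructor
  · intro h1 z hz
    obtain ⟨x, hx, rfl⟩ := surjS hf h hz
    have h2 : ee y (sb g x) = 0 := h1 (sb g x) ⟨x, hx, rfl⟩
    rw [sb_apply] at h2 ⊢
    rw [ee_add_right] at h2
    rw [ee_add_left, ee_mulVec h.sp]
    linear_combination h2
  · rintro h1 _ ⟨x, hx, rfl⟩
    have h2 := h1 (g *ᵥ x) (stS hf h hx)
    show ee y (sb g x) = 0
    rw [sb_apply, ee_add_left, ee_mulVec h.sp] at h2
    rw [sb_apply, ee_add_right]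
    linear_combination h2

theorem dim_d (hf : Fl I S pi1 pi2 w₀) (h : Ac I S pi1 pi2 g sw g1 g2) :
    Module.finrank F (S.map (sb g)) + Module.finrank F (I.comap (sb g)) = n := by
  have h3 := finrank_ann (b := (Sy.e : (Fin n → F) →ₗ[F] (Fin n → F) →ₗ[F] F)) e_symm
    (N := S.map (sb g)) (by rw [ker_e]; exact bot_le)
  rw [ann_map hf h, ker_e, finrank_bot, Module.finrank_fin_fun] at h3
  exact h3

theorem dim_e (hf : Fl I S pi1 pi2 w₀) : Module.finrank F I + Module.finrank F S = n := by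
  have h3 := finrank_ann (b := (Sy.e : (Fin n → F) →ₗ[F] (Fin n → F) →ₗ[F] F)) e_symm
    (N := I) (by rw [ker_e]; exact bot_le)
  have h4 : ann (Sy.e : (Fin n → F) →ₗ[F] (Fin n → F) →ₗ[F] F) I = S := by
    ext y
    rw [mem_ann, hf.pS]
    rfl
  rw [h4, ker_e, finrank_bot, Module.finrank_fin_fun] at h3
  exact h3

theorem dim_c (S : Submodule F (Fin n → F)) (g : Matrix (Fin n) (Fin n) F) :
    Module.finrank F (S.map (sb g)) + Module.finrank F (S ⊓ fixv g : Submodule F (Fin n → F)) =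
      Module.finrank F S := by
  have h1 := LinearMap.finrank_range_add_finrank_ker ((sb g).domRestrict S)
  have h2 : LinearMap.range (Submodule.inclusion (inf_le_left : S ⊓ fixv g ≤ S)) =
      LinearMap.ker ((sb g).domRestrict S) := by
    ext ⟨x, hx⟩
    rw [LinearMap.mem_ker, LinearMap.domRestrict_apply, LinearMap.mem_range]
    constructor
    · rintro ⟨⟨y, hy⟩, hxy⟩
      have h3 : y = x := congrArg Subtype.val hxy
      subst h3
      show sb g y = 0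
      rw [sb_apply, mem_fixv.1 hy.2, U_add_self]
    · intro h3
      have h4 : sb g x = 0 := h3
      rw [sb_apply] at h4
      have h5 := U_cancel h4
      rw [add_zero] at h5
      exact ⟨⟨x, hx, h5⟩, rfl⟩
  have h3 := LinearMap.finrank_range_of_inj
    (Submodule.inclusion_injective (inf_le_left : S ⊓ fixv g ≤ S))
  rw [← h2, h3, LinearMap.range_domRestrict] at h1
  exact h1

theorem sb_S (hf : Fl I S pi1 pi2 w₀) (h : Ac I S pi1 pi2 g sw g1 g2) {s : Fin n → F}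
    (hs : s ∈ S) : sb g s ∈ S ∧ Pi pi1 pi2 (sb g s) = db sw g1 g2 (Pi pi1 pi2 s) := by
  constructor
  · rw [sb_apply]
    exact S.add_mem (stS hf h hs) hs
  · rw [sb_apply, map_add, pi_g h hs, db_apply]

theorem Pi_I (hf : Fl I S pi1 pi2 w₀) {x : Fin n → F} (hx : x ∈ S) :
    x ∈ I ↔ Pi pi1 pi2 x = 0 := by
  rw [hf.ker x hx, Pi_apply, Prod.mk_eq_zero]

theorem U_eq {u v : Fin n → F} (h : u + v = 0) : u = v := by
  have := U_cancel h
  rwa [add_zero] at this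

theorem V_eq {u v : (Fin r → F) × (Fin r → F)} (h : u + v = 0) : u = v := by
  have h1 := congrArg (fun x => x + v) h
  beta_reduce at h1
  rwa [add_assoc, V_add_self, add_zero, zero_add] at h1

/-- `(a, s) ↦ (a + s, Pi s)` -/
def f1 (I S : Submodule F (Fin n → F)) (pi1 pi2 : (Fin n → F) →ₗ[F] (Fin r → F))
    (g : Matrix (Fin n) (Fin n) F) :
    (I.comap (sb g) × S) →ₗ[F] ((Fin n → F) × ((Fin r → F) × (Fin r → F))) :=
  ((I.comap (sb g)).subtype.coprod S.subtype).prod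
    (((Pi pi1 pi2).comp S.subtype).comp (LinearMap.snd F _ _))

theorem f1_apply (a : I.comap (sb g)) (s : S) :
    f1 I S pi1 pi2 g (a, s) = ((a : Fin n → F) + s, Pi pi1 pi2 s) := rfl

theorem range_f1 (hf : Fl I S pi1 pi2 w₀) (h : Ac I S pi1 pi2 g sw g1 g2) :
    LinearMap.range (f1 I S pi1 pi2 g) = XX S pi1 pi2 g sw g1 g2 := by
  ext p
  rw [mem_XX]
  constructor
  · rintro ⟨⟨⟨a, ha⟩, ⟨s, hs⟩⟩, rfl⟩
    rw [f1_apply]
    rw [Submodule.mem_comap] at ha
    dsimp only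
    obtain ⟨h1, h2⟩ := sb_S hf h hs
    rw [map_add, map_add, h2, (Pi_I hf (hf.le ha)).1 ha, zero_add]
    exact ⟨S.add_mem (hf.le ha) h1, rfl⟩
  · rintro ⟨h1, h2⟩
    obtain ⟨w, u, v⟩ := p
    dsimp only at h1 h2
    obtain ⟨s, hs, hu, hv⟩ := hf.surj u v
    have hps : Pi pi1 pi2 s = (u, v) := by rw [Pi_apply, hu, hv]
    obtain ⟨h3, h4⟩ := sb_S hf h hs
    have h5 : w + s ∈ I.comap (sb g) := by
      rw [Submodule.mem_comap, map_add, Pi_I hf (S.add_mem h1 h3), map_add, h2, h4, hps,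
        V_add_self]
    refine ⟨(⟨w + s, h5⟩, ⟨s, hs⟩), ?_⟩
    rw [f1_apply]
    dsimp only
    rw [hps, add_assoc, U_add_self, add_zero]

/-- `i ↦ (i, i)` -/
def i1 (hle : I ≤ S) (hI : I ≤ I.comap (sb g)) : I →ₗ[F] (I.comap (sb g) × S) :=
  (Submodule.inclusion hI).prod (Submodule.inclusion hle)

theorem dim_a (hf : Fl I S pi1 pi2 w₀) (h : Ac I S pi1 pi2 g sw g1 g2) :
    Module.finrank F (XX S pi1 pi2 g sw g1 g2) + Module.finrank F I =
      Module.finrank F (I.comap (sb g)) + Module.finrank F S := by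
  have hI : I ≤ I.comap (sb g) := fun x hx => I.add_mem (h.st x hx) hx
  have h1 := LinearMap.finrank_range_add_finrank_ker (f1 I S pi1 pi2 g)
  have h2 : LinearMap.range (i1 (g := g) hf.le hI) = LinearMap.ker (f1 I S pi1 pi2 g) := by
    ext ⟨⟨a, ha⟩, ⟨s, hs⟩⟩
    rw [LinearMap.mem_ker, LinearMap.mem_range, f1_apply, Prod.mk_eq_zero]
    dsimp only
    constructor
    · rintro ⟨⟨y, hy⟩, hxy⟩
      have h3 : y = a := congrArg (fun x => (x.1 : Fin n → F)) hxy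
      have h4 : y = s := congrArg (fun x => (x.2 : Fin n → F)) hxy
      subst h3 h4
      exact ⟨U_add_self _, (Pi_I hf hs).1 hy⟩
    · rintro ⟨h3, h4⟩
      have h5 := U_eq h3
      subst h5
      exact ⟨⟨a, (Pi_I hf hs).2 h4⟩, rfl⟩
  have h3 : Function.Injective (i1 (g := g) hf.le hI) := by
    intro x y hxy
    exact Subtype.ext (congrArg (fun x => (x.1 : Fin n → F)) hxy)
  have h4 := LinearMap.finrank_range_of_inj h3
  rw [← h2, h4, range_f1 hf h, Module.finrank_prod] at h1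
  exact h1

theorem mem_ker_Ph (hf : Fl I S pi1 pi2 w₀) (h : Ac I S pi1 pi2 g sw g1 g2)
    {a : XX S pi1 pi2 g sw g1 g2} :
    a ∈ LinearMap.ker (Ph S pi1 pi2 g sw g1 g2) ↔ sb g a.1.1 ∈ S.map (sb g) := by
  rw [LinearMap.mem_ker]
  constructor
  · intro h1
    have h2 := KS.ann_ann (b := (Sy.e : (Fin n → F) →ₗ[F] (Fin n → F) →ₗ[F] F)) e_symm
      (N := S.map (sb g)) (by rw [ker_e]; exact bot_le)
    rw [ann_map hf h] at h2
    rw [← h2, mem_ann]
    intro y hy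
    rw [Submodule.mem_comap] at hy
    have h3 : ((y, 0) : (Fin n → F) × ((Fin r → F) × (Fin r → F))) ∈ XX S pi1 pi2 g sw g1 g2 := by
      rw [mem_XX]
      refine ⟨hf.le hy, ?_⟩
      rw [(Pi_I hf (hf.le hy)).1 hy, map_zero]
    have h4 : Ph S pi1 pi2 g sw g1 g2 a ⟨_, h3⟩ = 0 := by rw [h1, LinearMap.zero_apply]
    rw [Ph_apply] at h4
    dsimp only at h4
    rw [EE, Prod.fst_zero, Prod.snd_zero, ee_zero_left, ee_zero_left, add_zero, add_zero] at h4
    show ee (sb g a.1.1) y = 0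
    rw [ee_comm]
    exact h4
  · rintro ⟨s, hs, h1⟩
    refine LinearMap.ext fun b => ?_
    rw [LinearMap.zero_apply]
    have h2 : (s, Pi pi1 pi2 s) ∈ XX S pi1 pi2 g sw g1 g2 := by
      rw [mem_XX]
      exact sb_S hf h hs
    have ha := mem_XX.1 a.2
    have hb := mem_XX.1 b.2
    have h3 : Ph S pi1 pi2 g sw g1 g2 a b = Ph S pi1 pi2 g sw g1 g2 ⟨_, h2⟩ b := by
      rw [Ph_apply, Ph_apply]
      dsimp only
      rw [← ha.2, ← h1, (sb_S hf h hs).2]
    rw [h3, Ph_symm hf h, Ph_apply]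
    dsimp only
    rw [← hb.2, hf.form s hs _ hb.1]
    show _ + (ee (pi1 s) (pi1 _) + ee (pi2 s) (pi2 _)) = 0
    exact add_self _

/-- `(s, f, b) ↦ (s + f, Pi s + b)` -/
def f2 (S : Submodule F (Fin n → F)) (pi1 pi2 : (Fin n → F) →ₗ[F] (Fin r → F))
    (g : Matrix (Fin n) (Fin n) F) (sw : ZMod 2) (g1 g2 : Matrix (Fin r) (Fin r) F) :
    ((S × fixv g) × fixb sw g1 g2) →ₗ[F] ((Fin n → F) × ((Fin r → F) × (Fin r → F))) :=
  ((S.subtype.coprod (fixv g).subtype).comp (LinearMap.fst F _ _)).prod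
    ((((Pi pi1 pi2).comp S.subtype).comp (LinearMap.fst F _ _)).coprod (fixb sw g1 g2).subtype)

theorem f2_apply (s : S) (f : fixv g) (b : fixb sw g1 g2) :
    f2 S pi1 pi2 g sw g1 g2 ((s, f), b) =
      ((s : Fin n → F) + f, Pi pi1 pi2 s + (b : (Fin r → F) × (Fin r → F))) := rfl

theorem db_fixb {b : (Fin r → F) × (Fin r → F)} : b ∈ fixb sw g1 g2 ↔ db sw g1 g2 b = 0 := by
  rw [mem_fixb, db_apply]
  constructor
  · intro h
    rw [h, V_add_self]
  · exact V_eq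

theorem sb_fixv {f : Fin n → F} : f ∈ fixv g ↔ sb g f = 0 := by
  rw [mem_fixv, sb_apply]
  constructor
  · intro h
    rw [h, U_add_self]
  · exact U_eq

theorem range_f2 (hf : Fl I S pi1 pi2 w₀) (h : Ac I S pi1 pi2 g sw g1 g2) :
    LinearMap.range (f2 S pi1 pi2 g sw g1 g2) =
      (LinearMap.ker (Ph S pi1 pi2 g sw g1 g2)).map (XX S pi1 pi2 g sw g1 g2).subtype := by
  ext p
  constructor
  · rintro ⟨⟨⟨⟨s, hs⟩, ⟨f, hff⟩⟩, ⟨b, hb⟩⟩, rfl⟩
    rw [f2_apply]
    dsimp only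
    rw [sb_fixv] at hff
    rw [db_fixb] at hb
    obtain ⟨h1, h2⟩ := sb_S hf h hs
    have h3 : (s + f, Pi pi1 pi2 s + b) ∈ XX S pi1 pi2 g sw g1 g2 := by
      rw [mem_XX]
      dsimp only
      rw [map_add (db sw g1 g2), map_add (sb g), hff, hb, add_zero, add_zero]
      exact ⟨h1, h2⟩
    refine ⟨⟨_, h3⟩, ?_, rfl⟩
    show _ ∈ LinearMap.ker (Ph S pi1 pi2 g sw g1 g2)
    rw [mem_ker_Ph hf h]
    refine ⟨s, hs, ?_⟩
    dsimp only
    rw [map_add, hff, add_zero]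
  · rintro ⟨⟨⟨w, x⟩, h1⟩, h2, rfl⟩
    have h3 := (mem_ker_Ph hf h).1 h2
    rw [mem_XX] at h1
    obtain ⟨s, hs, h4⟩ := h3
    dsimp only at h1 h4
    have h5 : w + s ∈ fixv g := by
      rw [sb_fixv, map_add, h4, U_add_self]
    have h6 : x + Pi pi1 pi2 s ∈ fixb sw g1 g2 := by
      rw [db_fixb, map_add, ← h1.2, ← h4, (sb_S hf h hs).2, V_add_self]
    refine ⟨((⟨s, hs⟩, ⟨_, h5⟩), ⟨_, h6⟩), ?_⟩
    rw [f2_apply]
    show _ = (w, x)
    dsimp only
    refine Prod.ext ?_ ?_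
    · show s + (w + s) = w
      rw [add_comm w s, ← add_assoc, U_add_self, zero_add]
    · show Pi pi1 pi2 s + (x + Pi pi1 pi2 s) = x
      rw [add_comm x, ← add_assoc, V_add_self, zero_add]

theorem Pi_fix (h : Ac I S pi1 pi2 g sw g1 g2) {x : Fin n → F}
    (hx : x ∈ (S ⊓ fixv g : Submodule F (Fin n → F))) : Pi pi1 pi2 x ∈ fixb sw g1 g2 := by
  rw [mem_fixb, ← pi_g h hx.1, mem_fixv.1 hx.2]

/-- `x ↦ ((x, x), Pi x)` -/
def i2 (h : Ac I S pi1 pi2 g sw g1 g2) : (S ⊓ fixv g : Submodule F (Fin n → F)) →ₗ[F]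
    ((S × fixv g) × fixb sw g1 g2) :=
  ((Submodule.inclusion inf_le_left).prod (Submodule.inclusion inf_le_right)).prod
    (((Pi pi1 pi2).comp (Submodule.subtype _)).codRestrict _ fun x => Pi_fix h x.2)

theorem dim_b (hf : Fl I S pi1 pi2 w₀) (h : Ac I S pi1 pi2 g sw g1 g2) :
    Module.finrank F (LinearMap.ker (Ph S pi1 pi2 g sw g1 g2)) +
      Module.finrank F (S ⊓ fixv g : Submodule F (Fin n → F)) =
      Module.finrank F S + Module.finrank F (fixv g) + Module.finrank F (fixb sw g1 g2) := by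
  have h1 := LinearMap.finrank_range_add_finrank_ker (f2 S pi1 pi2 g sw g1 g2)
  have h2 : LinearMap.range (i2 h) = LinearMap.ker (f2 S pi1 pi2 g sw g1 g2) := by
    ext ⟨⟨⟨s, hs⟩, ⟨f, hff⟩⟩, ⟨b, hb⟩⟩
    rw [LinearMap.mem_ker, LinearMap.mem_range, f2_apply, Prod.mk_eq_zero]
    dsimp only
    constructor
    · rintro ⟨⟨y, hy⟩, hxy⟩
      have h3 : y = s := congrArg (fun x => (x.1.1 : Fin n → F)) hxy
      have h4 : y = f := congrArg (fun x => (x.1.2 : Fin n → F)) hxy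
      have h5 : Pi pi1 pi2 y = b :=
        congrArg (fun x => (x.2 : (Fin r → F) × (Fin r → F))) hxy
      subst h3 h4 h5
      exact ⟨U_add_self _, V_add_self _⟩
    · rintro ⟨h3, h4⟩
      have h5 := U_eq h3
      have h6 := V_eq h4
      subst h5 h6
      exact ⟨⟨s, hs, hff⟩, rfl⟩
  have h3 : Function.Injective (i2 h) := by
    intro x y hxy
    exact Subtype.ext (congrArg (fun x => (x.1.1 : Fin n → F)) hxy)
  have h4 := LinearMap.finrank_range_of_inj h3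
  rw [← h2, h4, range_f2 hf h, Module.finrank_prod, Module.finrank_prod] at h1
  have h5 := LinearEquiv.finrank_eq (Submodule.equivMapOfInjective
    (XX S pi1 pi2 g sw g1 g2).subtype (Submodule.injective_subtype _)
    (LinearMap.ker (Ph S pi1 pi2 g sw g1 g2)))
  rw [← h5] at h1
  exact h1

theorem dims (hf : Fl I S pi1 pi2 w₀) (h : Ac I S pi1 pi2 g sw g1 g2) :
    (Module.finrank F (XX S pi1 pi2 g sw g1 g2) : F) +
      Module.finrank F (LinearMap.ker (Ph S pi1 pi2 g sw g1 g2)) =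
    (Module.finrank F (fixv g) : F) + Module.finrank F (fixb sw g1 g2) := by
  have ha := dim_a hf h
  have hb := dim_b hf h
  have hc := dim_c S g
  have hd := dim_d hf h
  have he := dim_e hf
  have h1 : Module.finrank F (XX S pi1 pi2 g sw g1 g2) +
      Module.finrank F (LinearMap.ker (Ph S pi1 pi2 g sw g1 g2)) + 2 * Module.finrank F I =
      2 * n + Module.finrank F (fixv g) + Module.finrank F (fixb sw g1 g2) := by
    omega
  have h2 := congrArg (Nat.cast : ℕ → F) h1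
  push_cast at h2
  have h3 : (2 : F) = 0 := CharTwo.two_eq_zero
  rw [h3, zero_mul, zero_mul, add_zero, zero_add] at h2
  exact h2

end Red1

open Red1 in
theorem red1 (hf : Fl I S pi1 pi2 w₀) (h : Ac I S pi1 pi2 g sw g1 g2) {v : Fin n → F}
    (hv : g *ᵥ v + v = k1 w₀ g) {x : (Fin r → F) × (Fin r → F)}
    (hx : gb sw g1 g2 x + x = (kk g1, kk g2)) :
    (Module.finrank F (fixv g) : F) + ee v (k1 w₀ g) =
      (Module.finrank F (fixb sw g1 g2) : F) + (ee x.1 (kk g1) + ee x.2 (kk g2)) := by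
  obtain ⟨hkS, hp1, hp2⟩ := k1_coord hf h
  have hv' : sb g v = k1 w₀ g := hv
  have hx' : db sw g1 g2 x = (kk g1, kk g2) := hx
  have hk : (v, x) ∈ XX S pi1 pi2 g sw g1 g2 := by
    rw [mem_XX]
    dsimp only
    rw [hv', hx', Pi_apply, hp1, hp2]
    exact ⟨hkS, rfl⟩
  have h1 := sym_rank (Ph S pi1 pi2 g sw g1 g2) (Ph_symm hf h) ⟨_, hk⟩
    (fun a => Ph_diag hf h a ⟨_, hk⟩ hv' hx')
  rw [Ph_apply] at h1
  dsimp only at h1
  rw [hv', hx'] at h1
  change _ = _ + (ee v (k1 w₀ g) + (ee x.1 (kk g1) + ee x.2 (kk g2))) at h1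
  have h2 := dims hf h
  linear_combination (norm := (ring_nf; reduce_mod_char!)) h1 + h2

end Pool.Agent.Work.MP_787500_nt.IU
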