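import Mathlib
import Pool.Agent.Work.MP_787500_nt.IU.Red1
/-!
# Module Red2 (size M): the correction `mm` in coordinates (PURE linear algebra in characteristic 2)

`tau_eq`: `ee v (g v) + mm g = finrank (fixv g)` if `g v + kk g = v`; `ee v (g v) = ee v (kk g)`.
* `mm_red` left side: `v = vv g`, `v1 = v + w₀`: `g v1 + v1 = k1 w₀ g` and `ee v (g v) = ee v1 (k1 w₀ g) + ee w₀ (k1 w₀ g) + ee (k1 w₀ g) (g w₀) + ee w₀ (g w₀)` (expand), so the left side is `finrank (fixv g) + ee v1 (k1 w₀ g)`: `red1`.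
* `sw = 0`: `x = (vv g1, vv g2)`, `fixb 0 = fixv g1 × fixv g2`.
* `sw = 1`: `x.1 = vv (g1 * g2) =: a` (`g1 (g2 a) + kk g1 + g1 kk g2 = a`, `kk_mul`), `x.2 = kk g2 + g2 a`. `fixb 1 ≃ fixv (g1 * g2)` (`u ↦ (u, g2 u)`). `mm (g1 * g2) = mm g1 + mm g2 + ee (kk g1) (g1 kk g2)` (`mm_mul`) and
  `finrank (fixv (g1 * g2)) = mm (g1 * g2) + ee a (kk g1 + g1 kk g2)`, so one has to check `ee a (kk g1) + ee (g2 a) (kk g2) + ee a (kk g1 + g1 kk g2) + ee (kk g1) (g1 kk g2) = 0` (with `ee (kk g2) (kk g2) = 0`):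
  `ee (g2 a) (kk g2) = ee (g1 g2 a) (g1 kk g2)` and `g1 g2 a = a + kk g1 + g1 kk g2`.
-/

set_option autoImplicit false
set_option linter.unusedSectionVars false

namespace Pool.Agent.Work.MP_787500_nt.IU

open Matrix
open Pool.Agent.Work.MP_787500_nt.GP (A0 hf hf_add hf_zero hf_two hf_neg smul_hf IsAct d0 d1 d2 tw cup11
  cup02 EvPow)
open Pool.Agent.Work.MP_787500_nt.KR (FSys Sm1 Sm2 IsChar Smooth Z1 Z2 B2 LocH Pair LDual LocD zM
  cup11_Z2)
open Pool.Agent.Work.MP_787500_nt.KT hiding Str Rel Sel KH Ai IsP cc ff TT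
open Pool.Agent.Work.MP_787500_nt.KS (hfT hfT_apply hfT_sq hfT_two hfT_neg smul_hfT hfT_nondeg hfT_smul
  inv_zero smul_F dF1 rt rt_sq sm_eps sm1_one sm1_two zmod2_cases hfT_eps_sq exists_mul hfT_eq
  trace_trick sym_rank ann mem_ann finrank_ann)
open Pool.Agent.Work.MP_787500_nt.OR (indW mem_indW fixV mem_fixV fixW mem_fixW k1)


variable {F : Type*} [Field F] [CharP F 2] [PerfectRing F 2] {n r : ℕ} [Sy F n] [Sy F r]
  {I S : Submodule F (Fin n → F)} {pi1 pi2 : (Fin n → F) →ₗ[F] (Fin r → F)} {w₀ : Fin n → F}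
  {g : Matrix (Fin n) (Fin n) F} {sw : ZMod 2} {g1 g2 : Matrix (Fin r) (Fin r) F}

namespace Red2

theorem fixb_zero : fixb (F := F) 0 g1 g2 = (fixv g1).prod (fixv g2) := by
  ext x
  rw [mem_fixb, gb_zero, Submodule.mem_prod, mem_fixv, mem_fixv, Prod.ext_iff]

theorem finrank_zero : Module.finrank F (fixb 0 g1 g2) =
    Module.finrank F (fixv g1) + Module.finrank F (fixv g2) := by
  rw [fixb_zero]
  have h1 : LinearMap.range ((fixv g1).subtype.prodMap (fixv g2).subtype) =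
      (fixv g1).prod (fixv g2) := by
    rw [LinearMap.range_prodMap, Submodule.range_subtype, Submodule.range_subtype]
  have h2 : Function.Injective ((fixv g1).subtype.prodMap (fixv g2).subtype) := by
    intro x y hxy
    have h3 := congrArg Prod.fst hxy
    have h4 := congrArg Prod.snd hxy
    exact Prod.ext (Subtype.ext h3) (Subtype.ext h4)
  rw [← h1, LinearMap.finrank_range_of_inj h2, Module.finrank_prod]

theorem finrank_one : Module.finrank F (fixb 1 g1 g2) =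
    Module.finrank F (fixv (g1 * g2)) := by
  have h1 : LinearMap.range ((LinearMap.id.prod (Matrix.mulVecLin g2)).comp
      (fixv (g1 * g2)).subtype) = fixb 1 g1 g2 := by
    ext ⟨u, v⟩
    rw [mem_fixb, gb_one, LinearMap.mem_range]
    constructor
    · rintro ⟨⟨y, hy⟩, hxy⟩
      have h3 : y = u := congrArg Prod.fst hxy
      have h4 : g2 *ᵥ y = v := congrArg Prod.snd hxy
      subst h3 h4
      rw [mem_fixv, ← mulVec_mulVec] at hy
      dsimp only
      rw [hy]
    · intro h2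
      have h3 : g1 *ᵥ v = u := congrArg Prod.fst h2
      have h4 : g2 *ᵥ u = v := congrArg Prod.snd h2
      subst h4
      refine ⟨⟨u, ?_⟩, rfl⟩
      rw [mem_fixv, ← mulVec_mulVec, h3]
  have h2 : Function.Injective ((LinearMap.id.prod (Matrix.mulVecLin g2)).comp
      (fixv (g1 * g2)).subtype) := by
    intro x y hxy
    exact Subtype.ext (congrArg Prod.fst hxy)
  rw [← h1, LinearMap.finrank_range_of_inj h2]

end Red2

open Red2 in
theorem mm_red (hf : Fl I S pi1 pi2 w₀) (h : Ac I S pi1 pi2 g sw g1 g2) :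
    mm g + ee w₀ (k1 w₀ g) + ee (k1 w₀ g) (g *ᵥ w₀) + ee w₀ (g *ᵥ w₀) = mm g1 + mm g2 := by
  have e1 := sp1 hf h
  have e2 := sp2 hf h
  have hvs := vv_spec h.sp
  have ht := tau_eq h.sp hvs
  have hkv := kk_of_fix hvs
  have hv1 : g *ᵥ (vv g + w₀) + (vv g + w₀) = k1 w₀ g := by
    unfold k1
    rw [mulVec_add, hkv]
    abel
  have hl : ee (vv g) (g *ᵥ vv g) = ee (vv g + w₀) (k1 w₀ g) + ee w₀ (k1 w₀ g) +
      ee (k1 w₀ g) (g *ᵥ w₀) + ee w₀ (g *ᵥ w₀) := by
    rw [← hv1]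
    simp only [mulVec_add, ee_add_left, ee_add_right, ee_self, ee_mulVec h.sp]
    rw [ee_comm w₀ (vv g)]
    linear_combination (norm := (ring_nf; reduce_mod_char!))
  rcases zmod2_cases sw with h0 | h0
  · subst h0
    have k1' := kk_of_fix (vv_spec e1)
    have k2' := kk_of_fix (vv_spec e2)
    have hx : gb 0 g1 g2 (vv g1, vv g2) + (vv g1, vv g2) = (kk g1, kk g2) := by
      rw [gb_zero, Prod.mk_add_mk, ← k1', ← k2']
    have hr := red1 hf h hv1 hx
    rw [finrank_zero] at hr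
    have t1 := tau_eq e1 (vv_spec e1)
    have t2 := tau_eq e2 (vv_spec e2)
    have s1 : ee (vv g1) (kk g1) = ee (vv g1) (g1 *ᵥ vv g1) := by
      rw [k1', ee_add_right, ee_self, add_zero]
    have s2 : ee (vv g2) (kk g2) = ee (vv g2) (g2 *ᵥ vv g2) := by
      rw [k2', ee_add_right, ee_self, add_zero]
    dsimp only at hr
    rw [s1, s2] at hr
    push_cast at hr
    linear_combination (norm := (ring_nf; reduce_mod_char!)) ht + hl + hr + t1 + t2
  · subst h0
    have e12 := isSp_mul e1 e2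
    have hs := vv_spec e12
    have hk := kk_mul e1 e2
    have t := tau_eq e12 hs
    have hm := mm_mul e1 e2
    have hs1 : g1 *ᵥ (g2 *ᵥ vv (g1 * g2)) = vv (g1 * g2) + kk g1 + g1 *ᵥ kk g2 := by
      rw [hk, ← mulVec_mulVec] at hs
      have h2 := U_cancel hs
      rw [h2]
      abel
    have hx : gb 1 g1 g2 (vv (g1 * g2), kk g2 + g2 *ᵥ vv (g1 * g2)) +
        (vv (g1 * g2), kk g2 + g2 *ᵥ vv (g1 * g2)) = (kk g1, kk g2) := by
      rw [gb_one, Prod.mk_add_mk]
      refine Prod.ext ?_ ?_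
      · show g1 *ᵥ (kk g2 + g2 *ᵥ vv (g1 * g2)) + vv (g1 * g2) = kk g1
        rw [mulVec_add, hs1]
        have h3 : g1 *ᵥ kk g2 + (vv (g1 * g2) + kk g1 + g1 *ᵥ kk g2) + vv (g1 * g2) =
            kk g1 + (g1 *ᵥ kk g2 + g1 *ᵥ kk g2) + (vv (g1 * g2) + vv (g1 * g2)) := by abel
        rw [h3, U_add_self, U_add_self, add_zero, add_zero]
      · show g2 *ᵥ vv (g1 * g2) + (kk g2 + g2 *ᵥ vv (g1 * g2)) = kk g2
        rw [add_comm (kk g2), ← add_assoc, U_add_self, zero_add]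
    have hr := red1 hf h hv1 hx
    rw [finrank_one] at hr
    dsimp only at hr
    have s1 : ee (g2 *ᵥ vv (g1 * g2)) (kk g2) =
        ee (vv (g1 * g2) + kk g1 + g1 *ᵥ kk g2) (g1 *ᵥ kk g2) := by
      rw [← hs1, ee_mulVec e1]
    rw [← mulVec_mulVec, hs1] at t
    simp only [ee_add_left, ee_add_right, ee_self, s1] at hr t
    rw [hm] at t
    simp only [ee_add_left] at hl
    linear_combination (norm := (ring_nf; reduce_mod_char!)) ht + hl + hr + t

end Pool.Agent.Work.MP_787500_nt.IU
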