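import Mathlib
import Pool.Agent.Work.MP_787500_nt.IU.Lift
import Pool.Agent.Work.MP_787500_nt.IU.Red2
import Pool.Agent.Work.MP_787500_nt.KI.Defs
import Pool.Agent.Work.MP_787500_nt.OR.Val
/-!
# Module Val (size M-L): the value at the correction class

As OR/Val (proved). `(a, kc B) ∈ L`; `p, m` with `InW (a1 d) (y d)`, `a1 d = a d + (B d (p + ε d • m) + p)`, `y d = kc d + (B d m + m)`. Put `u = m + w₀`, `k d = k1 w₀ (B d)`: `y d = k d + (B d u + u)`; `y d ∈ S` (`inW_iff`), `k d ∈ S`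
(`k1_coord`), so `u` is fixed modulo `S`. `a1` is a lift of `y`. `char_of2`, `char_vec2`. THE IDENTITY: `ee (a s) (B s kc t) + ε s • mm (B t)` is the sum of `ee (B s p + p) (B s kc t)` (killed by `iv`), the coboundary of `b1 s = ee (a1 s) (B s w₀)`,
the coboundary of `b2 s = mm (g1 s)` and `cS u k s t`. PROOF: as in OR/Val, except: `ee (a1 s) (B s k t) = Θ (y s) (B s k t)` (`Θ x y = ee (pi1 x) (pi1 y)`; `inW_iff`, `hc.form`) `= Θ (k s) (B s k t) + Θ (du s) (B s k t)`, and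
`ee m (kc t) + mm (B t) + ee (y t) (B t w₀) = ee u (k t) + (mm (g1 t) + mm (g2 t))` (`mm_red`), `Θ (k s) (B s k t) + ε s • (mm (g1 t) + mm (g2 t)) = b2 s + b2 t + b2 (s t)`: `pi1 (k s) = kk (g1 s)`, `pi1 (B s k t) = g1 s (kk (g1 t))` or
`g1 s (kk (g2 t))` (`k1_coord`, `(hc.ac s).a0`, `a1`), `co_mul`, `mm_mul` (with `sp1`, `sp2`).
-/

set_option autoImplicit false
set_option linter.unusedSectionVars false

namespace Pool.Agent.Work.MP_787500_nt.IU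

open Matrix
open Pool.Agent.Work.MP_787500_nt.GP (A0 hf hf_add hf_zero hf_two hf_neg smul_hf IsAct d0 d1 d2 tw cup11
  cup02 EvPow)
open Pool.Agent.Work.MP_787500_nt.KR (FSys Sm1 Sm2 IsChar Smooth Z1 Z2 B2 LocH Pair LDual LocD zM
  cup11_Z2)
open Pool.Agent.Work.MP_787500_nt.KT hiding Str Rel Sel KH Ai IsP cc ff TT
open Pool.Agent.Work.MP_787500_nt.KS (hfT hfT_apply hfT_sq hfT_two hfT_neg smul_hfT hfT_nondeg hfT_smul
  inv_zero smul_F dF1 rt rt_sq sm_eps sm1_one sm1_two zmod2_cases hfT_eps_sq exists_mul hfT_eq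
  trace_trick sym_rank ann mem_ann finrank_ann)
open Pool.Agent.Work.MP_787500_nt.OR (indW mem_indW fixV mem_fixV fixW mem_fixW k1)


open Pool.Agent.Work.MP_787500_nt.KI (R1 Y2 mem_R1 mem_Y2 LKr LVal)

variable {F : Type*} [Field F] [Finite F] [CharP F 2] [Algebra (ZMod 2) F] {n r : ℕ} [Sy F n]
  [Sy F r] {P : Type*} [Group P] {T : FSys P} {χ : P → ℤ_[2]} {iv : (P → P → A0) → A0}
  {B : P →* Matrix (Fin n) (Fin n) F} {ε : P → ZMod 2}
  {Up N I S : Submodule F (Fin n → F)} {pi1 pi2 : (Fin n → F) →ₗ[F] (Fin r → F)} {w₀ : Fin n → F}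
  {g1 g2 : P → Matrix (Fin r) (Fin r) F} {iF : CoF F T →ₗ[F] F}
  {L : Submodule F ((P → Fin n → F) × (P → Fin n → F))}
  {M : fixW B Set.univ S →ₗ[F] fixW B Set.univ S →ₗ[F] F} {lm : fixW B Set.univ S →ₗ[F] F}

private theorem U_cancel2 (x y : Fin n → F) : x + y + y = x := by
  rw [add_assoc, U_add_self, add_zero]

private theorem co_eq (hc : Co B ε I S pi1 pi2 w₀ g1 g2) {s t : P} (hB : B s = B t)
    (he : ε s = ε t) : g1 s = g1 t := by
  have key : ∀ u : Fin r → F, g1 s *ᵥ u = g1 t *ᵥ u := by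
    intro u
    rcases zmod2_cases (ε s) with h0 | h1
    · obtain ⟨x, hx, hx1, hx2⟩ := hc.surj u 0
      have e1 := ((hc.ac s).a0 h0 x hx).1
      have e2 := ((hc.ac t).a0 (he ▸ h0) x hx).1
      rw [hx1] at e1 e2
      rw [← e1, ← e2, hB]
    · obtain ⟨x, hx, hx1, hx2⟩ := hc.surj 0 u
      have e1 := ((hc.ac s).a1 h1 x hx).1
      have e2 := ((hc.ac t).a1 (he ▸ h1) x hx).1
      rw [hx2] at e1 e2
      rw [← e1, ← e2, hB]
  ext i j
  have := congrFun (key (Pi.single j 1)) i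
  simpa using this

/-- the cocycle of `k1` in the coordinates -/
private theorem kk_cob (hc : Co B ε I S pi1 pi2 w₀ g1 g2)
    (headd : ∀ g h, ε (g * h) = ε g + ε h) (s t : P) :
    ee (pi1 (k1 w₀ (B s))) (pi1 (B s *ᵥ k1 w₀ (B t))) + ε s • (mm (g1 t) + mm (g2 t)) =
      mm (g1 s) + mm (g1 t) + mm (g1 (s * t)) := by
  have hks := k1_coord hc.toFl (hc.ac s)
  have hkt := k1_coord hc.toFl (hc.ac t)
  have s1 := sp1 hc.toFl (hc.ac s)
  have t1 := sp1 hc.toFl (hc.ac t)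
  have t2 := sp2 hc.toFl (hc.ac t)
  have hm := co_mul hc headd s t
  rw [hks.2.1]
  rcases zmod2_cases (ε s) with h0 | h1
  · rw [((hc.ac s).a0 h0 _ hkt.1).1, hkt.2.1, (hm.1 h0).1, mm_mul s1 t1, h0, zero_smul]
    linear_combination (norm := (ring_nf; reduce_mod_char!))
  · rw [((hc.ac s).a1 h1 _ hkt.1).1, hkt.2.2, (hm.2 h1).1, mm_mul s1 t2, h1, one_smul]
    linear_combination (norm := (ring_nf; reduce_mod_char!))

theorem lval2 (Lc : LocH T χ iv) (hi : IsInv T iv iF) (hc : Co B ε I S pi1 pi2 w₀ g1 g2)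
    (hU : UN Up N S pi1 pi2) (headd : ∀ g h, ε (g * h) = ε g + ε h) (hes : Sm1 T ε)
    (hsm : Smooth T (KT.act B)) (h : FM2 T B ε S pi1 w₀ iF M lm) (hL : LI2 T B ε Up N L) :
    LVal iv B ε L (Module.finrank F (fixW B Set.univ S) + Module.finrank F (LinearMap.ker M)) := by
  intro a ha α
  obtain ⟨⟨hkc, has, hal⟩, p, m, hpm⟩ := (hL _).1 ha
  dsimp only at hkc has hal hpm
  have hsp : ∀ g, IsSp (B g) := fun g => (hc.ac g).sp
  have hP := pair_BU Lc.char hsp hsm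
  obtain ⟨U0, hU0⟩ : ∃ U0 : Fin n → F, U0 = m + w₀ := ⟨_, rfl⟩
  have hm : m = U0 + w₀ := by rw [hU0, U_cancel2]
  obtain ⟨k, hk⟩ : ∃ k : P → Fin n → F, ∀ d, k d = k1 w₀ (B d) := ⟨_, fun _ => rfl⟩
  have hkS : ∀ d, k d ∈ S := fun d => by
    rw [hk]
    exact (k1_coord hc.toFl (hc.ac d)).1
  have hkk : ∀ d, kk (B d) = k d + (B d *ᵥ w₀ + w₀) := fun d => by
    rw [hk]
    unfold k1
    rw [U_cancel2]
  obtain ⟨y, hy⟩ : ∃ y : P → Fin n → F, ∀ d, y d = k d + (B d *ᵥ U0 + U0) := ⟨_, fun _ => rfl⟩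
  have hy2 : ∀ d, y d = kc B d + (B d *ᵥ m + m) := by
    intro d
    have e : kc B d = kk (B d) := rfl
    rw [hy, e, hkk, hU0, mulVec_add]
    have e3 : k d + (B d *ᵥ w₀ + w₀) + (B d *ᵥ m + m) = k d + (B d *ᵥ m + B d *ᵥ w₀ + (m + w₀)) := by
      abel
    rw [e3]
  obtain ⟨a1, ha1⟩ : ∃ a1 : P → Fin n → F, ∀ d, a1 d = a d + (B d *ᵥ (p + ε d • m) + p) :=
    ⟨_, fun _ => rfl⟩
  have hInW : ∀ d, InW Up N (a1 d) (y d) := fun d => by
    rw [ha1, hy2]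
    exact hpm d
  have hco := fun d => (inW_iff hU).1 (hInW d)
  have hyS : ∀ d, y d ∈ S := fun d => (hco d).1.2
  have ha1S : ∀ d, a1 d ∈ S := fun d => (hco d).1.1
  have hUS : ∀ d, B d *ᵥ U0 + U0 ∈ S := fun d => by
    have e : B d *ᵥ U0 + U0 = k d + y d := by
      rw [hy, ← add_assoc, U_add_self, zero_add]
    rw [e]
    exact S.add_mem (hkS d) (hyS d)
  obtain ⟨u, hu⟩ : ∃ u : fixW B Set.univ S, u.1 = U0 := ⟨⟨U0, fun d _ => hUS d⟩, rfl⟩
  obtain ⟨V, hV, hAV⟩ := smooth_A hsm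
  have ha1s : Sm1 T a1 := by
    obtain ⟨W₁, hW₁, k1⟩ := has
    obtain ⟨W₂, hW₂, k2⟩ := hes
    refine ⟨V ⊓ (W₁ ⊓ W₂), T.inf hV (T.inf hW₁ hW₂), fun g w hw => ?_⟩
    have e1 : a (g * w) = a g := k1 g w hw.2.1
    have e2 : B (g * w) = B g := by rw [map_mul, hAV w hw.1, mul_one]
    rw [ha1, ha1 g, e1, e2, k2 g w hw.2.2]
  have ha1l : IsLift (B : P → Matrix (Fin n) (Fin n) F) ε a1 y := by
    intro g h
    have e1 := hal g h
    rw [ha1, ha1 g, ha1 h, hy2 h, e1, headd, map_mul]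
    simp only [mulVec_add, smul_add, add_smul, ← mulVec_mulVec]
    ext i
    simp only [Pi.add_apply, Pi.smul_apply, smul_F, smul_U, mulVec_smul]
    linear_combination (norm := (ring_nf; reduce_mod_char!))
  have ha1l2 : IsLift (B : P → Matrix (Fin n) (Fin n) F) ε a1
      (fun g => k1 w₀ (B g) + (B g *ᵥ u.1 + u.1)) := by
    have e : (fun g => k1 w₀ (B g) + (B g *ᵥ u.1 + u.1)) = y := by
      funext g
      rw [hy, hk, hu]
    rw [e]
    exact ha1l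
  have haW2 : ∀ g, InW Up N (a1 g) (k1 w₀ (B g) + (B g *ᵥ u.1 + u.1)) := fun g => by
    rw [hu, ← hk, ← hy]
    exact hInW g
  have hchar := char_of2 Lc hi hc hU headd hes hsm h (u := u) ha1s haW2 ha1l2
  have hcv := char_vec2 h hchar
  -- the cocycle of the value
  have hcm : cS B ε pi1 u.1 (fun t => k1 w₀ (B t)) ∈ CoF F T :=
    cS_mem hc headd hes hsm (fun g => u.2 g trivial) (k1_Z1 hsp hsm)
      (fun g => (k1_coord hc.toFl (hc.ac g)).1)
  -- the identity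
  have key : ∀ s t, ee (a s) (B s *ᵥ kc B t) + ε s • mm (B t) =
      ee (B s *ᵥ p + p) (B s *ᵥ kc B t) + ((ee (a1 s) (B s *ᵥ w₀) + mm (g1 s)) +
        (ee (a1 t) (B t *ᵥ w₀) + mm (g1 t)) +
        (ee (a1 (s * t)) (B (s * t) *ᵥ w₀) + mm (g1 (s * t)))) +
        cS B ε pi1 U0 (fun t => k1 w₀ (B t)) s t := by
    intro s t
    have e : kc B t = kk (B t) := rfl
    have f1 : a s = a1 s + (B s *ᵥ p + p) + ε s • (B s *ᵥ m) := by
      rw [ha1, mulVec_add, mulVec_smul]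
      have e3 : a s + (B s *ᵥ p + ε s • B s *ᵥ m + p) + (B s *ᵥ p + p) + ε s • (B s *ᵥ m) =
          a s + ((B s *ᵥ p + p) + (B s *ᵥ p + p)) + (ε s • (B s *ᵥ m) + ε s • (B s *ᵥ m)) := by
        abel
      rw [e3, U_add_self, U_add_self, add_zero, add_zero]
    have hBk : B s *ᵥ k t ∈ S := stS hc.toFl (hc.ac s) (hkS t)
    have f3 : ee (a1 s) (B s *ᵥ k t) = ee (pi1 (k s)) (pi1 (B s *ᵥ k t)) +
        ee (pi1 (B s *ᵥ U0 + U0)) (pi1 (B s *ᵥ k t)) := by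
      rw [hc.form _ (ha1S s) _ hBk, (hco s).2.1, (hco s).2.2, ee_zero_left, add_zero, hy, map_add,
        ee_add_left]
    have f4 : ee (a1 (s * t)) (B (s * t) *ᵥ w₀) = ee (a1 s) (B s *ᵥ (B t *ᵥ w₀)) +
        ee (a1 t) (B t *ᵥ w₀) + ε s • ee (y t) (B t *ᵥ w₀) := by
      have e1 : a1 (s * t) = a1 s + B s *ᵥ a1 t + ε s • (B s *ᵥ y t) := ha1l s t
      rw [e1, map_mul, ← mulVec_mulVec, ee_add_left, ee_add_left, ee_mulVec (hsp s), smul_U,
        ee_smul_left, ee_mulVec (hsp s), smul_F]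
    have f5 := mm_red hc.toFl (hc.ac t)
    rw [← hk] at f5
    have f6 : ee (ε s • (B s *ᵥ m)) (B s *ᵥ kk (B t)) = ε s • ee m (kk (B t)) := by
      rw [smul_U, ee_smul_left, ee_mulVec (hsp s), smul_F]
    have f7 : ee (a1 s) (B s *ᵥ kk (B t)) = ee (a1 s) (B s *ᵥ k t) +
        ee (a1 s) (B s *ᵥ (B t *ᵥ w₀)) + ee (a1 s) (B s *ᵥ w₀) := by
      rw [hkk, mulVec_add, mulVec_add, ee_add_right, ee_add_right, ← add_assoc]
    have f8 : ee m (kk (B t)) + mm (B t) = ee (y t) (B t *ᵥ w₀) + ee U0 (k t) +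
        (mm (g1 t) + mm (g2 t)) := by
      rw [← f5, hkk, hy, hm]
      simp only [ee_add_left, ee_add_right, ee_self, ee_mulVec (hsp t), ee_comm w₀ U0]
      linear_combination (norm := (ring_nf; reduce_mod_char!))
    have f10 := kk_cob hc headd s t
    rw [← hk s, ← hk t] at f10
    have f9 : ε s • ee m (kk (B t)) + ε s • mm (B t) =
        ε s • ee (y t) (B t *ᵥ w₀) + ε s • ee U0 (k t) + ε s • (mm (g1 t) + mm (g2 t)) := by
      rw [← smul_add, f8, smul_add, smul_add]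
    have f11 : cS B ε pi1 U0 (fun t => k1 w₀ (B t)) s t =
        ee (pi1 (B s *ᵥ U0 + U0)) (pi1 (B s *ᵥ k t)) + ε s • ee U0 (k t) := by
      unfold cS
      beta_reduce
      rw [← hk]
    rw [e, f4, f11]
    conv_lhs => rw [f1]
    rw [ee_add_left, ee_add_left, f6, f7, f3]
    linear_combination (norm := (ring_nf; reduce_mod_char!)) f9 + f10
  -- the value
  have hb : Sm1 T fun g => ee (a1 g) (B g *ᵥ w₀) + mm (g1 g) := by
    obtain ⟨W₁, hW₁, k1⟩ := ha1s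
    obtain ⟨W₂, hW₂, k2⟩ := hes
    refine ⟨V ⊓ (W₁ ⊓ W₂), T.inf hV (T.inf hW₁ hW₂), fun g w hw => ?_⟩
    have e2 : B (g * w) = B g := by rw [map_mul, hAV w hw.1, mul_one]
    beta_reduce
    rw [k1 g w hw.2.1, e2, co_eq hc e2 (k2 g w hw.2.2)]
  have hbs : Sm1 T fun g => α * (ee (a1 g) (B g *ᵥ w₀) + mm (g1 g)) := by
    obtain ⟨W₁, hW₁, k1⟩ := hb
    refine ⟨W₁, hW₁, fun g w hw => ?_⟩
    beta_reduce at k1 ⊢
    rw [k1 g w hw]
  have hbs' : Sm1 T fun g => hfT (α * (ee (a1 g) (B g *ᵥ w₀) + mm (g1 g))) := sm1_one hbs hfT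
  have hcob : ∀ g, (α • fun g => B g *ᵥ p + p) g = B g *ᵥ (α • p) + α • p := fun g => by
    rw [Pi.smul_apply, mulVec_smul, smul_add]
  have hdp : Z1 T (KT.act B) (α • fun g => B g *ᵥ p + p) :=
    (cocS T (B : P → Matrix (Fin n) (Fin n) F)).smul_mem α (cob_Z1 hsm p)
  have hZ3 : Z2 T (tw χ) (fun s t => hfT (α * cS B ε pi1 u.1 (fun t => k1 w₀ (B t)) s t)) :=
    coF_Z2 Lc.char α ⟨_, hcm⟩
  have e1 : (fun s t => hfT (α * ee (a s) (B s *ᵥ kc B t) + ε s • (α * mm (B t)))) =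
      fun s t => (cup11 (KT.act B) BU (α • fun g => B g *ᵥ p + p) (kc B) s t +
        d1 (tw χ) (fun g => hfT (α * (ee (a1 g) (B g *ᵥ w₀) + mm (g1 g)))) s t) +
        hfT (α * cS B ε pi1 u.1 (fun t => k1 w₀ (B t)) s t) := by
    funext s t
    show _ = (hfT (ee (α • (B s *ᵥ p + p)) (B s *ᵥ kc B t)) +
      (hfT (α * (ee (a1 s) (B s *ᵥ w₀) + mm (g1 s))) +
        χ s • hfT (α * (ee (a1 t) (B t *ᵥ w₀) + mm (g1 t))) -
        hfT (α * (ee (a1 (s * t)) (B (s * t) *ᵥ w₀) + mm (g1 (s * t)))))) + _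
    rw [smul_hfT (Lc.char.odd s), sub_eq_add_neg, hfT_neg, ← map_add, ← map_add, ← map_add,
      ← map_add, ee_smul_left, hu]
    congr 1
    have e3 := key s t
    have e4 : ε s • (α * mm (B t)) = α * (ε s • mm (B t)) := by rw [mul_smul_comm]
    rw [e4, ← mul_add, e3]
    ring
  rw [e1, Lc.add _ _ (KR.Z2.add (KR.isAct_tw Lc.char) (cup11_Z2 hP hdp hkc)
    (KR.d1_tw_Z2 Lc.char hbs')) hZ3, Lc.add _ _ (cup11_Z2 hP hdp hkc) (KR.d1_tw_Z2 Lc.char hbs'),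
    Lc.cob _ hbs', inv_cob_left Lc hsp hsm ⟨α • p, hcob⟩ hkc, hi α ⟨_, hcm⟩, h.vlm u ⟨_, hcm⟩ rfl,
    add_zero, zero_add, ← OR.hfT_nat, Nat.cast_add, hcv]

end Pool.Agent.Work.MP_787500_nt.IU
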