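import Mathlib
import Pool.Agent.Work.MP_787500_nt.IU.Cnt
import Pool.Agent.Work.MP_787500_nt.IU.Val
import Pool.Agent.Work.MP_787500_nt.IU.TwoC
import Pool.Agent.Work.MP_787500_nt.IU.EulC
import Pool.Agent.Work.MP_787500_nt.IU.Str
import Pool.Agent.Work.MP_787500_nt.IU.Inv
/-!
# Module Main (size S): THE CONTRIBUTION of a condition, computed with the induced condition

As OR/Main: `LocPar` with `Y₀ = indW .. (W2 A c Up N)`: `lag_two2`; `L = LY A c Y₀`, `lInd_two2`; `LKr` from `lkr_of_lag`; `exists_co`, `exists_inv`, `exists_FM2`, `od2_of`, `ec_of_eul`; `lval2`, `cnt_main2`; `finrank_two2`.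
-/

set_option autoImplicit false
set_option linter.unusedSectionVars false

namespace Pool.Agent.Work.MP_787500_nt.IU

open Matrix
open Pool.Agent.Work.MP_787500_nt.GP (A0 hf hf_add hf_zero hf_two hf_neg smul_hf IsAct d0 d1 d2 tw cup11
  cup02 EvPow)
open Pool.Agent.Work.MP_787500_nt.KR (FSys Sm1 Sm2 IsChar Smooth Z1 Z2 B2 LocH Pair LDual LocD zM
  cup11_Z2)
open Pool.Agent.Work.MP_787500_nt.KT hiding Str Rel Sel KH Ai IsP cc ff TT
open Pool.Agent.Work.MP_787500_nt.KS (hfT hfT_apply hfT_sq hfT_two hfT_neg smul_hfT hfT_nondeg hfT_smul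
  inv_zero smul_F dF1 rt rt_sq sm_eps sm1_one sm1_two zmod2_cases hfT_eps_sq exists_mul hfT_eq
  trace_trick sym_rank ann mem_ann finrank_ann ep)
open Pool.Agent.Work.MP_787500_nt.OR (indW mem_indW fixV mem_fixV fixW mem_fixW k1)


open Pool.Agent.Work.MP_787500_nt.KI
open Pool.Agent.Work.MP_787500_nt.QS (Two ac2 be2 la2 Lag QM pB Zq)

universe v

variable {F : Type v} [Field F] [Finite F] [CharP F 2] [Algebra (ZMod 2) F] {n : ℕ} [Sy F n]
  {G Γ : Type*} [Group G] [Group Γ] {e : G →* Γ} {c : Γ} {κ : G →* G}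
  {A : Γ →* Matrix (Fin n) (Fin n) F} {P : Type*} [Group P] {T : FSys P} {jp : P →* Γ}
  {χ : P → ℤ_[2]} {χq : Γ → ℤ_[2]} {iv : (P → P → A0) → A0} {Up N : Submodule F (Fin n → F)}

theorem locPar_ord2 (X : Two e c κ) (p : LocD.{v} T (fun d => χq (jp d)) iv)
    (hsp : ∀ g, IsSp (A g))
    (hsm : Smooth T (KT.act (A.comp jp))) (hes : Sm1 T fun d => ep e (jp d))
    (ld : LDual T iv (KT.act (A.comp jp)) (KT.act (A.comp jp))
      (BU : (Fin n → F) →+ (Fin n → F) →+ A0)) (o : Or2 (A.comp jp) (fun d => ep e (jp d)) Up N)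
    {τ : P} (hτ : ep e (jp τ) = 1) {k : ℕ} (hE : Eul.{v} T k)
    (hq : QM T (fun d => χq (jp d)) F (fun d => ac2 e c κ (KT.act (A.comp e)) (jp d))
      (be2 (bC A c)) (fun (a : F) d => la2 e c κ (KT.act (A.comp e)) (bC A c) a (jp d)))
    {Y : Submodule F (P → (Fin n → F) × (Fin n → F))} {δ : ℕ}
    (hev : Even (Module.finrank F (fixV hq.act hq.lin (W2 A c Up N)) + Module.finrank F Y +
      Module.finrank F ↥(Y ⊓ indW T hq.act hq.lin (W2 A c Up N)) + δ)) :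
    LocPar T jp iv e c κ A Y δ := by
  have Lc := p.toLocH
  have hadd : ∀ g h, ep e (jp (g * h)) = ep e (jp g) + ep e (jp h) := fun g h => by
    rw [map_mul, QP.ep_add2 X]
  have hY₀ := lag_two2 X p o hq
  have hL := lInd_two2 (T := T) (Up := Up) (N := N) X hq.act hq.lin
  have hk := lkr_of_lag X Lc hsp hsm hes ld hY₀
  obtain ⟨r, iSr, pi1, pi2, w₀, g1, g2, hc, hU, hr, hn⟩ := exists_co o hadd hτ
  obtain ⟨iF, hi⟩ := exists_inv (F := F) Lc
  obtain ⟨M, lm, h⟩ := exists_FM2 Lc hi hc hadd hes hsm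
  have hst : ∀ g, ∀ x ∈ Up ⊓ N, (A.comp jp) g *ᵥ x ∈ Up ⊓ N := fun g => (hc.ac g).st
  have od := od2_of p o.sp hsm hst hc.pS
  have hec := ec_of_eul hE o.sp hsm hst hc.pS ld.fin hn hr
  have h1 := lval2 Lc hi hc hU hadd hes hsm h hL
  obtain ⟨q, h2⟩ := cnt_main2 Lc hi hc hU rfl hadd hes hsm ld od h hL hk hec
  have h3 := finrank_two2 (Up := Up) (N := N) X hq.act hq.lin
  refine ⟨_, _, _, hY₀, h1, h2, ?_⟩
  rw [← h3]
  obtain ⟨s, hs⟩ := hev
  have hs1 : (Module.finrank F (fixV hq.act hq.lin (W2 A c Up N)) : ℤ) + Module.finrank F Y +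
      Module.finrank F ↥(Y ⊓ indW T hq.act hq.lin (W2 A c Up N)) + δ = s + s := by
    exact_mod_cast hs
  refine ⟨Module.finrank F (LinearMap.ker M) + q -
      Module.finrank F (fixV hq.act hq.lin (W2 A c Up N)) + s, ?_⟩
  push_cast
  linarith

end Pool.Agent.Work.MP_787500_nt.IU
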