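import Mathlib
import Pool.Agent.Work.MP_787500_nt.IU.Main
import Pool.Agent.Work.MP_787500_nt.IU.FinA
/-!
# Module Fin (size M): THE CONTRIBUTION for `M × M`

Compare OR/Fin (`locM_ord`, `locM_ord1`). `exists_UN` gives `Up`, `N`; `qm_tra` (for `p.qm h`) gives the quadratic module; `locPar_ord2` (`o`: `exists_UN`; `hsm`: `p.smA`, `ld`: `p.ldA`, `hes`: `p.esm`); `tra_indW`, `card_tra`, `tra_inf`,
`fixV` has the same number of elements in the coordinates; `Module.natCard_eq_pow_finrank` turns `EvPow` into `Even` (finite: `p.ldM h`).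
* `card_W1`: `W1 ≃ W2 A c Up N = Up × (A c)⁻¹ N`, `finrank N = n - finrank Up` (`pN`, `KS.finrank_ann`), so `Nat.card W1 = Nat.card F ^ n`, and `n` is even (`n_even`).
* `locM_ind1`: `OR.card_fixV`: `Nat.card (fixV ..) = Nat.card W1 * Nat.card {x : Q // ..}`. If `M` has no coordinates there is nothing to prove (`LocM` is about all coordinates).
-/

set_option autoImplicit false
set_option linter.unusedSectionVars false

namespace Pool.Agent.Work.MP_787500_nt.IU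

open Matrix
open Pool.Agent.Work.MP_787500_nt.GP (A0 hf hf_add hf_zero hf_two hf_neg smul_hf IsAct d0 d1 d2 tw cup11
  cup02 EvPow)
open Pool.Agent.Work.MP_787500_nt.KR (FSys Sm1 Sm2 IsChar Smooth Z1 Z2 B2 LocH Pair LDual LocD zM
  cup11_Z2 SDualF)
open Pool.Agent.Work.MP_787500_nt.KT hiding Str Rel Sel KH Ai IsP cc ff TT
open Pool.Agent.Work.MP_787500_nt.KS (hfT hfT_apply hfT_sq hfT_two hfT_neg smul_hfT hfT_nondeg hfT_smul
  inv_zero smul_F dF1 rt rt_sq sm_eps sm1_one sm1_two zmod2_cases hfT_eps_sq exists_mul hfT_eq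
  trace_trick sym_rank ann mem_ann finrank_ann ep)
open Pool.Agent.Work.MP_787500_nt.OR (indW mem_indW fixV mem_fixV fixW mem_fixW k1)


open Pool.Agent.Work.MP_787500_nt.KI
open Pool.Agent.Work.MP_787500_nt.QS (Two ac2 be2 la2 Lag QM pB Zq)
open Pool.Agent.Work.MP_787500_nt.QP (InvC)

universe v

variable {G Γ : Type*} [Group G] [Group Γ] {S : FSys G} {Sq : FSys Γ} {χ : G → ℤ_[2]}
  {χq : Γ → ℤ_[2]} {e : G →* Γ} {c : Γ} {κ : G →* G} {P : Type*} [Group P] {T : FSys P}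
  {jp : P →* Γ} {iv : (P → P → A0) → A0} {F : Type v} [Field F] [Finite F] [CharP F 2]
  [Algebra (ZMod 2) F] {M : Type v} [AddCommGroup M] [Finite M] {Θ : Set (G × G)} {O : Type*}
  [CommRing O] [Algebra O F] [Module O M] {ρ : G → M → M} {b : M →+ M →+ A0} {C : M → M}

theorem card_W1 {n : ℕ} [Sy F n] {L : M ≃+ (Fin n → F)} {A : Γ →* Matrix (Fin n) (Fin n) F}
    (X : Two e c κ) (hc : Crd e c O ρ b C L A) {W1 : Submodule O (M × M)}
    (hst : ∀ d, ∀ w ∈ W1, ac2 e c κ ρ (jp d) w ∈ W1) (hb : ∀ v ∈ W1, ∀ w ∈ W1, b v.1 w.2 = 0)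
    (hp : ∀ v, (∀ w ∈ W1, pB (be2 b) w v = 0) → v ∈ W1) :
    Nat.card W1 = Nat.card F ^ n ∧ Even n := by
  refine ⟨?_, KT.n_even F n⟩
  obtain ⟨Up, N, o, hN⟩ := exists_UN X hc hst hb hp
  have h1 : Nat.card W1 = Nat.card (W2 A c Up N) :=
    Nat.card_congr ((f2 L).toEquiv.subtypeEquiv fun v => hN v)
  have h2 : Nat.card (W2 A c Up N) = Nat.card Up * Nat.card N := by
    rw [← Nat.card_prod]
    refine Nat.card_congr
      { toFun := fun v => (⟨v.1.1, v.2.1⟩, ⟨A c *ᵥ v.1.2, v.2.2⟩)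
        invFun := fun z => ⟨(z.1.1, A c *ᵥ z.2.1), z.1.2, by
          show A c *ᵥ (A c *ᵥ z.2.1) ∈ N
          rw [A_cc X]
          exact z.2.2⟩
        left_inv := fun v => Subtype.ext (Prod.ext rfl (A_cc X _))
        right_inv := fun z => Prod.ext rfl (Subtype.ext (A_cc X _)) }
  have h3 : N = ann (Sy.e : (Fin n → F) →ₗ[F] (Fin n → F) →ₗ[F] F) Up := by
    ext x
    rw [o.pN, mem_ann]
    rfl
  have hker : LinearMap.ker (Sy.e : (Fin n → F) →ₗ[F] (Fin n → F) →ₗ[F] F) = ⊥ := by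
    rw [LinearMap.ker_eq_bot']
    intro m hm
    exact ee_nondeg fun y => by
      show Sy.e m y = 0
      rw [hm]
      rfl
  have h4 := KS.finrank_ann (b := (Sy.e : (Fin n → F) →ₗ[F] (Fin n → F) →ₗ[F] F))
    (fun x y => ee_comm x y) (N := Up) (by rw [hker]; exact bot_le)
  rw [hker, finrank_bot, Module.finrank_fin_fun, add_zero, ← h3] at h4
  rw [h1, h2, Module.natCard_eq_pow_finrank (K := F) (V := Up),
    Module.natCard_eq_pow_finrank (K := F) (V := N), ← pow_add, h4]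

private theorem tra_indW {V V' : Type*} [AddCommGroup V] [AddCommGroup V'] [Module O V]
    [Module F V'] {f : V ≃+ V'} (hf : SIso O F f) {σ : P → V → V} {σ' : P → V' → V'}
    (hact : ∀ g v, f (σ g v) = σ' g (f v)) {act : IsAct σ}
    {lin : ∀ g (a : O) m, σ g (a • m) = a • σ g m} {act' : IsAct σ'}
    {lin' : ∀ g (a : F) m, σ' g (a • m) = a • σ' g m} {N : Submodule O V} {N' : Submodule F V'}
    (hN : ∀ v, f v ∈ N' ↔ v ∈ N) : tra hf (indW T act lin N) = indW T act' lin' N' := by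
  ext x
  obtain ⟨x, rfl⟩ : ∃ y : P → V, x = fun d => f (y d) :=
    ⟨fun d => f.symm (x d), funext fun d => (f.apply_symm_apply _).symm⟩
  rw [map_tra, mem_indW, mem_indW, z1_tra (f := f) (ρ := σ) hact]
  refine and_congr Iff.rfl ⟨?_, ?_⟩
  · rintro ⟨m, hm⟩
    refine ⟨f m, fun d => ?_⟩
    have e1 : f (x d) - d0 σ' (f m) d = f (x d - d0 σ m d) := by
      simp only [d0, map_sub, hact]
    rw [e1, hN]
    exact hm d
  · rintro ⟨m, hm⟩
    obtain ⟨m, rfl⟩ := f.surjective m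
    refine ⟨m, fun d => ?_⟩
    have e1 : f (x d) - d0 σ' (f m) d = f (x d - d0 σ m d) := by
      simp only [d0, map_sub, hact]
    rw [← hN, ← e1]
    exact hm d

private theorem card_fixV_tra {V V' : Type*} [AddCommGroup V] [AddCommGroup V'] [Module O V]
    [Module F V'] {f : V ≃+ V'} {σ : P → V → V} {σ' : P → V' → V'}
    (hact : ∀ g v, f (σ g v) = σ' g (f v)) {act : IsAct σ}
    {lin : ∀ g (a : O) m, σ g (a • m) = a • σ g m} {act' : IsAct σ'}
    {lin' : ∀ g (a : F) m, σ' g (a • m) = a • σ' g m} {N : Submodule O V} {N' : Submodule F V'}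
    (hN : ∀ v, f v ∈ N' ↔ v ∈ N) :
    Nat.card (fixV act' lin' N') = Nat.card (fixV act lin N) :=
  (Nat.card_congr (f.toEquiv.subtypeEquiv fun v => by
    show v ∈ fixV act lin N ↔ f v ∈ fixV act' lin' N'
    rw [mem_fixV, mem_fixV]
    refine forall_congr' fun d => ?_
    rw [← hN, map_sub, hact])).symm

/-- THE CONTRIBUTION of a condition `Y` at a place that does not split, with a stable submodule `W1` of `M × M` with
`b v.1 w.2 = 0` on `W1` that is its own annihilator -/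
theorem locM_ind (p : PlQ.{v} S Sq χ χq e c κ T jp iv) (h : SDualF S χ κ Θ O ρ b)
    (hC : InvC κ O ρ b C) {τ : P} (hτ : ∀ g, e g ≠ jp τ) {k : ℕ} (hE : Eul.{v} T k)
    {W1 : Submodule O (M × M)} (hst : ∀ d, ∀ w ∈ W1, ac2 e c κ ρ (jp d) w ∈ W1)
    (hb : ∀ v ∈ W1, ∀ w ∈ W1, b v.1 w.2 = 0) (hp : ∀ v, (∀ w ∈ W1, pB (be2 b) w v = 0) → v ∈ W1)
    {Y : Submodule O (P → M × M)} {δ : ℕ}
    (hY : ∀ x ∈ Y, Z1 T (fun d => ac2 e c κ ρ (jp d)) x)
    (hev : EvPow (Nat.card F) (Nat.card Y *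
      Nat.card ↥(Y ⊓ indW T (p.qm h).act (p.qm h).lin W1) *
      Nat.card (fixV (p.qm h).act (p.qm h).lin W1) * Nat.card F ^ δ)) :
    LocM T jp iv e c κ F ρ b C Y δ := by
  intro n iS L A hc
  have X := p.two
  have hq1 : 1 < Nat.card F := Finite.one_lt_card
  have hact2 : ∀ (d : P) (v : M × M), f2 L (ac2 e c κ ρ (jp d) v) =
      ac2 e c κ (KT.act (A.comp e)) (jp d) (f2 L v) := fun d v => hc.act2 X (jp d) v
  have hq : QM T (fun d => χq (jp d)) F (fun d => ac2 e c κ (KT.act (A.comp e)) (jp d))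
      (be2 (bC A c)) (fun (a : F) d => la2 e c κ (KT.act (A.comp e)) (bC A c) a (jp d)) :=
    qm_tra (siso_f2 hc.iso) hact2 hc.be (fun a d v => hc.la X a (jp d) v) (p.qm h)
  obtain ⟨Up, N, o, hN'⟩ := exists_UN X hc hst hb hp
  have hN : ∀ v : M × M, f2 L v ∈ W2 A c Up N ↔ v ∈ W1 := fun v => (hN' v).symm
  have hτ' : ep e (jp τ) = 1 := if_neg fun ⟨g, hg⟩ => hτ g hg
  refine locPar_ord2 X p.loc hc.sp (p.smA hc h.sm) p.esm (p.ldA hc h.sm) o hτ' hE hq ?_
  have e1 : tra (siso_f2 hc.iso) (indW T (p.qm h).act (p.qm h).lin W1) =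
      indW T hq.act hq.lin (W2 A c Up N) := tra_indW (siso_f2 hc.iso) hact2 hN
  have e2 : Nat.card (fixV hq.act hq.lin (W2 A c Up N)) =
      Nat.card (fixV (p.qm h).act (p.qm h).lin W1) := card_fixV_tra hact2 hN
  have e3 : Nat.card ↥(tra (siso_f2 hc.iso) Y ⊓ indW T hq.act hq.lin (W2 A c Up N)) =
      Nat.card ↥(Y ⊓ indW T (p.qm h).act (p.qm h).lin W1) := by
    rw [← e1, ← tra_inf, card_tra]
  have hfY : Finite Y := by
    have hfin := (p.ldM h).fin
    exact Finite.of_injective (fun x : Y => (⟨x.1, hY x.1 x.2⟩ :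
      {x : P → M × M // Z1 T (fun d => ac2 e c κ ρ (jp d)) x})) fun x y hxy => Subtype.ext (by
        simpa using hxy)
  have hfY' : Finite (tra (siso_f2 hc.iso) Y) := by
    refine Nat.finite_of_card_ne_zero ?_
    rw [card_tra]
    exact Nat.card_pos.ne'
  have hfI : Finite ↥(tra (siso_f2 hc.iso) Y ⊓
      indW T hq.act hq.lin (W2 A c Up N)) :=
    Finite.of_injective (fun x => (⟨x.1, x.2.1⟩ : tra (siso_f2 hc.iso) Y)) fun x y hxy =>
      Subtype.ext (by simpa using hxy)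
  rw [← e2, ← e3, ← card_tra (siso_f2 hc.iso) Y,
    Module.natCard_eq_pow_finrank (K := F) (V := tra (siso_f2 hc.iso) Y),
    Module.natCard_eq_pow_finrank (K := F) (V := ↥(tra (siso_f2 hc.iso) Y ⊓
      indW T hq.act hq.lin (W2 A c Up N))),
    Module.natCard_eq_pow_finrank (K := F) (V := fixV hq.act hq.lin (W2 A c Up N)),
    ← pow_add, ← pow_add, ← pow_add] at hev
  obtain ⟨m, hm⟩ := hev
  have h4 := Nat.pow_right_injective hq1 hm
  refine ⟨m, ?_⟩
  have h5 : Module.finrank F (tra (siso_f2 hc.iso) Y) +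
      Module.finrank F ↥(tra (siso_f2 hc.iso) Y ⊓
        indW T hq.act hq.lin (W2 A c Up N)) +
      Module.finrank F (fixV hq.act hq.lin (W2 A c Up N)) + δ = 2 * m := h4
  omega

/-- the same with the fixed vectors of the quotient -/
theorem locM_ind1 (p : PlQ.{v} S Sq χ χq e c κ T jp iv) (h : SDualF S χ κ Θ O ρ b)
    (hC : InvC κ O ρ b C) {τ : P} (hτ : ∀ g, e g ≠ jp τ) {k : ℕ} (hE : Eul.{v} T k)
    {W1 : Submodule O (M × M)} (hst : ∀ d, ∀ w ∈ W1, ac2 e c κ ρ (jp d) w ∈ W1)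
    (hb : ∀ v ∈ W1, ∀ w ∈ W1, b v.1 w.2 = 0) (hp : ∀ v, (∀ w ∈ W1, pB (be2 b) w v = 0) → v ∈ W1)
    {Y Yo : Submodule O (P → M × M)} {δ : ℕ}
    (hY : ∀ x ∈ Y, Z1 T (fun d => ac2 e c κ ρ (jp d)) x)
    (hYo : ∀ x, x ∈ Yo ↔ Z1 T (fun d => ac2 e c κ ρ (jp d)) x ∧
      ∃ m, ∀ d, x d - d0 (fun d => ac2 e c κ ρ (jp d)) m d ∈ W1)
    {Q : Type*} [AddCommGroup Q] {ω : P → Q → Q} (q : M × M →+ Q) (hq : Function.Surjective q)
    (hk : ∀ v, q v = 0 ↔ v ∈ W1) (hω : ∀ d v, q (ac2 e c κ ρ (jp d) v) = ω d (q v))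
    (hev : EvPow (Nat.card F) (Nat.card Y * Nat.card ↥(Y ⊓ Yo) *
      Nat.card {x : Q // ∀ d, ω d x = x} * Nat.card F ^ δ)) :
    LocM T jp iv e c κ F ρ b C Y δ := by
  intro n iS L A hc
  have e1 : Yo = indW T (p.qm h).act (p.qm h).lin W1 := by
    ext x
    rw [hYo, mem_indW]
  obtain ⟨e2, r, hr⟩ := card_W1 p.two hc hst hb hp
  refine locM_ind p h hC hτ hE hst hb hp hY ?_ n iS L A hc
  rw [← e1, OR.card_fixV (p.qm h).act (p.qm h).lin W1 q hq hk hω, e2, hr]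
  obtain ⟨m, hm⟩ := hev
  refine ⟨m + r, ?_⟩
  have e4 : Nat.card Y * Nat.card ↥(Y ⊓ Yo) *
      (Nat.card F ^ (r + r) * Nat.card {x : Q // ∀ d, ω d x = x}) * Nat.card F ^ δ =
      (Nat.card Y * Nat.card ↥(Y ⊓ Yo) * Nat.card {x : Q // ∀ d, ω d x = x} *
        Nat.card F ^ δ) * Nat.card F ^ (r + r) := by ring
  rw [e4, hm, ← pow_add]
  congr 1
  ring

end Pool.Agent.Work.MP_787500_nt.IU
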